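import Mathlib
import Pool.Agent.H373R2.T7.Telesc

/-! Telescoping in mean square, for a family of weights. -/

namespace Pool.Agent.Y871.BD
open Finset
open Pool.Agent.H373R2.T7

variable {k : ℕ} {ι : Type*}

/-- telescoping in mean square -/
theorem tele2 (N : ℕ) (x : Fin k → ℕ) (hx : ∀ i, 1 ≤ x i) (S : Finset ι) (w : ι → ℕ → ℝ) (P Q : Fin k → ℕ → ℕ → ℝ)
    (Λ Δ : ℝ) (hΛ : 1 ≤ Λ) (hΔ : 0 ≤ Δ)
    (hP : ∀ i, ∀ n ∈ Icc 1 N, ∀ v ∈ Icc 1 (x i), |P i n v| ≤ Λ) (hQ : ∀ i, ∀ n ∈ Icc 1 N, ∀ v ∈ Icc 1 (x i), |Q i n v| ≤ Λ)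
    (hone : ∀ i, ∀ K : ℝ, 0 < K → ∀ G : ℕ → ℝ, (∀ n ∈ Icc 1 N, |G n| ≤ K) →
      ∑ v ∈ Icc 1 (x i), ∑ s ∈ S, (∑ n ∈ Icc 1 N, w s n * (G n * (P i n v - Q i n v))) ^ 2 ≤ K ^ 2 * (Δ * x i))
    (J : Finset (Fin k)) : ∀ K : ℝ, 0 < K → ∀ G : ℕ → (Fin k → ℕ) → ℝ,
    (∀ n ∈ Icc 1 N, ∀ m ∈ Fintype.piFinset (fun i => Icc 1 (x i)), |G n m| ≤ K) →
    (∀ n m v, ∀ i ∈ J, G n (Function.update m i v) = G n m) →
    ∑ m ∈ Fintype.piFinset (fun i => Icc 1 (x i)), ∑ s ∈ S,
      (∑ n ∈ Icc 1 N, w s n * (G n m * (∏ i ∈ J, P i n (m i) - ∏ i ∈ J, Q i n (m i)))) ^ 2 ≤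
      4 ^ J.card * (K * Λ ^ J.card) ^ 2 * Δ * ∏ i, (x i : ℝ) := by
  classical
  have hx0 : ∀ j, (0 : ℝ) < x j := fun j => by exact_mod_cast hx j
  have hprod : 0 < ∏ j, (x j : ℝ) := prod_pos fun j _ => hx0 j
  induction J using Finset.induction_on with
  | empty =>
    intro K hK G _ _
    simp only [prod_empty, sub_self, mul_zero, sum_const_zero, card_empty, pow_zero]
    rw [zero_pow (by norm_num), sum_const_zero, sum_const_zero]
    positivity
  | insert i J hi ih =>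
    intro K hK G hG hind
    rw [card_insert_of_notMem hi]
    -- splitting
    have hsplit : ∀ m ∈ Fintype.piFinset (fun i => Icc 1 (x i)), ∀ s ∈ S,
        (∑ n ∈ Icc 1 N, w s n * (G n m * (∏ i ∈ insert i J, P i n (m i) - ∏ i ∈ insert i J, Q i n (m i)))) ^ 2 ≤
        2 * (∑ n ∈ Icc 1 N, w s n * ((G n m * P i n (m i)) * (∏ i ∈ J, P i n (m i) - ∏ i ∈ J, Q i n (m i)))) ^ 2 +
        2 * (∑ n ∈ Icc 1 N, w s n * ((G n m * ∏ j ∈ J, Q j n (m j)) * (P i n (m i) - Q i n (m i)))) ^ 2 := by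
      intro m _ s _
      have e : ∑ n ∈ Icc 1 N, w s n * (G n m * (∏ i ∈ insert i J, P i n (m i) - ∏ i ∈ insert i J, Q i n (m i))) =
          ∑ n ∈ Icc 1 N, w s n * ((G n m * P i n (m i)) * (∏ i ∈ J, P i n (m i) - ∏ i ∈ J, Q i n (m i))) +
          ∑ n ∈ Icc 1 N, w s n * ((G n m * ∏ j ∈ J, Q j n (m j)) * (P i n (m i) - Q i n (m i))) := by
        rw [← sum_add_distrib]
        apply sum_congr rfl
        intro n _
        rw [prod_insert hi, prod_insert hi]
        ring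
      rw [e]
      nlinarith [sq_nonneg (∑ n ∈ Icc 1 N, w s n * ((G n m * P i n (m i)) * (∏ i ∈ J, P i n (m i) - ∏ i ∈ J, Q i n (m i))) -
        ∑ n ∈ Icc 1 N, w s n * ((G n m * ∏ j ∈ J, Q j n (m j)) * (P i n (m i) - Q i n (m i))))]
    refine (sum_le_sum fun m hm => sum_le_sum fun s hs => hsplit m hm s hs).trans ?_
    simp only [sum_add_distrib, ← mul_sum]
    -- first part
    have h1 := ih (K * Λ) (by positivity) (fun n m => if n ∈ Icc 1 N ∧ m i ∈ Icc 1 (x i) then G n m * P i n (m i) else 0)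
      (by
        intro n hn m hm
        rw [Fintype.mem_piFinset] at hm
        simp only [if_pos (And.intro hn (hm i))]
        rw [abs_mul]
        exact mul_le_mul (hG n hn m (Fintype.mem_piFinset.2 hm)) (hP i n hn _ (hm i)) (abs_nonneg _) hK.le)
      (by
        intro n m v j hj
        have hne : i ≠ j := fun h => hi (h ▸ hj)
        rw [Function.update_of_ne hne]
        rw [hind n m v j (mem_insert_of_mem hj)])
    have h1' : ∑ m ∈ Fintype.piFinset (fun i => Icc 1 (x i)), ∑ s ∈ S,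
        (∑ n ∈ Icc 1 N, w s n * ((G n m * P i n (m i)) * (∏ i ∈ J, P i n (m i) - ∏ i ∈ J, Q i n (m i)))) ^ 2 ≤
        4 ^ J.card * (K * Λ * Λ ^ J.card) ^ 2 * Δ * ∏ i, (x i : ℝ) := by
      refine le_trans (le_of_eq ?_) h1
      apply sum_congr rfl
      intro m hm
      apply sum_congr rfl
      intro s _
      congr 1
      apply sum_congr rfl
      intro n hn
      rw [Fintype.mem_piFinset] at hm
      simp only [if_pos (And.intro hn (hm i))]
    -- second part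
    have h2 : ∑ m ∈ Fintype.piFinset (fun i => Icc 1 (x i)), ∑ s ∈ S,
        (∑ n ∈ Icc 1 N, w s n * ((G n m * ∏ j ∈ J, Q j n (m j)) * (P i n (m i) - Q i n (m i)))) ^ 2 ≤
        (K * Λ ^ J.card) ^ 2 * Δ * ∏ i, (x i : ℝ) := by
      set Φ : (Fin k → ℕ) → ℝ := fun m => ∑ s ∈ S,
        (∑ n ∈ Icc 1 N, w s n * ((G n m * ∏ j ∈ J, Q j n (m j)) * (P i n (m i) - Q i n (m i)))) ^ 2 with hΦ
      have h3 := avg_coord (fun i => Icc 1 (x i)) i Φ
      have h4 : ((Icc 1 (x i)).card : ℝ) = x i := by simp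
      rw [h4] at h3
      have h5 : ∀ m ∈ Fintype.piFinset (fun i => Icc 1 (x i)), ∑ v ∈ Icc 1 (x i), Φ (Function.update m i v) ≤
          (K * Λ ^ J.card) ^ 2 * (Δ * x i) := by
        intro m hm
        have hm' := Fintype.mem_piFinset.1 hm
        have h6 := hone i (K * Λ ^ J.card) (by positivity) (fun n => G n m * ∏ j ∈ J, Q j n (m j)) (by
          intro n hn
          rw [abs_mul, abs_prod]
          apply mul_le_mul (hG n hn m hm) _ (prod_nonneg fun _ _ => abs_nonneg _) hK.le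
          calc ∏ j ∈ J, |Q j n (m j)| ≤ ∏ _j ∈ J, Λ := prod_le_prod (fun _ _ => abs_nonneg _) (fun j _ => hQ j n hn _ (hm' j))
            _ = Λ ^ J.card := by rw [prod_const])
        refine le_trans (le_of_eq ?_) h6
        apply sum_congr rfl
        intro v _
        rw [hΦ]
        simp only
        apply sum_congr rfl
        intro s _
        congr 1
        apply sum_congr rfl
        intro n _
        rw [hind n m v i (mem_insert_self _ _), Function.update_self]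
        congr 3
        apply prod_congr rfl
        intro j hj
        have hne : j ≠ i := fun h => hi (h ▸ hj)
        rw [Function.update_of_ne hne]
      have h6 := sum_le_sum h5
      rw [h3, sum_const, nsmul_eq_mul] at h6
      have h7 : ((Fintype.piFinset (fun i => Icc 1 (x i))).card : ℝ) = ∏ i, (x i : ℝ) := by
        rw [Fintype.card_piFinset]
        push_cast
        apply prod_congr rfl
        intro j _
        simp
      rw [h7] at h6
      have h8 : (x i : ℝ) * ∑ m ∈ Fintype.piFinset (fun i => Icc 1 (x i)), Φ m ≤ x i * ((K * Λ ^ J.card) ^ 2 * Δ * ∏ i, (x i : ℝ)) := by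
        refine h6.trans (le_of_eq ?_)
        ring
      exact le_of_mul_le_mul_left h8 (hx0 i)
    have h9 : (K * Λ ^ J.card) ^ 2 * Δ * ∏ i, (x i : ℝ) ≤ 4 ^ J.card * (K * Λ ^ (J.card + 1)) ^ 2 * Δ * ∏ i, (x i : ℝ) := by
      have e1 : Λ ^ J.card ≤ Λ ^ (J.card + 1) := pow_le_pow_right₀ hΛ (by omega)
      have e2 : (1 : ℝ) ≤ 4 ^ J.card := one_le_pow₀ (by norm_num)
      have e3 : (K * Λ ^ J.card) ^ 2 ≤ (K * Λ ^ (J.card + 1)) ^ 2 := by
        apply pow_le_pow_left₀ (by positivity)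
        exact mul_le_mul_of_nonneg_left e1 hK.le
      have e4 : (K * Λ ^ J.card) ^ 2 ≤ 4 ^ J.card * (K * Λ ^ (J.card + 1)) ^ 2 := by
        have e5 : 0 ≤ (K * Λ ^ (J.card + 1)) ^ 2 := by positivity
        nlinarith
      gcongr
    have h10 : 4 ^ J.card * (K * Λ * Λ ^ J.card) ^ 2 * Δ * ∏ i, (x i : ℝ) = 4 ^ J.card * (K * Λ ^ (J.card + 1)) ^ 2 * Δ * ∏ i, (x i : ℝ) := by
      rw [pow_succ]
      ring
    rw [h10] at h1'
    have h11 : (4 : ℝ) ^ (J.card + 1) = 4 * 4 ^ J.card := by ring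
    rw [h11]
    calc _ ≤ 2 * (4 ^ J.card * (K * Λ ^ (J.card + 1)) ^ 2 * Δ * ∏ i, (x i : ℝ)) + 2 * (4 ^ J.card * (K * Λ ^ (J.card + 1)) ^ 2 * Δ * ∏ i, (x i : ℝ)) :=
          add_le_add (mul_le_mul_of_nonneg_left h1' (by norm_num)) (mul_le_mul_of_nonneg_left (h2.trans h9) (by norm_num))
      _ = _ := by ring

end Pool.Agent.Y871.BD
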