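import Mathlib
import Pool.Agent.Y871.BD.Tele2
import Pool.Agent.H373R2.T7.Sys8

/-! Mean squares over families of weights: the kernel bound. -/

namespace Pool.Agent.Y871.BD
open Finset Polynomial
open Pool.Agent.H373R2.T7

variable {ι : Type*}

/-- the kernel of a family of weights -/
noncomputable def Ker (S : Finset ι) (w : ι → ℕ → ℝ) (n m : ℕ) : ℝ := ∑ s ∈ S, w s n * w s m

/-- the diagonal -/
noncomputable def Dg (S : Finset ι) (w : ι → ℕ → ℝ) (x : ℕ) : ℝ := ∑ n ∈ Icc 1 x, Ker S w n n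

/-- the off-diagonal part -/
noncomputable def Off (S : Finset ι) (w : ι → ℕ → ℝ) (x : ℕ) : ℝ :=
  ∑ n ∈ Icc 1 x, ∑ m ∈ Icc 1 x, if n = m then 0 else Ker S w n m ^ 2

/-- correlations -/
noncomputable def Corr (A : ℕ) (u : ℕ → ℕ → ℝ) (n m : ℕ) : ℝ := ∑ v ∈ Icc 1 A, u n v * u m v

lemma Dg_nonneg (S : Finset ι) (w : ι → ℕ → ℝ) (x : ℕ) : 0 ≤ Dg S w x :=
  sum_nonneg fun _ _ => sum_nonneg fun _ _ => mul_self_nonneg _

lemma Off_nonneg (S : Finset ι) (w : ι → ℕ → ℝ) (x : ℕ) : 0 ≤ Off S w x :=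
  sum_nonneg fun _ _ => sum_nonneg fun _ _ => by split_ifs <;> positivity

lemma sq_expand (S : Finset ι) (w : ι → ℕ → ℝ) (x A : ℕ) (c : ℕ → ℝ) (u : ℕ → ℕ → ℝ) :
    ∑ v ∈ Icc 1 A, ∑ s ∈ S, (∑ n ∈ Icc 1 x, w s n * (c n * u n v)) ^ 2 =
      ∑ n ∈ Icc 1 x, ∑ m ∈ Icc 1 x, Ker S w n m * (c n * c m) * Corr A u n m := by
  have h1 : ∀ v ∈ Icc 1 A, ∀ s ∈ S, (∑ n ∈ Icc 1 x, w s n * (c n * u n v)) ^ 2 =
      ∑ n ∈ Icc 1 x, ∑ m ∈ Icc 1 x, (w s n * w s m) * (c n * c m) * (u n v * u m v) := by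
    intro v _ s _
    rw [sq, sum_mul_sum]
    apply sum_congr rfl
    intro n _
    apply sum_congr rfl
    intro m _
    ring
  rw [sum_congr rfl fun v hv => sum_congr rfl fun s hs => h1 v hv s hs]
  unfold Ker Corr
  simp only [sum_mul_sum, sum_mul]
  have e1 : ∑ v ∈ Icc 1 A, ∑ s ∈ S, ∑ n ∈ Icc 1 x, ∑ m ∈ Icc 1 x, (w s n * w s m) * (c n * c m) * (u n v * u m v) =
      ∑ n ∈ Icc 1 x, ∑ m ∈ Icc 1 x, ∑ v ∈ Icc 1 A, ∑ s ∈ S, (w s n * w s m) * (c n * c m) * (u n v * u m v) := by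
    calc _ = ∑ v ∈ Icc 1 A, ∑ n ∈ Icc 1 x, ∑ s ∈ S, ∑ m ∈ Icc 1 x, (w s n * w s m) * (c n * c m) * (u n v * u m v) :=
          sum_congr rfl fun v _ => sum_comm
      _ = ∑ n ∈ Icc 1 x, ∑ v ∈ Icc 1 A, ∑ s ∈ S, ∑ m ∈ Icc 1 x, (w s n * w s m) * (c n * c m) * (u n v * u m v) := sum_comm
      _ = ∑ n ∈ Icc 1 x, ∑ v ∈ Icc 1 A, ∑ m ∈ Icc 1 x, ∑ s ∈ S, (w s n * w s m) * (c n * c m) * (u n v * u m v) :=
          sum_congr rfl fun n _ => sum_congr rfl fun v _ => sum_comm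
      _ = _ := sum_congr rfl fun n _ => sum_comm
  rw [e1]
  apply sum_congr rfl
  intro n _
  apply sum_congr rfl
  intro m _
  rw [sum_comm]
  apply sum_congr rfl
  intro s _
  rw [mul_sum]

theorem kern (S : Finset ι) (w : ι → ℕ → ℝ) (x A : ℕ) (c : ℕ → ℝ) (u : ℕ → ℕ → ℝ) (K Cm T : ℝ) (hK : 0 ≤ K) (hCm : 0 ≤ Cm)
    (hT : 0 ≤ T) (hc : ∀ n ∈ Icc 1 x, |c n| ≤ K) (hC : ∀ n ∈ Icc 1 x, ∀ m ∈ Icc 1 x, |Corr A u n m| ≤ Cm)
    (hS : ∀ n ∈ Icc 1 x, ∑ m ∈ Icc 1 x, |Corr A u n m| ≤ T) :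
    ∑ v ∈ Icc 1 A, ∑ s ∈ S, (∑ n ∈ Icc 1 x, w s n * (c n * u n v)) ^ 2 ≤
      K ^ 2 * (Cm * Dg S w x + √(Off S w x) * √(Cm * (x * T))) := by
  rw [sq_expand]
  have h1 : ∀ n ∈ Icc 1 x, ∀ m ∈ Icc 1 x, Ker S w n m * (c n * c m) * Corr A u n m ≤
      K ^ 2 * ((if n = m then Cm * Ker S w n n else 0) + (if n = m then 0 else |Ker S w n m|) * |Corr A u n m|) := by
    intro n hn m hm
    have h2 : |c n * c m| ≤ K ^ 2 := by
      rw [abs_mul, sq]
      exact mul_le_mul (hc n hn) (hc m hm) (abs_nonneg _) hK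
    have h3 : Ker S w n m * (c n * c m) * Corr A u n m ≤ |Ker S w n m| * K ^ 2 * |Corr A u n m| := by
      refine (le_abs_self _).trans ?_
      rw [abs_mul, abs_mul]
      apply mul_le_mul_of_nonneg_right _ (abs_nonneg _)
      exact mul_le_mul_of_nonneg_left h2 (abs_nonneg _)
    refine h3.trans ?_
    split_ifs with h
    · subst h
      have h4 : 0 ≤ Ker S w n n := sum_nonneg fun _ _ => mul_self_nonneg _
      rw [abs_of_nonneg h4, zero_mul, add_zero]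
      have h5 : Ker S w n n * K ^ 2 * |Corr A u n n| ≤ Ker S w n n * K ^ 2 * Cm :=
        mul_le_mul_of_nonneg_left (hC n hn n hn) (by positivity)
      linarith
    · rw [zero_add]
      exact le_of_eq (by ring)
  refine (sum_le_sum fun n hn => sum_le_sum fun m hm => h1 n hn m hm).trans ?_
  simp only [← mul_sum, sum_add_distrib]
  apply mul_le_mul_of_nonneg_left _ (by positivity)
  apply add_le_add
  · unfold Dg
    rw [mul_sum]
    apply le_of_eq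
    apply sum_congr rfl
    intro n hn
    rw [sum_ite_eq, if_pos hn]
  · -- Cauchy
    have h2 := sum_mul_sq_le_sq_mul_sq (Icc 1 x ×ˢ Icc 1 x) (fun q : ℕ × ℕ => if q.1 = q.2 then 0 else |Ker S w q.1 q.2|)
      (fun q => |Corr A u q.1 q.2|)
    have e1 : ∑ n ∈ Icc 1 x, ∑ m ∈ Icc 1 x, (if n = m then 0 else |Ker S w n m|) * |Corr A u n m| =
        ∑ q ∈ Icc 1 x ×ˢ Icc 1 x, (if q.1 = q.2 then 0 else |Ker S w q.1 q.2|) * |Corr A u q.1 q.2| := by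
      rw [sum_product]
    have e2 : ∑ q ∈ Icc 1 x ×ˢ Icc 1 x, (if q.1 = q.2 then 0 else |Ker S w q.1 q.2|) ^ 2 = Off S w x := by
      rw [sum_product]
      unfold Off
      apply sum_congr rfl
      intro n _
      apply sum_congr rfl
      intro m _
      split_ifs
      · simp
      · rw [sq_abs]
    have e3 : ∑ q ∈ Icc 1 x ×ˢ Icc 1 x, |Corr A u q.1 q.2| ^ 2 ≤ Cm * (x * T) := by
      rw [sum_product]
      calc ∑ n ∈ Icc 1 x, ∑ m ∈ Icc 1 x, |Corr A u n m| ^ 2 ≤ ∑ n ∈ Icc 1 x, ∑ m ∈ Icc 1 x, Cm * |Corr A u n m| := by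
            apply sum_le_sum
            intro n hn
            apply sum_le_sum
            intro m hm
            rw [sq]
            exact mul_le_mul_of_nonneg_right (hC n hn m hm) (abs_nonneg _)
        _ = ∑ n ∈ Icc 1 x, Cm * ∑ m ∈ Icc 1 x, |Corr A u n m| := by simp only [← mul_sum]
        _ ≤ ∑ _n ∈ Icc 1 x, Cm * T := sum_le_sum fun n hn => mul_le_mul_of_nonneg_left (hS n hn) hCm
        _ = _ := by
            rw [sum_const, nsmul_eq_mul, Nat.card_Icc, Nat.add_sub_cancel]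
            ring
    rw [e1]
    rw [e2] at h2
    rw [← Real.sqrt_mul (Off_nonneg S w x)]
    apply Real.le_sqrt_of_sq_le
    exact h2.trans (mul_le_mul_of_nonneg_left e3 (Off_nonneg S w x))

end Pool.Agent.Y871.BD
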