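import Mathlib
import Pool.Agent.Y871.BD.Ker

/-! Mean squares over families of weights, for systems of polynomials. -/

namespace Pool.Agent.Y871.BD
open Finset Polynomial
open Pool.Agent.H373R2.T7

set_option maxHeartbeats 2000000 in
theorem bd_I {k : ℕ} (F : Fin k → ℤ[X]) (hd : ∀ i, 1 ≤ (F i).natDegree) (hl : ∀ i, 0 < (F i).leadingCoeff)
    (σ : Fin k → ℤ) (hσ : ∀ i, σ i = 1 ∨ σ i = -1) (B : ℕ) (hB : 1 ≤ B) (U : ℕ) :
    ∃ B0 : ℕ, ∀ E : ℕ, ∃ N0 : ℕ, ∀ x : ℕ, N0 ≤ x → ∀ A : Fin k → ℕ,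
      (∀ i, A i ≤ B * x ^ (F i).natDegree ∧ x ^ (F i).natDegree ≤ B * A i) →
      ∀ z : ℕ, Real.log x ^ B0 ≤ z → (z : ℝ) ≤ Real.log x ^ E →
      ∀ (ι : Type) (S : Finset ι) (w : ι → ℕ → ℝ),
      ∑ a ∈ Fintype.piFinset (fun i => Icc 1 (A i)), ∑ s ∈ S, (∑ n ∈ Icc 1 x, w s n *
        (∏ i, lamI (vl F σ a i n) - ∏ i, lamzI z (vl F σ a i n))) ^ 2 ≤
        (∏ i, (A i : ℝ)) * (Real.log x ^ (2 * k + 3) * Dg S w x + √(Off S w x) * (x / Real.log x ^ U)) := by
  classical
  set V : ℕ := U + 2 * k + 1 with hV'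
  set U' : ℕ := 2 * V + 4 with hU'
  set D : ℕ := univ.sup (fun i => (F i).natDegree) with hD
  have hbl := fun i => bil_lam (F i) (hd i) (hl i) B hB U'
  choose B0 hB0 using hbl
  refine ⟨univ.sup B0 + 1, fun E => ?_⟩
  have hE := fun i => hB0 i (E + 1)
  choose N0 hN0 using hE
  obtain ⟨n1, h1⟩ := size_log D B hB
  set c1 : ℕ := 2 * B * (1 + univ.sup (fun i => cf (F i))) with hc1
  set C2 : ℝ := (D + 1 : ℝ) ^ (univ.sup B0) + 2 * 2 ^ E + Real.log c1 + (D + 2) + 4 ^ k * (D + 2 : ℝ) ^ (2 * k + 2) +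
    (D + 2 : ℝ) ^ 3 * 2 ^ U' with hC2
  obtain ⟨n2, h2⟩ := ev_L' C2
  obtain ⟨n3, h3⟩ := Vz_inv_small E
  refine ⟨max (max (B * univ.sup N0) n1) (max (max n2 n3) 3), fun x hx A hA z hz1 hz2 ι S w => ?_⟩
  have b0 := le_trans (le_trans (le_max_left _ _) (le_max_left _ _)) hx
  have b1 := le_trans (le_trans (le_max_right _ _) (le_max_left _ _)) hx
  have b2 := le_trans (le_trans (le_trans (le_max_left _ _) (le_max_left _ _)) (le_max_right _ _)) hx
  have b3 := le_trans (le_trans (le_trans (le_max_right _ _) (le_max_left _ _)) (le_max_right _ _)) hx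
  have hx3 : 3 ≤ x := le_trans (le_trans (le_max_right _ _) (le_max_right _ _)) hx
  have hxr : (3 : ℝ) ≤ x := by exact_mod_cast hx3
  have hx0 : (0 : ℝ) < x := by linarith
  have hL := h2 x b2
  set L := Real.log x with hLd
  have hDr : (0 : ℝ) ≤ D := Nat.cast_nonneg _
  have hc1n : 1 ≤ c1 := by rw [hc1]; exact Nat.mul_pos (by omega) (by omega)
  have hc1r : (1 : ℝ) ≤ c1 := by exact_mod_cast hc1n
  have hlc1 : 0 ≤ Real.log c1 := Real.log_nonneg hc1r
  have q1 : (1 : ℝ) ≤ (D + 1 : ℝ) ^ (univ.sup B0) := one_le_pow₀ (by linarith)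
  have q2 : (1 : ℝ) ≤ 2 ^ E := one_le_pow₀ (by norm_num)
  have q3 : 0 ≤ 4 ^ k * (D + 2 : ℝ) ^ (2 * k + 2) := by positivity
  have q4 : 0 ≤ (D + 2 : ℝ) ^ 3 * 2 ^ U' := by positivity
  have hL1 : 1 ≤ L := by rw [hC2] at hL; linarith
  have hL0 : 0 < L := by linarith
  have hLa : (D + 1 : ℝ) ^ (univ.sup B0) ≤ L := by rw [hC2] at hL; linarith
  have hLb : 2 * 2 ^ E ≤ L := by rw [hC2] at hL; linarith
  have hLc : Real.log c1 ≤ L := by rw [hC2] at hL; linarith
  have hLd' : 4 ^ k * (D + 2 : ℝ) ^ (2 * k + 2) ≤ L := by rw [hC2] at hL; linarith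
  have hLe : (D + 2 : ℝ) ^ 3 * 2 ^ U' ≤ L := by rw [hC2] at hL; linarith
  have hz : 1 ≤ z := by
    have : (1 : ℝ) ≤ z := (one_le_pow₀ hL1).trans hz1
    exact_mod_cast this
  have hV := h3 x b3 z hz hz2
  have hdD : ∀ i, (F i).natDegree ≤ D := fun i => le_sup (f := fun i => (F i).natDegree) (mem_univ i)
  have hsz := fun i => h1 x b1 (F i).natDegree (A i) (hd i) (hdD i) (hA i).1 (hA i).2
  have hA1 : ∀ i, 1 ≤ A i := by
    intro i
    rcases Nat.eq_zero_or_pos (A i) with h | h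
    · have := (hsz i).2.2
      rw [h, mul_zero] at this
      omega
    · exact h
  have hAN : ∀ i, N0 i ≤ A i := by
    intro i
    have h4 : B * N0 i ≤ B * A i := by
      calc B * N0 i ≤ B * univ.sup N0 := Nat.mul_le_mul_left _ (le_sup (f := N0) (mem_univ i))
        _ ≤ x := b0
        _ ≤ B * A i := (hsz i).2.2
    exact Nat.le_of_mul_le_mul_left h4 (by omega)
  -- sizes of the values
  have hup : ∀ i, ∀ n ∈ Icc 1 x, ∀ v ∈ Icc 1 (A i), (((v : ℤ) + σ i * (F i).eval (n : ℤ) : ℤ) : ℝ) ≤ c1 * (x : ℝ) ^ D := by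
    intro i n hn v hv
    have h4 := vl_le' F σ hσ B x i (A i) (hA i).1 n v hn hv
    have h5 : cst F B * x ^ (F i).natDegree ≤ c1 * x ^ D := by
      apply Nat.mul_le_mul
      · unfold cst
        rw [hc1]
        have h9 : univ.sup (fun i => cf (F i)) ≤ 2 * B * univ.sup (fun i => cf (F i)) := Nat.le_mul_of_pos_left _ (by omega)
        have h10 : 2 * B * (1 + univ.sup (fun i => cf (F i))) = 2 * B + 2 * B * univ.sup (fun i => cf (F i)) := by ring
        omega
      · exact Nat.pow_le_pow_right (by omega) (hdD i)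
    have h6 : ((v : ℤ) + σ i * (F i).eval (n : ℤ)) ≤ ((c1 * x ^ D : ℕ) : ℤ) := h4.trans (by exact_mod_cast h5)
    have h10 : (((v : ℤ) + σ i * (F i).eval (n : ℤ) : ℤ) : ℝ) ≤ (((c1 * x ^ D : ℕ) : ℤ) : ℝ) := by exact_mod_cast h6
    push_cast at h10 ⊢
    exact h10
  have hlogc : Real.log (c1 * (x : ℝ) ^ D) ≤ (D + 2) * L := by
    rw [Real.log_mul (by linarith) (by positivity), Real.log_pow]
    have : (D : ℝ) * Real.log x = D * L := rfl
    rw [this]
    linarith
  have h1c : (1 : ℝ) ≤ c1 * (x : ℝ) ^ D := by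
    have h4 : (1 : ℝ) ≤ (x : ℝ) ^ D := one_le_pow₀ (by linarith)
    nlinarith
  set M : ℝ := (D + 2) * L with hM
  have hM1 : 1 ≤ M := by rw [hM]; nlinarith
  have hlamM : ∀ i, ∀ n ∈ Icc 1 x, ∀ v ∈ Icc 1 (A i), lamI ((v : ℤ) + σ i * (F i).eval (n : ℤ)) ≤ M := fun i n hn v hv =>
    (lamI_le _ _ h1c (hup i n hn v hv)).trans hlogc
  have hlzM : ∀ v : ℤ, lamzI z v ≤ M := by
    intro v
    refine (lamzI_le z _).trans (hV.trans ?_)
    rw [hM]
    nlinarith
  have hu : ∀ i, ∀ n ∈ Icc 1 x, ∀ v ∈ Icc 1 (A i), |lamI ((v : ℤ) + σ i * (F i).eval (n : ℤ)) - lamzI z ((v : ℤ) + σ i * (F i).eval (n : ℤ))| ≤ M := by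
    intro i n hn v hv
    have h4 := hlamM i n hn v hv
    have h5 := hlzM ((v : ℤ) + σ i * (F i).eval (n : ℤ))
    have h6 := lamI_nonneg ((v : ℤ) + σ i * (F i).eval (n : ℤ))
    have h7 := lamzI_nonneg z ((v : ℤ) + σ i * (F i).eval (n : ℤ))
    rw [abs_le]
    constructor <;> linarith
  set Dl : ℝ := M ^ 2 * Dg S w x + √(Off S w x) * (x / L ^ V) with hDl
  have hDg := Dg_nonneg S w x
  have hDl0 : 0 ≤ Dl := by positivity
  have key := tele2 x A hA1 S w (fun i n v => lamI ((v : ℤ) + σ i * (F i).eval (n : ℤ))) (fun i n v => lamzI z ((v : ℤ) + σ i * (F i).eval (n : ℤ)))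
    M Dl hM1 hDl0 (by
      intro i n hn v hv
      rw [abs_of_nonneg (lamI_nonneg _)]
      exact hlamM i n hn v hv) (by
      intro i n hn v hv
      rw [abs_of_nonneg (lamzI_nonneg _ _)]
      exact hlzM _) (by
      intro i K hK G hG
      have hlA0 : 0 < Real.log (A i) := by have := (hsz i).1; linarith
      have hA0 : (0 : ℝ) < A i := by exact_mod_cast hA1 i
      have hzl : Real.log (A i) ^ B0 i ≤ z := by
        refine le_trans ?_ hz1
        calc Real.log (A i) ^ B0 i ≤ ((D + 1) * L) ^ B0 i := pow_le_pow_left₀ hlA0.le (hsz i).2.1 _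
          _ ≤ ((D + 1) * L) ^ (univ.sup B0) := by
              apply pow_le_pow_right₀ _ (le_sup (f := B0) (mem_univ i))
              nlinarith
          _ = (D + 1) ^ (univ.sup B0) * L ^ (univ.sup B0) := mul_pow _ _ _
          _ ≤ L * L ^ (univ.sup B0) := mul_le_mul_of_nonneg_right hLa (by positivity)
          _ = L ^ (univ.sup B0 + 1) := by ring
      have hzu : (z : ℝ) ≤ Real.log (A i) ^ (E + 1) := by
        refine hz2.trans ?_
        have h5 : L ≤ 2 * Real.log (A i) := by have := (hsz i).1; linarith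
        calc L ^ E ≤ (2 * Real.log (A i)) ^ E := pow_le_pow_left₀ hL0.le h5 _
          _ = 2 ^ E * Real.log (A i) ^ E := mul_pow _ _ _
          _ ≤ Real.log (A i) * Real.log (A i) ^ E := by
              apply mul_le_mul_of_nonneg_right _ (by positivity)
              linarith
          _ = _ := by ring
      have h4 := hN0 i (A i) (hAN i) x (hA i).1 (hA i).2 (A i) (Nat.le_mul_of_pos_left _ (by omega)) z hzl hzu (σ i) (hσ i)
      have h6 : (L / 2) ^ U' ≤ Real.log (A i) ^ U' := pow_le_pow_left₀ (by positivity) (hsz i).1 _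
      have h7 : (A i : ℝ) * x / Real.log (A i) ^ U' ≤ A i * (x * 2 ^ U' / L ^ U') := by
        calc (A i : ℝ) * x / Real.log (A i) ^ U' ≤ A i * x / (L / 2) ^ U' := by
              apply div_le_div_of_nonneg_left (by positivity) (by positivity) h6
          _ = _ := by rw [div_pow]; field_simp
      set u : ℕ → ℕ → ℝ := fun n v => lamI ((v : ℤ) + σ i * (F i).eval (n : ℤ)) - lamzI z ((v : ℤ) + σ i * (F i).eval (n : ℤ)) with hud
      have hk := kern S w x (A i) G u K (A i * M ^ 2) (M * (A i * (x * 2 ^ U' / L ^ U'))) hK.le (by positivity) (by positivity) hG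
        (by
          intro n hn m hm
          unfold Corr
          refine (abs_sum_le_sum_abs _ _).trans ?_
          calc ∑ v ∈ Icc 1 (A i), |u n v * u m v| ≤ ∑ _v ∈ Icc 1 (A i), M ^ 2 := by
                apply sum_le_sum
                intro v hv
                rw [abs_mul, sq]
                exact mul_le_mul (hu i n hn v hv) (hu i m hm v hv) (abs_nonneg _) (by linarith)
            _ = _ := by rw [sum_const, nsmul_eq_mul, Nat.card_Icc, Nat.add_sub_cancel])
        (by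
          intro n hn
          have h5 := l1_of_bil (A i) x (fun v m => lamI ((v : ℤ) + σ i * (F i).eval (m : ℤ)) - lamzI z ((v : ℤ) + σ i * (F i).eval (m : ℤ)))
            (A i * x / Real.log (A i) ^ U') M (by linarith) h4 (fun v => u n v) (fun v hv => hu i n hn v hv)
          unfold Corr
          exact h5.trans (mul_le_mul_of_nonneg_left h7 (by linarith)))
      refine hk.trans ?_
      apply mul_le_mul_of_nonneg_left _ (by positivity)
      have h8 : √((A i : ℝ) * M ^ 2 * (x * (M * (A i * (x * 2 ^ U' / L ^ U'))))) ≤ A i * (x / L ^ V) := by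
        rw [Real.sqrt_le_left (by positivity)]
        have e1 : (A i : ℝ) * M ^ 2 * (x * (M * (A i * (x * 2 ^ U' / L ^ U')))) = (A i * x) ^ 2 * (M ^ 3 * 2 ^ U' / L ^ U') := by ring
        have e2 : M ^ 3 * 2 ^ U' / L ^ U' ≤ 1 / (L ^ V) ^ 2 := by
          rw [hM, hU', mul_pow, div_le_div_iff₀ (by positivity) (by positivity), one_mul, ← pow_mul]
          calc ((D : ℝ) + 2) ^ 3 * L ^ 3 * 2 ^ (2 * V + 4) * L ^ (V * 2) = ((D + 2 : ℝ) ^ 3 * 2 ^ U') * (L ^ 3 * L ^ (V * 2)) := by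
                rw [hU']; ring
            _ ≤ L * (L ^ 3 * L ^ (V * 2)) := mul_le_mul_of_nonneg_right hLe (by positivity)
            _ = L ^ (2 * V + 4) := by ring
        rw [e1]
        calc (A i * x : ℝ) ^ 2 * (M ^ 3 * 2 ^ U' / L ^ U') ≤ (A i * x : ℝ) ^ 2 * (1 / (L ^ V) ^ 2) :=
              mul_le_mul_of_nonneg_left e2 (by positivity)
          _ = _ := by field_simp
      calc (A i : ℝ) * M ^ 2 * Dg S w x + √(Off S w x) * √((A i : ℝ) * M ^ 2 * (x * (M * (A i * (x * 2 ^ U' / L ^ U')))))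
          ≤ A i * M ^ 2 * Dg S w x + √(Off S w x) * (A i * (x / L ^ V)) := by
            apply add_le_add le_rfl
            exact mul_le_mul_of_nonneg_left h8 (Real.sqrt_nonneg _)
        _ = Dl * A i := by rw [hDl]; ring)
    univ 1 one_pos (fun n _ => 1) (by
      intro n hn m _
      rw [abs_one]) (by
      intro n m v i _; rfl)
  simp only [one_mul] at key
  refine key.trans ?_
  rw [card_univ, Fintype.card_fin]
  have hprod : 0 ≤ ∏ i, (A i : ℝ) := prod_nonneg fun _ _ => Nat.cast_nonneg _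
  rw [mul_comm (∏ i, (A i : ℝ))]
  apply mul_le_mul_of_nonneg_right _ hprod
  have e3 : (4 : ℝ) ^ k * (M ^ k) ^ 2 * Dl = (4 ^ k * (D + 2 : ℝ) ^ (2 * k + 2)) * (L ^ (2 * k + 2) * Dg S w x) +
      (4 ^ k * (D + 2 : ℝ) ^ (2 * k)) * (√(Off S w x) * (x * L ^ (2 * k) / L ^ V)) := by
    rw [hDl, hM, mul_pow ((D : ℝ) + 2) L k]
    ring
  rw [e3]
  have hOf := Real.sqrt_nonneg (Off S w x)
  apply add_le_add
  · calc (4 ^ k * (D + 2 : ℝ) ^ (2 * k + 2)) * (L ^ (2 * k + 2) * Dg S w x) ≤ L * (L ^ (2 * k + 2) * Dg S w x) :=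
          mul_le_mul_of_nonneg_right hLd' (by positivity)
      _ = _ := by ring
  · have e4 : (4 : ℝ) ^ k * (D + 2 : ℝ) ^ (2 * k) ≤ L := by
      refine le_trans ?_ hLd'
      apply mul_le_mul_of_nonneg_left _ (by positivity)
      exact pow_le_pow_right₀ (by linarith) (by omega)
    have e5 : L * (x * L ^ (2 * k) / L ^ V) = x / L ^ U := by
      rw [hV', show U + 2 * k + 1 = U + (2 * k) + 1 by ring, pow_add, pow_add]
      field_simp
    calc (4 : ℝ) ^ k * (D + 2 : ℝ) ^ (2 * k) * (√(Off S w x) * (x * L ^ (2 * k) / L ^ V)) ≤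
        L * (√(Off S w x) * (x * L ^ (2 * k) / L ^ V)) := mul_le_mul_of_nonneg_right e4 (by positivity)
      _ = √(Off S w x) * (L * (x * L ^ (2 * k) / L ^ V)) := by ring
      _ = _ := by rw [e5]

end Pool.Agent.Y871.BD
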