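import Mathlib
import Pool.Agent.Y871.BD.Sys

/-! Mean squares over families of weights: from prime powers to primes. -/

namespace Pool.Agent.Y871.BD
open Finset Polynomial
open Pool.Agent.H373R2.T7

set_option maxHeartbeats 2000000 in
theorem bd_P {k : ℕ} (F : Fin k → ℤ[X]) (hd : ∀ i, 1 ≤ (F i).natDegree)
    (σ : Fin k → ℤ) (hσ : ∀ i, σ i = 1 ∨ σ i = -1) (B : ℕ) (hB : 1 ≤ B) (U : ℕ) :
    ∃ N0 : ℕ, ∀ x : ℕ, N0 ≤ x → ∀ A : Fin k → ℕ,
      (∀ i, A i ≤ B * x ^ (F i).natDegree ∧ x ^ (F i).natDegree ≤ B * A i) →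
      ∀ (ι : Type) (S : Finset ι) (w : ι → ℕ → ℝ),
      ∑ a ∈ Fintype.piFinset (fun i => Icc 1 (A i)), ∑ s ∈ S, (∑ n ∈ Icc 1 x, w s n *
        (∏ i, lamI (vl F σ a i n) - ∏ i, lamP (vl F σ a i n))) ^ 2 ≤
        (∏ i, (A i : ℝ)) * (Dg S w x + √(Off S w x) * (x / Real.log x ^ U)) := by
  classical
  set D : ℕ := univ.sup (fun i => (F i).natDegree) with hD
  set c1 : ℕ := cst F B with hc1
  obtain ⟨n1, h1⟩ := ev_log' (2 * k + U + 2) (4 ^ k * (2 * √(c1 : ℝ) * (D + 2) ^ (2 * k + 2) * B))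
  obtain ⟨n2, h2⟩ := ev_L' (Real.log c1 + 1)
  refine ⟨max (max n1 n2) 3, fun x hx A hA ι S w => ?_⟩
  have b1 := le_trans (le_trans (le_max_left _ _) (le_max_left _ _)) hx
  have b2 := le_trans (le_trans (le_max_right _ _) (le_max_left _ _)) hx
  have hx3 : 3 ≤ x := le_trans (le_max_right _ _) hx
  have hxr : (3 : ℝ) ≤ x := by exact_mod_cast hx3
  have hx0 : (0 : ℝ) < x := by linarith
  have a1 := h1 x b1
  have hL := h2 x b2
  set L := Real.log x with hLd
  have hc1n : 1 ≤ c1 := by rw [hc1]; unfold cst; omega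
  have hc1r : (1 : ℝ) ≤ c1 := by exact_mod_cast hc1n
  have hlc1 : 0 ≤ Real.log c1 := Real.log_nonneg hc1r
  have hL1 : 1 ≤ L := by linarith
  have hL0 : 0 < L := by linarith
  have hDr : (0 : ℝ) ≤ D := Nat.cast_nonneg _
  have hBr : (1 : ℝ) ≤ B := by exact_mod_cast hB
  have hdD : ∀ i, (F i).natDegree ≤ D := fun i => le_sup (f := fun i => (F i).natDegree) (mem_univ i)
  have hA1 : ∀ i, 1 ≤ A i := by
    intro i
    rcases Nat.eq_zero_or_pos (A i) with h | h
    · have h3 := (hA i).2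
      rw [h, mul_zero] at h3
      have : 1 ≤ x ^ (F i).natDegree := Nat.one_le_pow _ _ (by omega)
      omega
    · exact h
  set M : ℝ := (D + 2) * L with hM
  have hM1 : 1 ≤ M := by rw [hM]; nlinarith
  have hlogX : ∀ i, Real.log ((c1 * x ^ (F i).natDegree : ℕ) : ℝ) ≤ M := by
    intro i
    push_cast
    rw [Real.log_mul (by linarith) (by positivity), Real.log_pow]
    have h3 : ((F i).natDegree : ℝ) * L ≤ D * L := mul_le_mul_of_nonneg_right (by exact_mod_cast hdD i) hL0.le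
    rw [hM]
    linarith
  have hXi1 : ∀ i, 1 ≤ c1 * x ^ (F i).natDegree := fun i => Nat.mul_pos (by omega) (Nat.one_le_pow _ _ (by omega))
  have hlamM : ∀ i, ∀ n ∈ Icc 1 x, ∀ v ∈ Icc 1 (A i), lamI ((v : ℤ) + σ i * (F i).eval (n : ℤ)) ≤ M := by
    intro i n hn v hv
    have h3 := vl_le' F σ hσ B x i (A i) (hA i).1 n v hn hv
    refine (lamI_le _ ((c1 * x ^ (F i).natDegree : ℕ) : ℝ) (by exact_mod_cast hXi1 i) ?_).trans (hlogX i)
    exact_mod_cast h3
  set t : ℝ := 1 / (4 ^ k * M ^ (2 * k) * L ^ U) with ht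
  have ht0 : 0 < t := by positivity
  -- sums of one coordinate
  have hsum : ∀ i, ∀ n ∈ Icc 1 x, M * ∑ v ∈ Icc 1 (A i), (lamI ((v : ℤ) + σ i * (F i).eval (n : ℤ)) - lamP ((v : ℤ) + σ i * (F i).eval (n : ℤ))) ≤ t * A i := by
    intro i n hn
    have h3 := pp_sum (A i) (c1 * x ^ (F i).natDegree) (σ i * (F i).eval (n : ℤ)) (hXi1 i) (fun v hv => vl_le' F σ hσ B x i (A i) (hA i).1 n v hn hv)
    have h3' := mul_le_mul_of_nonneg_left h3 (by linarith : 0 ≤ M)
    refine h3'.trans ?_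
    rw [ht, one_div, ← div_eq_inv_mul, le_div_iff₀ (by positivity)]
    set t : ℝ := √((x : ℝ) ^ (F i).natDegree) with ht
    have ht0 : 0 ≤ t := Real.sqrt_nonneg _
    have e1 : √(((c1 * x ^ (F i).natDegree : ℕ) : ℝ)) = √(c1 : ℝ) * t := by
      push_cast
      rw [Real.sqrt_mul (by linarith)]
    have e2 : t * t ≤ B * A i := by
      rw [ht, Real.mul_self_sqrt (by positivity)]
      exact_mod_cast (hA i).2
    have e3 : √(x : ℝ) ≤ t := by
      rw [ht]
      apply Real.sqrt_le_sqrt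
      calc (x : ℝ) = x ^ 1 := (pow_one _).symm
        _ ≤ (x : ℝ) ^ (F i).natDegree := pow_le_pow_right₀ (by linarith) (hd i)
    rw [e1]
    have e4 : M * (2 * (√(c1 : ℝ) * t) * Real.log ((c1 * x ^ (F i).natDegree : ℕ) : ℝ)) * (4 ^ k * M ^ (2 * k) * L ^ U) ≤
        M * (2 * (√(c1 : ℝ) * t) * M) * (4 ^ k * M ^ (2 * k) * L ^ U) := by
      apply mul_le_mul_of_nonneg_right _ (by positivity)
      apply mul_le_mul_of_nonneg_left _ (by linarith)
      exact mul_le_mul_of_nonneg_left (hlogX i) (by positivity)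
    refine e4.trans ?_
    have e5 : M * (2 * (√(c1 : ℝ) * t) * M) * (4 ^ k * M ^ (2 * k) * L ^ U) =
        t * ((4 ^ k * (2 * √(c1 : ℝ) * (D + 2) ^ (2 * k + 2) * B)) * L ^ (2 * k + U + 2)) / B := by
      rw [hM, mul_pow]
      field_simp
      ring
    rw [e5, div_le_iff₀ (by linarith)]
    calc t * ((4 ^ k * (2 * √(c1 : ℝ) * (D + 2) ^ (2 * k + 2) * B)) * L ^ (2 * k + U + 2)) ≤ t * t :=
          mul_le_mul_of_nonneg_left (a1.trans e3) ht0
      _ ≤ _ := by linarith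
  set Dl : ℝ := t * (Dg S w x + √(Off S w x) * x) with hDl
  have hDg := Dg_nonneg S w x
  have hOf := Real.sqrt_nonneg (Off S w x)
  have hDl0 : 0 ≤ Dl := by positivity
  have key := tele2 x A hA1 S w (fun i n v => lamI ((v : ℤ) + σ i * (F i).eval (n : ℤ))) (fun i n v => lamP ((v : ℤ) + σ i * (F i).eval (n : ℤ)))
    M Dl hM1 hDl0 (by
      intro i n hn v hv
      rw [abs_of_nonneg (lamI_nonneg _)]
      exact hlamM i n hn v hv) (by
      intro i n hn v hv
      rw [abs_of_nonneg (lamP_nonneg _)]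
      exact (lamP_le _).trans (hlamM i n hn v hv)) (by
      intro i K hK G hG
      have hA0 : (0 : ℝ) < A i := by exact_mod_cast hA1 i
      set u : ℕ → ℕ → ℝ := fun n v => lamI ((v : ℤ) + σ i * (F i).eval (n : ℤ)) - lamP ((v : ℤ) + σ i * (F i).eval (n : ℤ)) with hud
      have hu0 : ∀ n v, 0 ≤ u n v := by
        intro n v
        rw [hud]
        simp only
        linarith [lamP_le ((v : ℤ) + σ i * (F i).eval (n : ℤ))]
      have huM : ∀ n ∈ Icc 1 x, ∀ v ∈ Icc 1 (A i), u n v ≤ M := by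
        intro n hn v hv
        rw [hud]
        simp only
        have h4 := hlamM i n hn v hv
        have h5 := lamP_nonneg ((v : ℤ) + σ i * (F i).eval (n : ℤ))
        linarith
      have hC : ∀ n ∈ Icc 1 x, ∀ m ∈ Icc 1 x, |Corr (A i) u n m| ≤ t * A i := by
        intro n hn m hm
        unfold Corr
        rw [abs_of_nonneg (sum_nonneg fun v _ => mul_nonneg (hu0 n v) (hu0 m v))]
        refine le_trans ?_ (hsum i m hm)
        rw [mul_sum]
        apply sum_le_sum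
        intro v hv
        exact mul_le_mul_of_nonneg_right (huM n hn v hv) (hu0 m v)
      have hk := kern S w x (A i) G u K (t * A i) (x * (t * A i)) hK.le (by positivity) (by positivity) hG hC
        (by
          intro n hn
          calc ∑ m ∈ Icc 1 x, |Corr (A i) u n m| ≤ ∑ _m ∈ Icc 1 x, t * A i := sum_le_sum fun m hm => hC n hn m hm
            _ = _ := by rw [sum_const, nsmul_eq_mul, Nat.card_Icc, Nat.add_sub_cancel])
      refine hk.trans ?_
      apply mul_le_mul_of_nonneg_left _ (by positivity)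
      have h8 : √(t * A i * (x * (x * (t * A i)))) = t * A i * x := by
        have : t * A i * (x * (x * (t * A i))) = (t * A i * x) ^ 2 := by ring
        rw [this, Real.sqrt_sq (by positivity)]
      rw [h8, hDl]
      apply le_of_eq
      ring)
    univ 1 one_pos (fun n _ => 1) (by
      intro n hn m _
      rw [abs_one]) (by
      intro n m v i _; rfl)
  simp only [one_mul] at key
  refine key.trans ?_
  rw [card_univ, Fintype.card_fin]
  have hprod : 0 ≤ ∏ i, (A i : ℝ) := prod_nonneg fun _ _ => Nat.cast_nonneg _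
  rw [mul_comm (∏ i, (A i : ℝ))]
  apply mul_le_mul_of_nonneg_right _ hprod
  have e3 : (4 : ℝ) ^ k * (M ^ k) ^ 2 * Dl = (Dg S w x + √(Off S w x) * x) / L ^ U := by
    rw [hDl, ht, ← pow_mul, mul_comm k 2]
    field_simp
  rw [e3]
  have hLU : 1 ≤ L ^ U := one_le_pow₀ hL1
  rw [add_div]
  apply add_le_add
  · exact div_le_self hDg hLU
  · exact le_of_eq (by ring)

/-- the two steps together -/
theorem bd_all {k : ℕ} (F : Fin k → ℤ[X]) (hd : ∀ i, 1 ≤ (F i).natDegree) (hl : ∀ i, 0 < (F i).leadingCoeff)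
    (σ : Fin k → ℤ) (hσ : ∀ i, σ i = 1 ∨ σ i = -1) (B : ℕ) (hB : 1 ≤ B) (U : ℕ) :
    ∃ B0 : ℕ, ∀ E : ℕ, ∃ N0 : ℕ, ∀ x : ℕ, N0 ≤ x → ∀ A : Fin k → ℕ,
      (∀ i, A i ≤ B * x ^ (F i).natDegree ∧ x ^ (F i).natDegree ≤ B * A i) →
      ∀ z : ℕ, Real.log x ^ B0 ≤ z → (z : ℝ) ≤ Real.log x ^ E →
      ∀ (ι : Type) (S : Finset ι) (w : ι → ℕ → ℝ),
      ∑ a ∈ Fintype.piFinset (fun i => Icc 1 (A i)), ∑ s ∈ S, (∑ n ∈ Icc 1 x, w s n *
        (∏ i, lamP (vl F σ a i n) - ∏ i, lamzI z (vl F σ a i n))) ^ 2 ≤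
        (∏ i, (A i : ℝ)) * (Real.log x ^ (2 * k + 4) * Dg S w x + √(Off S w x) * (x / Real.log x ^ U)) := by
  obtain ⟨B0, h0⟩ := bd_I F hd hl σ hσ B hB (U + 1)
  obtain ⟨n2, h2⟩ := bd_P F hd σ hσ B hB (U + 1)
  obtain ⟨n3, h3⟩ := ev_L' 4
  refine ⟨B0, fun E => ?_⟩
  obtain ⟨n1, h1⟩ := h0 E
  refine ⟨max (max n1 n2) n3, fun x hx A hA z hz1 hz2 ι S w => ?_⟩
  have b1 := le_trans (le_trans (le_max_left _ _) (le_max_left _ _)) hx
  have b2 := le_trans (le_trans (le_max_right _ _) (le_max_left _ _)) hx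
  have hL := h3 x (le_trans (le_max_right _ _) hx)
  set L := Real.log x with hLd
  have hL1 : 1 ≤ L := by linarith
  have hL0 : 0 < L := by linarith
  have k1 := h1 x b1 A hA z hz1 hz2 ι S w
  have k2 := h2 x b2 A hA ι S w
  have hpt : ∀ a ∈ Fintype.piFinset (fun i => Icc 1 (A i)), ∀ s ∈ S, (∑ n ∈ Icc 1 x, w s n *
        (∏ i, lamP (vl F σ a i n) - ∏ i, lamzI z (vl F σ a i n))) ^ 2 ≤
      2 * (∑ n ∈ Icc 1 x, w s n * (∏ i, lamI (vl F σ a i n) - ∏ i, lamzI z (vl F σ a i n))) ^ 2 +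
      2 * (∑ n ∈ Icc 1 x, w s n * (∏ i, lamI (vl F σ a i n) - ∏ i, lamP (vl F σ a i n))) ^ 2 := by
    intro a _ s _
    have e : ∑ n ∈ Icc 1 x, w s n * (∏ i, lamP (vl F σ a i n) - ∏ i, lamzI z (vl F σ a i n)) =
        ∑ n ∈ Icc 1 x, w s n * (∏ i, lamI (vl F σ a i n) - ∏ i, lamzI z (vl F σ a i n)) -
        ∑ n ∈ Icc 1 x, w s n * (∏ i, lamI (vl F σ a i n) - ∏ i, lamP (vl F σ a i n)) := by
      rw [← sum_sub_distrib]
      apply sum_congr rfl
      intro n _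
      ring
    rw [e]
    nlinarith [sq_nonneg (∑ n ∈ Icc 1 x, w s n * (∏ i, lamI (vl F σ a i n) - ∏ i, lamzI z (vl F σ a i n)) +
      ∑ n ∈ Icc 1 x, w s n * (∏ i, lamI (vl F σ a i n) - ∏ i, lamP (vl F σ a i n)))]
  refine (sum_le_sum fun a ha => sum_le_sum fun s hs => hpt a ha s hs).trans ?_
  simp only [sum_add_distrib, ← mul_sum]
  have hprod : 0 ≤ ∏ i, (A i : ℝ) := prod_nonneg fun _ _ => Nat.cast_nonneg _
  refine (add_le_add (mul_le_mul_of_nonneg_left k1 (by norm_num)) (mul_le_mul_of_nonneg_left k2 (by norm_num))).trans ?_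
  have e2 : 2 * ((∏ i, (A i : ℝ)) * (L ^ (2 * k + 3) * Dg S w x + √(Off S w x) * (x / L ^ (U + 1)))) +
      2 * ((∏ i, (A i : ℝ)) * (Dg S w x + √(Off S w x) * (x / L ^ (U + 1)))) =
      (∏ i, (A i : ℝ)) * ((2 * L ^ (2 * k + 3) + 2) * Dg S w x + √(Off S w x) * (4 * (x / L ^ (U + 1)))) := by ring
  rw [e2]
  apply mul_le_mul_of_nonneg_left _ hprod
  have hDg := Dg_nonneg S w x
  apply add_le_add
  · apply mul_le_mul_of_nonneg_right _ hDg
    have e3 : 1 ≤ L ^ (2 * k + 3) := one_le_pow₀ hL1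
    have e4 : L ^ (2 * k + 4) = L * L ^ (2 * k + 3) := by ring
    rw [e4]
    nlinarith
  · apply mul_le_mul_of_nonneg_left _ (Real.sqrt_nonneg _)
    have e4 : 4 * (x / L ^ (U + 1)) = (4 / L) * (x / L ^ U) := by
      rw [pow_succ]
      field_simp
    rw [e4]
    apply mul_le_of_le_one_left (by positivity)
    rw [div_le_one hL0]
    exact hL

end Pool.Agent.Y871.BD
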