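import Mathlib
import Pool.Agent.Y871.BD.SysP

/-! The family of all arithmetic progressions. -/

namespace Pool.Agent.Y871.BD
open Finset Polynomial
open Pool.Agent.H373R2.T7

/-- pairs (modulus, class) -/
def SQ (Q : ℕ) : Finset (ℕ × ℕ) := Icc 1 Q ×ˢ range Q

/-- the indicator function of the progression -/
noncomputable def wA (s : ℕ × ℕ) (n : ℕ) : ℝ := if n % s.1 = s.2 then 1 else 0

lemma ker_AP (Q n m : ℕ) : Ker (SQ Q) wA n m = (((Icc 1 Q).filter (fun q => n % q = m % q)).card : ℝ) := by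
  unfold Ker SQ
  rw [sum_product, card_filter]
  push_cast
  apply sum_congr rfl
  intro q hq
  rw [mem_Icc] at hq
  have h1 : n % q ∈ range Q := by
    rw [mem_range]
    exact (Nat.mod_lt _ hq.1).trans_le hq.2
  rw [← sum_erase_add _ _ h1]
  have h2 : ∑ a ∈ (range Q).erase (n % q), wA (q, a) n * wA (q, a) m = 0 := by
    apply sum_eq_zero
    intro a ha
    rw [mem_erase] at ha
    unfold wA
    simp only
    rw [if_neg (fun h => ha.1 h.symm), zero_mul]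
  rw [h2, zero_add]
  unfold wA
  simp only
  by_cases h : n % q = m % q
  · rw [if_pos h.symm, if_pos h]
    simp
  · rw [if_neg (fun h' => h h'.symm : ¬ m % q = n % q), if_neg h, mul_zero]

lemma dg_AP (Q x : ℕ) : Dg (SQ Q) wA x = Q * x := by
  unfold Dg
  have h1 : ∀ n ∈ Icc 1 x, Ker (SQ Q) wA n n = Q := by
    intro n _
    rw [ker_AP]
    simp
  rw [sum_congr rfl h1, sum_const, nsmul_eq_mul, Nat.card_Icc, Nat.add_sub_cancel]
  ring

lemma ker_le (Q n m : ℕ) (h : n < m) : Ker (SQ Q) wA n m ≤ ((m - n).divisors.card : ℝ) := by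
  rw [ker_AP]
  have : ((Icc 1 Q).filter (fun q => n % q = m % q)).card ≤ (m - n).divisors.card := by
    apply card_le_card
    intro q hq
    rw [mem_filter] at hq
    rw [Nat.mem_divisors]
    exact ⟨(Nat.modEq_iff_dvd' h.le).1 hq.2, by omega⟩
  exact_mod_cast this

lemma ker_symm (Q n m : ℕ) : Ker (SQ Q) wA n m = Ker (SQ Q) wA m n := by
  unfold Ker
  exact sum_congr rfl fun _ _ => mul_comm _ _

lemma tau_sq (x : ℕ) : ∑ h ∈ Icc 1 x, (h.divisors.card : ℝ) ^ 2 ≤ x * (1 + Real.log x) ^ 4 := by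
  have h1 := Pool.Agent.H316R2.tau_sq_sum_le x
  calc ∑ h ∈ Icc 1 x, (h.divisors.card : ℝ) ^ 2 ≤ ∑ h ∈ Icc 1 x, x * ((h.divisors.card : ℝ) ^ 2 / h) := by
        apply sum_le_sum
        intro h hh
        rw [mem_Icc] at hh
        have h0 : (0 : ℝ) < h := by exact_mod_cast hh.1
        have h2 : (h : ℝ) ≤ x := by exact_mod_cast hh.2
        rw [mul_div_assoc', le_div_iff₀ h0]
        nlinarith [sq_nonneg (h.divisors.card : ℝ)]
    _ = x * ∑ h ∈ Icc 1 x, ((h.divisors.card : ℝ) ^ 2 / h) := by rw [mul_sum]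
    _ ≤ _ := mul_le_mul_of_nonneg_left h1 (Nat.cast_nonneg _)

lemma off_AP (Q x : ℕ) : Off (SQ Q) wA x ≤ 2 * (x * (x * (1 + Real.log x) ^ 4)) := by
  unfold Off
  have h1 : ∀ n ∈ Icc 1 x, ∀ m ∈ Icc 1 x, (if n = m then 0 else Ker (SQ Q) wA n m ^ 2) ≤
      (if n < m then ((m - n).divisors.card : ℝ) ^ 2 else 0) + (if m < n then ((n - m).divisors.card : ℝ) ^ 2 else 0) := by
    intro n _ m _
    have h0 : 0 ≤ Ker (SQ Q) wA n m := by rw [ker_AP]; positivity
    rcases lt_trichotomy n m with h | h | h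
    · rw [if_neg (by omega), if_pos h, if_neg (by omega), add_zero]
      exact pow_le_pow_left₀ h0 (ker_le Q n m h) 2
    · rw [if_pos h, if_neg (by omega), if_neg (by omega), add_zero]
    · rw [if_neg (by omega), if_neg (by omega), if_pos h, zero_add]
      rw [ker_symm] at h0 ⊢
      exact pow_le_pow_left₀ h0 (ker_le Q m n h) 2
  refine (sum_le_sum fun n hn => sum_le_sum fun m hm => h1 n hn m hm).trans ?_
  simp only [sum_add_distrib]
  have h2 : ∀ n ∈ Icc 1 x, ∑ m ∈ Icc 1 x, (if n < m then ((m - n).divisors.card : ℝ) ^ 2 else 0) ≤ x * (1 + Real.log x) ^ 4 := by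
    intro n _
    refine le_trans ?_ (tau_sq x)
    rw [← sum_filter]
    calc ∑ m ∈ (Icc 1 x).filter (fun m => n < m), ((m - n).divisors.card : ℝ) ^ 2
        = ∑ h ∈ ((Icc 1 x).filter (fun m => n < m)).image (fun m => m - n), (h.divisors.card : ℝ) ^ 2 := by
          rw [sum_image]
          intro a ha b hb hab
          rw [mem_coe, mem_filter] at ha hb
          simp only at hab
          omega
      _ ≤ _ := by
          apply sum_le_sum_of_subset_of_nonneg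
          · intro h hh
            rw [mem_image] at hh
            obtain ⟨m, hm, rfl⟩ := hh
            rw [mem_filter, mem_Icc] at hm
            rw [mem_Icc]
            omega
          · intro _ _ _; positivity
  have h3 : ∑ n ∈ Icc 1 x, ∑ m ∈ Icc 1 x, (if m < n then ((n - m).divisors.card : ℝ) ^ 2 else 0) =
      ∑ n ∈ Icc 1 x, ∑ m ∈ Icc 1 x, (if n < m then ((m - n).divisors.card : ℝ) ^ 2 else 0) := sum_comm
  rw [h3, ← two_mul]
  apply mul_le_mul_of_nonneg_left _ (by norm_num)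
  refine (sum_le_sum h2).trans (le_of_eq ?_)
  rw [sum_const, nsmul_eq_mul, Nat.card_Icc, Nat.add_sub_cancel]

lemma sqrt_off (Q x : ℕ) (L : ℝ) (hL : 8 ≤ L) (hx : Real.log x ≤ L) (hx0 : 0 ≤ Real.log x) : √(Off (SQ Q) wA x) ≤ x * L ^ 3 := by
  rw [Real.sqrt_le_left (by positivity)]
  refine (off_AP Q x).trans ?_
  have h1 : (1 + Real.log x) ^ 4 ≤ (2 * L) ^ 4 := pow_le_pow_left₀ (by linarith) (by linarith) 4
  have h2 : 2 * (2 * L) ^ 4 ≤ (L ^ 3) ^ 2 := by
    have : (L ^ 3) ^ 2 = L ^ 4 * L ^ 2 := by ring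
    rw [this]
    have h3 : 64 ≤ L ^ 2 := by nlinarith
    have h4 : 0 ≤ L ^ 4 := by positivity
    nlinarith
  calc 2 * ((x : ℝ) * (x * (1 + Real.log x) ^ 4)) = (x : ℝ) ^ 2 * (2 * (1 + Real.log x) ^ 4) := by ring
    _ ≤ (x : ℝ) ^ 2 * (2 * (2 * L) ^ 4) := by gcongr
    _ ≤ (x : ℝ) ^ 2 * (L ^ 3) ^ 2 := mul_le_mul_of_nonneg_left h2 (by positivity)
    _ = _ := by ring

/-- **the mean square over all progressions to moduli at most `x / log ^ C x`** -/
theorem bdh_rough {k : ℕ} (F : Fin k → ℤ[X]) (hd : ∀ i, 1 ≤ (F i).natDegree) (hl : ∀ i, 0 < (F i).leadingCoeff)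
    (σ : Fin k → ℤ) (hσ : ∀ i, σ i = 1 ∨ σ i = -1) (B : ℕ) (hB : 1 ≤ B) (U : ℕ) :
    ∃ B0 : ℕ, ∀ E : ℕ, ∃ N0 : ℕ, ∀ x : ℕ, N0 ≤ x → ∀ A : Fin k → ℕ,
      (∀ i, A i ≤ B * x ^ (F i).natDegree ∧ x ^ (F i).natDegree ≤ B * A i) →
      ∀ z : ℕ, Real.log x ^ B0 ≤ z → (z : ℝ) ≤ Real.log x ^ E → ∀ Q : ℕ, (Q : ℝ) ≤ x / Real.log x ^ (2 * k + 5 + U) →
      ∑ a ∈ Fintype.piFinset (fun i => Icc 1 (A i)), ∑ q ∈ Icc 1 Q, ∑ r ∈ range q,
        (∑ n ∈ (Icc 1 x).filter (fun n => n % q = r), (∏ i, lamP (vl F σ a i n) - ∏ i, lamzI z (vl F σ a i n))) ^ 2 ≤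
        (∏ i, (A i : ℝ)) * ((x : ℝ) ^ 2 / Real.log x ^ U) := by
  obtain ⟨B0, h0⟩ := bd_all F hd hl σ hσ B hB (U + 4)
  obtain ⟨n3, h3⟩ := ev_L' 8
  refine ⟨B0, fun E => ?_⟩
  obtain ⟨n1, h1⟩ := h0 E
  refine ⟨max (max n1 n3) 3, fun x hx A hA z hz1 hz2 Q hQ => ?_⟩
  have b1 := le_trans (le_trans (le_max_left _ _) (le_max_left _ _)) hx
  have b3 := le_trans (le_trans (le_max_right _ _) (le_max_left _ _)) hx
  have hx3 : 3 ≤ x := le_trans (le_max_right _ _) hx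
  have hxr : (3 : ℝ) ≤ x := by exact_mod_cast hx3
  have hL := h3 x b3
  set L := Real.log x with hLd
  have hL0 : 0 < L := by linarith
  have key := h1 x b1 A hA z hz1 hz2 (ℕ × ℕ) (SQ Q) wA
  have hprod : 0 ≤ ∏ i, (A i : ℝ) := prod_nonneg fun _ _ => Nat.cast_nonneg _
  have e1 : ∀ a : Fin k → ℕ, ∑ q ∈ Icc 1 Q, ∑ r ∈ range q,
        (∑ n ∈ (Icc 1 x).filter (fun n => n % q = r), (∏ i, lamP (vl F σ a i n) - ∏ i, lamzI z (vl F σ a i n))) ^ 2 ≤
      ∑ s ∈ SQ Q, (∑ n ∈ Icc 1 x, wA s n * (∏ i, lamP (vl F σ a i n) - ∏ i, lamzI z (vl F σ a i n))) ^ 2 := by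
    intro a
    unfold SQ
    rw [sum_product]
    apply sum_le_sum
    intro q hq
    rw [mem_Icc] at hq
    have e2 : ∀ r ∈ range q, (∑ n ∈ (Icc 1 x).filter (fun n => n % q = r), (∏ i, lamP (vl F σ a i n) - ∏ i, lamzI z (vl F σ a i n))) ^ 2 =
        (∑ n ∈ Icc 1 x, wA (q, r) n * (∏ i, lamP (vl F σ a i n) - ∏ i, lamzI z (vl F σ a i n))) ^ 2 := by
      intro r _
      congr 1
      rw [sum_filter]
      apply sum_congr rfl
      intro n _
      unfold wA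
      simp only
      split_ifs
      · rw [one_mul]
      · rw [zero_mul]
    rw [sum_congr rfl e2]
    apply sum_le_sum_of_subset_of_nonneg
    · intro r hr
      rw [mem_range] at hr ⊢
      omega
    · intro _ _ _; positivity
  refine (sum_le_sum fun a _ => e1 a).trans (key.trans ?_)
  apply mul_le_mul_of_nonneg_left _ hprod
  rw [dg_AP]
  have h4 := sqrt_off Q x L hL le_rfl hL0.le
  have h5 : L ^ (2 * k + 4) * (Q * x) ≤ (1 / L) * (x ^ 2 / L ^ U) := by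
    have h6 : L ^ (2 * k + 4) * (Q * x) ≤ L ^ (2 * k + 4) * (x / L ^ (2 * k + 5 + U) * x) := by gcongr
    refine h6.trans (le_of_eq ?_)
    rw [show 2 * k + 5 + U = (2 * k + 4) + 1 + U by ring, pow_add L (2 * k + 4 + 1) U, pow_succ L (2 * k + 4)]
    field_simp
  have h7 : √(Off (SQ Q) wA x) * (x / L ^ (U + 4)) ≤ (1 / L) * (x ^ 2 / L ^ U) := by
    refine (mul_le_mul_of_nonneg_right h4 (by positivity)).trans (le_of_eq ?_)
    rw [show U + 4 = 3 + 1 + U by ring, pow_add, pow_add]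
    field_simp
  have h8 : (1 / L) * ((x : ℝ) ^ 2 / L ^ U) + (1 / L) * (x ^ 2 / L ^ U) ≤ x ^ 2 / L ^ U := by
    have h9 : 0 ≤ (x : ℝ) ^ 2 / L ^ U := by positivity
    have h10 : 1 / L ≤ 1 / 2 := by
      apply one_div_le_one_div_of_le <;> linarith
    nlinarith
  linarith

end Pool.Agent.Y871.BD
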