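import Mathlib
import Pool.Agent.Y871.BD.AP

/-! The model in arithmetic progressions. -/

namespace Pool.Agent.Y871.BD
open Finset Polynomial
open Pool.Agent.H373R2.T7

/-- the condition in the progression -/
def Rq (R : ℕ → ℕ → Prop) (q r p t : ℕ) : Prop := ¬ p ∣ q ∧ R p (r + q * t)

lemma Rq_per (R : ℕ → ℕ → Prop) (c : ℕ) (hR : PerB R c) (q r p t : ℕ) : Rq R q r p t ↔ Rq R q r p (t % p) := by
  unfold Rq
  apply and_congr_right
  intro _
  rw [hR.per p (r + q * t), hR.per p (r + q * (t % p))]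
  have : (r + q * t) % p = (r + q * (t % p)) % p := by
    rw [Nat.add_mod, Nat.mul_mod, Nat.add_mod r, Nat.mul_mod q (t % p), Nat.mod_mod]
  rw [this]

lemma Rq_nuB_dvd (R : ℕ → ℕ → Prop) (q r p : ℕ) (h : p ∣ q) : nuB (Rq R q r) p = 0 := by
  classical
  unfold nuB
  rw [card_eq_zero, filter_eq_empty_iff]
  intro t _ ht
  exact ht.1 h

lemma Rq_nuB (R : ℕ → ℕ → Prop) (c : ℕ) (hR : PerB R c) (q r p : ℕ) (hp : p.Prime) (h : ¬ p ∣ q) :
    nuB (Rq R q r) p = nuB R p := by
  classical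
  unfold nuB
  have hcop : Nat.Coprime q p := (Nat.coprime_comm.1 ((Nat.Prime.coprime_iff_not_dvd hp).2 h))
  apply card_bij (fun t _ => (r + q * t) % p)
  · intro t ht
    rw [mem_filter] at ht ⊢
    refine ⟨mem_range.2 (Nat.mod_lt _ hp.pos), ?_⟩
    exact (hR.per p _).1 ht.2.2
  · intro t ht t' ht' heq
    rw [mem_filter, mem_range] at ht ht'
    have h1 : r + q * t ≡ r + q * t' [MOD p] := heq
    have h2 : q * t ≡ q * t' [MOD p] := Nat.ModEq.add_left_cancel' r h1
    have h3 : t ≡ t' [MOD p] := Nat.ModEq.cancel_left_of_coprime (by rw [Nat.gcd_comm]; exact hcop) h2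
    have h4 : t % p = t' % p := h3
    rwa [Nat.mod_eq_of_lt ht.1, Nat.mod_eq_of_lt ht'.1] at h4
  · intro m hm
    rw [mem_filter, mem_range] at hm
    obtain ⟨t, ht⟩ : ∃ t : ℕ, r + q * t ≡ m [MOD p] := by
      have hu : IsUnit ((q : ZMod p)) := (ZMod.isUnit_iff_coprime q p).2 hcop
      haveI : NeZero p := ⟨hp.ne_zero⟩
      obtain ⟨u, hu⟩ := hu
      refine ⟨((u⁻¹ : (ZMod p)ˣ) * ((m : ZMod p) - r) : ZMod p).val, ?_⟩
      rw [← ZMod.natCast_eq_natCast_iff]
      push_cast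
      rw [ZMod.natCast_zmod_val, ← hu, ← mul_assoc, Units.mul_inv, one_mul]
      ring
    refine ⟨t % p, ?_, ?_⟩
    · rw [mem_filter, mem_range]
      refine ⟨Nat.mod_lt _ hp.pos, h, ?_⟩
      have e1 : (r + q * (t % p)) % p = m % p := by
        have : (r + q * (t % p)) % p = (r + q * t) % p := by
          rw [Nat.add_mod, Nat.mul_mod, Nat.mod_mod, Nat.add_mod r (q * t), Nat.mul_mod q t]
        rw [this]
        exact ht
      rw [hR.per p, e1, ← hR.per p]
      exact hm.2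
    · have : (r + q * (t % p)) % p = (r + q * t) % p := by
        rw [Nat.add_mod, Nat.mul_mod, Nat.mod_mod, Nat.add_mod r (q * t), Nat.mul_mod q t]
      rw [this]
      have h5 : (r + q * t) % p = m % p := ht
      rw [h5, Nat.mod_eq_of_lt hm.1]

lemma Rq_perB (R : ℕ → ℕ → Prop) (c : ℕ) (hR : PerB R c) (q r : ℕ) : PerB (Rq R q r) c := by
  refine ⟨fun p n => Rq_per R c hR q r p n, fun p hp => ?_⟩
  by_cases h : p ∣ q
  · rw [Rq_nuB_dvd R q r p h]; omega
  · rw [Rq_nuB R c hR q r p hp h]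
    exact hR.few p hp

open Classical in
/-- the density in the progression -/
noncomputable def dns (R : ℕ → ℕ → Prop) (z q r : ℕ) : ℝ :=
  if ∀ p ∈ pz z, p ∣ q → ¬ R p r then ∏ p ∈ (pz z).filter (fun p => ¬ p ∣ q), (1 - (nuB R p : ℝ) / p) else 0

lemma dns_nonneg (R : ℕ → ℕ → Prop) (z q r : ℕ) : 0 ≤ dns R z q r := by
  classical
  unfold dns
  split_ifs
  · apply prod_nonneg
    intro p hp
    have hp0 : (0 : ℝ) < p := by exact_mod_cast (mem_pz.1 (mem_filter.1 hp).1).2.pos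
    have h1 : (nuB R p : ℝ) / p ≤ 1 := by rw [div_le_one hp0]; exact_mod_cast nuB_le R p
    linarith
  · exact le_rfl

lemma dns_le (R : ℕ → ℕ → Prop) (z q r : ℕ) : dns R z q r ≤ 1 := by
  classical
  unfold dns
  split_ifs
  · apply prod_le_one
    · intro p hp
      have hp0 : (0 : ℝ) < p := by exact_mod_cast (mem_pz.1 (mem_filter.1 hp).1).2.pos
      have h1 : (nuB R p : ℝ) / p ≤ 1 := by rw [div_le_one hp0]; exact_mod_cast nuB_le R p
      linarith
    · intro p hp
      have h2 : 0 ≤ (nuB R p : ℝ) / p := by positivity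
      linarith
  · exact zero_le_one


lemma dns_prod (R : ℕ → ℕ → Prop) (c : ℕ) (hR : PerB R c) (z q r : ℕ) :
    ∏ p ∈ pz z, (1 - (nuB (Rq R q r) p : ℝ) / p) =
      ∏ p ∈ (pz z).filter (fun p => ¬ p ∣ q), (1 - (nuB R p : ℝ) / p) := by
  rw [prod_filter]
  apply prod_congr rfl
  intro p hp
  by_cases h : p ∣ q
  · rw [if_neg (not_not.2 h), Rq_nuB_dvd R q r p h]; simp
  · rw [if_pos h, Rq_nuB R c hR q r p (mem_pz.1 hp).2 h]

open Classical in
/-- the count in the progression against the count of the quotients -/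
lemma ap_bij (R : ℕ → ℕ → Prop) (c : ℕ) (hR : PerB R c) (z q r x : ℕ) (hq : 1 ≤ q) (hr : r < q) (hrx : r ≤ x)
    (hgood : ∀ p ∈ pz z, p ∣ q → ¬ R p r) :
    ((Icc 1 ((x - r) / q)).filter (fun t : ℕ => ∀ p ∈ pz z, ¬ Rq R q r p t)).card ≤
      ((Icc 1 x).filter (fun n : ℕ => n % q = r ∧ ∀ p ∈ pz z, ¬ R p n)).card ∧
    ((Icc 1 x).filter (fun n : ℕ => n % q = r ∧ ∀ p ∈ pz z, ¬ R p n)).card ≤
      ((Icc 1 ((x - r) / q)).filter (fun t : ℕ => ∀ p ∈ pz z, ¬ Rq R q r p t)).card + 1 := by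
  set T : ℕ := (x - r) / q with hT
  have hTq : q * T ≤ x - r := Nat.mul_div_le _ _
  have hmod : ∀ t : ℕ, (r + q * t) % q = r := by
    intro t
    rw [Nat.add_mul_mod_self_left, Nat.mod_eq_of_lt hr]
  have hRr : ∀ p : ℕ, p ∣ q → ∀ t : ℕ, (R p (r + q * t) ↔ R p r) := by
    intro p hpq t
    rw [hR.per p (r + q * t), hR.per p r]
    have : (r + q * t) % p = r % p := by
      obtain ⟨m, rfl⟩ := hpq
      rw [mul_assoc, Nat.add_mul_mod_self_left]
    rw [this]
  have hiff : ∀ t : ℕ, (∀ p ∈ pz z, ¬ Rq R q r p t) ↔ (∀ p ∈ pz z, ¬ R p (r + q * t)) := by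
    intro t
    constructor
    · intro h p hp hcon
      by_cases hpq : p ∣ q
      · exact hgood p hp hpq ((hRr p hpq t).1 hcon)
      · exact h p hp ⟨hpq, hcon⟩
    · intro h p hp hcon
      exact h p hp hcon.2
  constructor
  · apply card_le_card_of_injOn (fun t => r + q * t)
    · intro t ht
      have ht' := mem_filter.1 (mem_coe.1 ht)
      rw [mem_coe, mem_filter, mem_Icc]
      have h1 := mem_Icc.1 ht'.1
      have h2 : q * t ≤ q * T := Nat.mul_le_mul_left _ h1.2
      have h3 : 1 ≤ q * t := Nat.mul_pos hq h1.1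
      have h4 : 1 ≤ r + q * t := by omega
      have h5 : r + q * t ≤ x := by omega
      exact ⟨⟨h4, h5⟩, hmod t, (hiff t).1 ht'.2⟩
    · intro t _ t' _ h
      have h' : r + q * t = r + q * t' := h
      have h2 : q * t = q * t' := by omega
      exact Nat.eq_of_mul_eq_mul_left hq h2
  · have hsub : ((Icc 1 x).filter (fun n : ℕ => n % q = r ∧ ∀ p ∈ pz z, ¬ R p n)) ⊆
        insert r ((((Icc 1 T).filter (fun t : ℕ => ∀ p ∈ pz z, ¬ Rq R q r p t))).image (fun t => r + q * t)) := by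
      intro n hn
      rw [mem_filter, mem_Icc] at hn
      obtain ⟨⟨h1, h2⟩, h3, h4⟩ := hn
      rw [mem_insert, mem_image]
      have hdm : r + q * (n / q) = n := by
        have := Nat.mod_add_div n q
        rw [h3] at this
        exact this
      by_cases h5 : n / q = 0
      · left
        rw [h5] at hdm
        omega
      · right
        refine ⟨n / q, ?_, hdm⟩
        rw [mem_filter, mem_Icc]
        refine ⟨⟨Nat.pos_of_ne_zero h5, ?_⟩, ?_⟩
        · rw [hT, Nat.le_div_iff_mul_le hq]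
          rw [mul_comm] 
          omega
        · rw [hiff, hdm]
          exact h4
    calc _ ≤ _ := card_le_card hsub
      _ ≤ _ := card_insert_le _ _
      _ ≤ _ := Nat.add_le_add_right card_image_le _

open Classical in
set_option maxHeartbeats 1000000 in
/-- the number of sifted integers in a progression -/
theorem ap_count (c E U : ℕ) (hc : 1 ≤ c) (ε : ℝ) (hε : 0 < ε) (hε1 : ε ≤ 1) :
    ∃ N0 : ℕ, ∀ x : ℕ, N0 ≤ x → ∀ z : ℕ, 1 ≤ z → (z : ℝ) ≤ Real.log x ^ E →
    ∀ R : ℕ → ℕ → Prop, PerB R c → ∀ q r : ℕ, 1 ≤ q → (q : ℝ) ≤ (x : ℝ) ^ (1 - ε) → r < q →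
      |((((Icc 1 x).filter (fun n : ℕ => n % q = r ∧ ∀ p ∈ pz z, ¬ R p n)).card : ℕ) : ℝ) - x / q * dns R z q r| ≤
        (x / q) / Real.log x ^ U := by
  obtain ⟨N0, h0⟩ := sys_count c (E + 1) (U + 1) hc
  -- powers of x
  have hpow : Filter.Tendsto (fun x : ℕ => (x : ℝ) ^ ε) Filter.atTop Filter.atTop :=
    (tendsto_rpow_atTop hε).comp tendsto_natCast_atTop_atTop
  have hlog : Filter.Tendsto (fun x : ℕ => Real.log (x : ℝ)) Filter.atTop Filter.atTop :=
    Real.tendsto_log_atTop.comp tendsto_natCast_atTop_atTop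
  have hev := ((hpow.eventually_ge_atTop (2 * N0 + 8)).and (hlog.eventually_ge_atTop
    (2 + 2 * Real.log 2 / ε + (2 / ε) ^ (E + 1) + 2 * (2 / ε) ^ (U + 1)))).and
    ((isLittleO_log_rpow_rpow_atTop (U : ℝ) hε).bound (show (0 : ℝ) < 1 / 8 by norm_num) |>
      (tendsto_natCast_atTop_atTop (R := ℝ)).eventually)
  obtain ⟨N1, h1⟩ := Filter.eventually_atTop.1 hev
  refine ⟨max N1 3, fun x hx z hz hzE R hR q r hq hqx hr => ?_⟩
  obtain ⟨⟨a1, a2⟩, a3⟩ := h1 x ((le_max_left _ _).trans hx)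
  have hx3 : 3 ≤ x := (le_max_right _ _).trans hx
  have hxr : (3 : ℝ) ≤ x := by exact_mod_cast hx3
  have hx0 : (0 : ℝ) < x := by linarith
  set L := Real.log x with hLd
  have hl2 : 0 < Real.log 2 := Real.log_pos (by norm_num)
  have q1 : 0 < 2 * Real.log 2 / ε := by positivity
  have q2 : 0 < (2 / ε) ^ (E + 1) := by positivity
  have q3 : 0 < 2 * (2 / ε) ^ (U + 1) := by positivity
  have hL2 : 2 ≤ L := by linarith
  have hL0 : 0 < L := by linarith
  have hq0 : (0 : ℝ) < q := by exact_mod_cast hq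
  have hLU : 0 < L ^ U := by positivity
  have a3' : L ^ U ≤ 1 / 8 * (x : ℝ) ^ ε := by
    rw [Real.norm_of_nonneg (by positivity), Real.norm_of_nonneg (by positivity), Real.rpow_natCast] at a3
    exact a3
  -- the length
  have hxq : (x : ℝ) ^ ε ≤ x / q := by
    rw [le_div_iff₀ hq0]
    calc (x : ℝ) ^ ε * q ≤ (x : ℝ) ^ ε * (x : ℝ) ^ (1 - ε) := mul_le_mul_of_nonneg_left hqx (by positivity)
      _ = x := by
        rw [← Real.rpow_add hx0]
        norm_num
  have hxq8 : 8 ≤ x / q / L ^ U := by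
    rw [le_div_iff₀ hLU]
    linarith
  by_cases hgood : ∀ p ∈ pz z, p ∣ q → ¬ R p r
  swap
  · -- empty
    have hd : dns R z q r = 0 := by
      unfold dns
      rw [if_neg hgood]
    have he : ((Icc 1 x).filter (fun n : ℕ => n % q = r ∧ ∀ p ∈ pz z, ¬ R p n)) = ∅ := by
      rw [filter_eq_empty_iff]
      intro n _ hn
      push Not at hgood
      obtain ⟨p, hp, hpq, hRp⟩ := hgood
      apply hn.2 p hp
      rw [hR.per p n]
      have h5 : n % p = r % p := by
        rw [← hn.1, Nat.mod_mod_of_dvd _ hpq]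
      rw [h5, ← hR.per p r]
      exact hRp
    rw [hd, he]
    simp only [card_empty, Nat.cast_zero, mul_zero, sub_zero, abs_zero]
    linarith
  have hN0r : (0 : ℝ) ≤ N0 := Nat.cast_nonneg _
  have hqx' : q ≤ x := by
    have h2 : (q : ℝ) ≤ x := by
      have : (1 : ℝ) ≤ x / q := by linarith
      rwa [le_div_iff₀ hq0, one_mul] at this
    exact_mod_cast h2
  have hrx : r ≤ x := by omega
  obtain ⟨b1, b2⟩ := ap_bij R c hR z q r x hq hr hrx hgood
  set T : ℕ := (x - r) / q with hT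
  have hTq : q * T ≤ x - r := Nat.mul_div_le _ _
  have hTq2 : x - r < q * (T + 1) := Nat.lt_mul_div_succ _ hq
  have hTup : (T : ℝ) ≤ x / q := by
    rw [le_div_iff₀ hq0]
    have : q * T ≤ x := by omega
    have h2 : (q : ℝ) * T ≤ x := by exact_mod_cast this
    linarith
  have hTlo : (x : ℝ) / q - 2 ≤ T := by
    rw [sub_le_iff_le_add, div_le_iff₀ hq0]
    have : x ≤ q * (T + 2) := by
      have : q * (T + 2) = q * (T + 1) + q := by ring
      omega
    have h2 : (x : ℝ) ≤ q * (T + 2) := by exact_mod_cast this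
    linarith
  have hThalf : (x : ℝ) ^ ε / 2 ≤ T := by linarith
  have hTN0 : N0 ≤ T := by
    have : (N0 : ℝ) ≤ T := by linarith
    exact_mod_cast this
  have hT0 : (0 : ℝ) < T := by
    have : 0 < (x : ℝ) ^ ε / 2 := by positivity
    linarith
  have hlogT : ε / 2 * L ≤ Real.log T := by
    have h2 := Real.log_le_log (by positivity) hThalf
    rw [Real.log_div (by positivity) (by norm_num), Real.log_rpow hx0] at h2
    have h3 : 2 * Real.log 2 / ε ≤ L := by linarith
    rw [div_le_iff₀ hε] at h3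
    have h4 : ε * Real.log x = ε * L := rfl
    rw [h4] at h2
    linarith
  have hlogT0 : 0 < Real.log T := lt_of_lt_of_le (by positivity) hlogT
  have hLT : L ≤ 2 / ε * Real.log T := by
    have : 2 / ε * (ε / 2 * L) = L := by field_simp
    rw [← this]
    apply mul_le_mul_of_nonneg_left hlogT (by positivity)
  have hzT : (z : ℝ) ≤ Real.log T ^ (E + 1) := by
    refine hzE.trans ?_
    have h2 : (2 / ε) ^ E ≤ Real.log T := by
      have h3 : (2 / ε) ^ (E + 1) ≤ L := by linarith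
      have h4 : ε / 2 * (2 / ε) ^ (E + 1) = (2 / ε) ^ E := by
        rw [pow_succ]; field_simp
      rw [← h4]
      exact (mul_le_mul_of_nonneg_left h3 (by positivity)).trans hlogT
    calc L ^ E ≤ (2 / ε * Real.log T) ^ E := pow_le_pow_left₀ hL0.le hLT _
      _ = (2 / ε) ^ E * Real.log T ^ E := mul_pow _ _ _
      _ ≤ Real.log T * Real.log T ^ E := mul_le_mul_of_nonneg_right h2 (by positivity)
      _ = Real.log T ^ (E + 1) := by rw [pow_succ]; ring
  have hmain := h0 T hTN0 z hz hzT (Rq R q r) (Rq_perB R c hR q r)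
  rw [dns_prod R c hR] at hmain
  have hdns : dns R z q r = ∏ p ∈ (pz z).filter (fun p => ¬ p ∣ q), (1 - (nuB R p : ℝ) / p) := by
    unfold dns
    rw [if_pos hgood]
  rw [← hdns] at hmain
  have hTerr : (T : ℝ) / Real.log T ^ (U + 1) ≤ 1 / 2 * (x / q / L ^ U) := by
    have h5 : (2 / ε) ^ (U + 1) ≤ L / 2 := by linarith
    have h6 : L ^ (U + 1) ≤ (2 / ε) ^ (U + 1) * Real.log T ^ (U + 1) := by
      rw [← mul_pow]
      exact pow_le_pow_left₀ hL0.le hLT _
    have h7 : L ^ (U + 1) ≤ L / 2 * Real.log T ^ (U + 1) :=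
      h6.trans (mul_le_mul_of_nonneg_right h5 (by positivity))
    have h8 : L ^ U ≤ 1 / 2 * Real.log T ^ (U + 1) := by
      have h9 : L * L ^ U ≤ L * (1 / 2 * Real.log T ^ (U + 1)) := by
        calc L * L ^ U = L ^ (U + 1) := by rw [pow_succ]; ring
          _ ≤ _ := h7
          _ = _ := by ring
      exact le_of_mul_le_mul_left h9 hL0
    calc (T : ℝ) / Real.log T ^ (U + 1) ≤ (x / q) / Real.log T ^ (U + 1) := by
          apply div_le_div_of_nonneg_right hTup (by positivity)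
      _ ≤ (x / q) / (2 * L ^ U) := by
          apply div_le_div_of_nonneg_left (by positivity) (by positivity)
          linarith
      _ = 1 / 2 * (x / q / L ^ U) := by field_simp
  set C1 : ℕ := ((Icc 1 x).filter (fun n : ℕ => n % q = r ∧ ∀ p ∈ pz z, ¬ R p n)).card with hC1
  set C2 : ℕ := ((Icc 1 T).filter (fun t : ℕ => ∀ p ∈ pz z, ¬ Rq R q r p t)).card with hC2
  have b1' : (C2 : ℝ) ≤ C1 := by exact_mod_cast b1
  have b2' : (C1 : ℝ) ≤ C2 + 1 := by exact_mod_cast b2
  have hd0 := dns_nonneg R z q r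
  have hd1 := dns_le R z q r
  have hxqT : |(T : ℝ) * dns R z q r - x / q * dns R z q r| ≤ 2 := by
    rw [← sub_mul, abs_mul, abs_of_nonneg hd0]
    have h9 : |(T : ℝ) - x / q| ≤ 2 := by
      rw [abs_le]; constructor <;> linarith
    calc |(T : ℝ) - x / q| * dns R z q r ≤ 2 * 1 := mul_le_mul h9 hd1 hd0 (by norm_num)
      _ = 2 := by norm_num
  have hfin := abs_le.1 (hmain.trans hTerr)
  have hfin2 := abs_le.1 hxqT
  rw [abs_le]
  constructor <;> linarith [hfin.1, hfin.2, hfin2.1, hfin2.2]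

end Pool.Agent.Y871.BD
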