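import Mathlib
import Pool.Agent.Y871.BD.Mod

/-! The explicit main terms. -/

namespace Pool.Agent.Y871.BD
open Finset Polynomial
open Pool.Agent.H373R2.T7

/-- all signs positive -/
def s1 (k : ℕ) : Fin k → ℤ := fun _ => 1

/-- prime values in the class, with weights -/
noncomputable def thP {k : ℕ} (F : Fin k → ℤ[X]) (a : Fin k → ℕ) (x q r : ℕ) : ℝ :=
  ∑ n ∈ (Icc 1 x).filter (fun n : ℕ => n % q = r), ∏ i, lamP (vl F (s1 k) a i n)

/-- rough values in the class, with weights -/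
noncomputable def thZ {k : ℕ} (F : Fin k → ℤ[X]) (z : ℕ) (a : Fin k → ℕ) (x q r : ℕ) : ℝ :=
  ∑ n ∈ (Icc 1 x).filter (fun n : ℕ => n % q = r), ∏ i, lamzI z (vl F (s1 k) a i n)

/-- the main term -/
noncomputable def mt {k : ℕ} (F : Fin k → ℤ[X]) (z : ℕ) (a : Fin k → ℕ) (x q r : ℕ) : ℝ :=
  (Vz z)⁻¹ ^ k * ((x : ℝ) / q * dns (sysQ F (s1 k) a) z q r)

open Classical in
lemma thZ_eq {k : ℕ} (F : Fin k → ℤ[X]) (z : ℕ) (a : Fin k → ℕ) (x q r : ℕ) :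
    thZ F z a x q r = (Vz z)⁻¹ ^ k * (((Icc 1 x).filter (fun n : ℕ => n % q = r ∧
      ((∀ i, 1 ≤ vl F (s1 k) a i n) ∧ ∀ p ∈ pz z, ¬ sysQ F (s1 k) a p n))).card : ℝ) := by
  unfold thZ
  simp only [prod_lamzI]
  rw [← sum_filter, sum_const, nsmul_eq_mul, filter_filter, mul_comm]

open Classical in
lemma cnt_close {k : ℕ} (F : Fin k → ℤ[X]) (hd : ∀ i, 1 ≤ (F i).natDegree) (hl : ∀ i, 0 < (F i).leadingCoeff) :
    ∃ n0 : ℕ, ∀ (z : ℕ) (a : Fin k → ℕ), (∀ i, 1 ≤ a i) → ∀ x q r : ℕ,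
      |(((Icc 1 x).filter (fun n : ℕ => n % q = r ∧
        ((∀ i, 1 ≤ vl F (s1 k) a i n) ∧ ∀ p ∈ pz z, ¬ sysQ F (s1 k) a p n))).card : ℝ) -
      (((Icc 1 x).filter (fun n : ℕ => n % q = r ∧ ∀ p ∈ pz z, ¬ sysQ F (s1 k) a p n)).card : ℝ)| ≤ n0 := by
  choose m0 hm0 using fun i => ev_mono (F i) (hd i) (hl i)
  refine ⟨univ.sup m0, fun z a ha x q r => ?_⟩
  set n0 := univ.sup m0 with hn0
  set s := (Icc 1 x).filter (fun n : ℕ => n % q = r ∧
        ((∀ i, 1 ≤ vl F (s1 k) a i n) ∧ ∀ p ∈ pz z, ¬ sysQ F (s1 k) a p n)) with hs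
  set t := (Icc 1 x).filter (fun n : ℕ => n % q = r ∧ ∀ p ∈ pz z, ¬ sysQ F (s1 k) a p n) with ht
  have h1 : s ⊆ t := by
    intro n hn
    rw [hs, mem_filter] at hn
    rw [ht, mem_filter]
    exact ⟨hn.1, hn.2.1, hn.2.2.2⟩
  have h2 : t ⊆ s ∪ range n0 := by
    intro n hn
    rw [ht, mem_filter] at hn
    rw [mem_union, hs, mem_filter, mem_range]
    by_cases h3 : n < n0
    · exact Or.inr h3
    · left
      refine ⟨hn.1, hn.2.1, ?_, hn.2.2⟩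
      intro i
      have h4 : m0 i ≤ n := (le_sup (f := m0) (mem_univ i)).trans (not_lt.1 h3)
      have h5 := (hm0 i).1 n h4
      unfold vl s1
      have h6 : (1 : ℤ) ≤ a i := by exact_mod_cast ha i
      linarith
  have h3 : t.card ≤ s.card + n0 := by
    refine (card_le_card h2).trans ((card_union_le _ _).trans ?_)
    rw [card_range]
  have h4 := card_le_card h1
  have h3' : (t.card : ℝ) ≤ s.card + n0 := by exact_mod_cast h3
  have h4' : (s.card : ℝ) ≤ t.card := by exact_mod_cast h4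
  rw [abs_le]
  constructor <;> linarith

/-- the model has the expected size -/
theorem model_ap {k : ℕ} (F : Fin k → ℤ[X]) (hd : ∀ i, 1 ≤ (F i).natDegree) (hl : ∀ i, 0 < (F i).leadingCoeff)
    (E U : ℕ) (ε : ℝ) (hε : 0 < ε) (hε1 : ε ≤ 1) :
    ∃ N0 : ℕ, ∀ x : ℕ, N0 ≤ x → ∀ z : ℕ, 1 ≤ z → (z : ℝ) ≤ Real.log x ^ E → ∀ a : Fin k → ℕ, (∀ i, 1 ≤ a i) →
    ∀ q r : ℕ, 1 ≤ q → (q : ℝ) ≤ (x : ℝ) ^ (1 - ε) → r < q →
      |thZ F z a x q r - mt F z a x q r| ≤ (x / q) / Real.log x ^ U := by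
  classical
  have hsg : ∀ i, s1 k i = 1 ∨ s1 k i = -1 := fun i => Or.inl rfl
  obtain ⟨n0, hn0⟩ := cnt_close F hd hl
  obtain ⟨N1, h1⟩ := ap_count (sysC F) E (U + k + 1) (by unfold sysC; omega) ε hε hε1
  obtain ⟨N2, h2⟩ := Vz_inv_small E
  have hpow : Filter.Tendsto (fun x : ℕ => Real.log (x : ℝ)) Filter.atTop Filter.atTop :=
    Real.tendsto_log_atTop.comp tendsto_natCast_atTop_atTop
  have hev := (hpow.eventually_ge_atTop 2).and
    ((isLittleO_log_rpow_rpow_atTop ((U + k : ℕ) : ℝ) hε).bound (show (0 : ℝ) < 1 / (2 * n0 + 1) by positivity) |>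
      (tendsto_natCast_atTop_atTop (R := ℝ)).eventually)
  obtain ⟨N3, h3⟩ := Filter.eventually_atTop.1 hev
  refine ⟨max (max N1 N2) (max N3 3), fun x hx z hz hzE a ha q r hq hqx hr => ?_⟩
  have hx1 : N1 ≤ x := (le_max_left _ _).trans ((le_max_left _ _).trans hx)
  have hx2 : N2 ≤ x := (le_max_right _ _).trans ((le_max_left _ _).trans hx)
  have hx3 : N3 ≤ x := (le_max_left _ _).trans ((le_max_right _ _).trans hx)
  have hx4 : 3 ≤ x := (le_max_right _ _).trans ((le_max_right _ _).trans hx)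
  have hxr : (3 : ℝ) ≤ x := by exact_mod_cast hx4
  have hx0 : (0 : ℝ) < x := by linarith
  obtain ⟨a1, a2⟩ := h3 x hx3
  have hV := h2 x hx2 z hz hzE
  have hc := h1 x hx1 z hz hzE (sysQ F (s1 k) a) (sysQ_per F hd hl (s1 k) hsg a) q r hq hqx hr
  have hn := hn0 z a ha x q r
  set L := Real.log x with hLd
  have hL0 : 0 < L := by linarith
  have hq0 : (0 : ℝ) < q := by exact_mod_cast hq
  have hV0 : 0 ≤ (Vz z)⁻¹ := inv_nonneg.2 (Vz_pos z).le
  have hVk : (Vz z)⁻¹ ^ k ≤ L ^ k := pow_le_pow_left₀ hV0 hV _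
  have hVk0 : 0 ≤ (Vz z)⁻¹ ^ k := by positivity
  have hxq : (x : ℝ) ^ ε ≤ x / q := by
    rw [le_div_iff₀ hq0]
    calc (x : ℝ) ^ ε * q ≤ (x : ℝ) ^ ε * (x : ℝ) ^ (1 - ε) := mul_le_mul_of_nonneg_left hqx (by positivity)
      _ = x := by
        rw [← Real.rpow_add hx0]
        norm_num
  have hxq0 : 0 < (x : ℝ) / q := by positivity
  have a2' : (2 * n0 + 1) * L ^ (U + k) ≤ (x : ℝ) ^ ε := by
    rw [Real.norm_of_nonneg (by positivity), Real.norm_of_nonneg (by positivity), Real.rpow_natCast] at a2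
    rw [mul_comm, ← le_div_iff₀ (by positivity)]
    calc L ^ (U + k) ≤ _ := a2
      _ = _ := by ring
  have e1 : L ^ k * n0 ≤ 1 / 2 * (x / q / L ^ U) := by
    have h5 : (n0 : ℝ) * L ^ (U + k) ≤ 1 / 2 * (x / q) := by
      have h6 : 0 ≤ L ^ (U + k) := by positivity
      nlinarith
    calc L ^ k * n0 = (n0 * L ^ (U + k)) / L ^ U := by
          rw [pow_add]; field_simp
      _ ≤ (1 / 2 * (x / q)) / L ^ U := div_le_div_of_nonneg_right h5 (by positivity)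
      _ = _ := by ring
  have e2 : L ^ k * (x / q / L ^ (U + k + 1)) ≤ 1 / 2 * (x / q / L ^ U) := by
    have h5 : L ^ k * (x / q / L ^ (U + k + 1)) = (x / q / L ^ U) / L := by
      rw [show U + k + 1 = U + (k + 1) from by ring, pow_add, pow_succ]; field_simp
    rw [h5, div_le_iff₀ hL0]
    have h6 : 0 < (x : ℝ) / q / L ^ U := by positivity
    nlinarith
  rw [thZ_eq]
  unfold mt
  set C1 : ℝ := (((Icc 1 x).filter (fun n : ℕ => n % q = r ∧
        ((∀ i, 1 ≤ vl F (s1 k) a i n) ∧ ∀ p ∈ pz z, ¬ sysQ F (s1 k) a p n))).card : ℝ) with hC1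
  set C2 : ℝ := (((Icc 1 x).filter (fun n : ℕ => n % q = r ∧ ∀ p ∈ pz z, ¬ sysQ F (s1 k) a p n)).card : ℝ) with hC2
  rw [← mul_sub, abs_mul, abs_of_nonneg hVk0]
  have h7 : |C1 - (x : ℝ) / q * dns (sysQ F (s1 k) a) z q r| ≤ n0 + x / q / L ^ (U + k + 1) := by
    calc _ ≤ |C1 - C2| + |C2 - (x : ℝ) / q * dns (sysQ F (s1 k) a) z q r| := abs_sub_le _ _ _
      _ ≤ _ := add_le_add hn hc
  calc (Vz z)⁻¹ ^ k * |C1 - (x : ℝ) / q * dns (sysQ F (s1 k) a) z q r|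
      ≤ L ^ k * (n0 + x / q / L ^ (U + k + 1)) := mul_le_mul hVk h7 (abs_nonneg _) (by positivity)
    _ = L ^ k * n0 + L ^ k * (x / q / L ^ (U + k + 1)) := by ring
    _ ≤ 1 / 2 * (x / q / L ^ U) + 1 / 2 * (x / q / L ^ U) := add_le_add e1 e2
    _ = _ := by ring

/-- the harmonic sum -/
lemma harm_le (Q x : ℕ) (hx : 3 ≤ x) (hQ : Q ≤ x) : ∑ q ∈ Icc 1 Q, (1 : ℝ) / q ≤ 2 * Real.log x := by
  have h1 := harmonic_le_one_add_log Q
  rw [harmonic_eq_sum_Icc] at h1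
  push_cast at h1
  have h2 : ∑ q ∈ Icc 1 Q, (1 : ℝ) / q = ∑ i ∈ Icc 1 Q, (i : ℝ)⁻¹ := sum_congr rfl (fun i _ => one_div _)
  rw [h2]
  have hl3 : 1 ≤ Real.log x := by
    rw [Real.le_log_iff_exp_le (by positivity)]
    have := Real.exp_one_lt_d9
    have : (3 : ℝ) ≤ x := by exact_mod_cast hx
    linarith
  rcases Nat.eq_zero_or_pos Q with h | h
  · rw [h]; simp; linarith
  · have h3 : Real.log Q ≤ Real.log x := Real.log_le_log (by exact_mod_cast h) (by exact_mod_cast hQ)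
    linarith

/-- BDH with explicit main terms, in mean square over the shift vectors -/
theorem bdh_main {k : ℕ} (F : Fin k → ℤ[X]) (hd : ∀ i, 1 ≤ (F i).natDegree) (hl : ∀ i, 0 < (F i).leadingCoeff)
    (B : ℕ) (hB : 1 ≤ B) (U : ℕ) (ε : ℝ) (hε : 0 < ε) (hε1 : ε ≤ 1) :
    ∃ B0 : ℕ, ∀ E : ℕ, ∃ N0 : ℕ, ∀ x : ℕ, N0 ≤ x →
    ∀ A : Fin k → ℕ, (∀ i, A i ≤ B * x ^ (F i).natDegree ∧ x ^ (F i).natDegree ≤ B * A i) →
    ∀ z : ℕ, Real.log x ^ B0 ≤ z → (z : ℝ) ≤ Real.log x ^ E → ∀ Q : ℕ, (Q : ℝ) ≤ (x : ℝ) ^ (1 - ε) →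
      ∑ a ∈ Fintype.piFinset (fun i => Icc 1 (A i)), ∑ q ∈ Icc 1 Q, ∑ r ∈ range q,
        (thP F a x q r - mt F z a x q r) ^ 2 ≤ (∏ i, (A i : ℝ)) * (x ^ 2 / Real.log x ^ U) := by
  obtain ⟨B0, h0⟩ := bdh_rough F hd hl (s1 k) (fun i => Or.inl rfl) B hB (U + 2)
  refine ⟨B0, fun E => ?_⟩
  obtain ⟨N1, h1⟩ := h0 E
  obtain ⟨N2, h2⟩ := model_ap F hd hl E (U + 2) ε hε hε1
  obtain ⟨N3, h3⟩ := ev_L' 4
  have hev := ((isLittleO_log_rpow_rpow_atTop ((2 * k + 5 + (U + 2) : ℕ) : ℝ) hε).bound (show (0 : ℝ) < 1 by norm_num) |>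
      (tendsto_natCast_atTop_atTop (R := ℝ)).eventually)
  obtain ⟨N4, h4⟩ := Filter.eventually_atTop.1 hev
  refine ⟨max (max N1 N2) (max (max N3 N4) 3), fun x hx A hA z hz1 hz2 Q hQ => ?_⟩
  have hx1 : N1 ≤ x := (le_max_left _ _).trans ((le_max_left _ _).trans hx)
  have hx2 : N2 ≤ x := (le_max_right _ _).trans ((le_max_left _ _).trans hx)
  have hx3 : N3 ≤ x := (le_max_left _ _).trans ((le_max_left _ _).trans ((le_max_right _ _).trans hx))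
  have hx4 : N4 ≤ x := (le_max_right _ _).trans ((le_max_left _ _).trans ((le_max_right _ _).trans hx))
  have hx5 : 3 ≤ x := (le_max_right _ _).trans ((le_max_right _ _).trans hx)
  have hxr : (3 : ℝ) ≤ x := by exact_mod_cast hx5
  have hx0 : (0 : ℝ) < x := by linarith
  have a3 := h3 x hx3
  have a4 := h4 x hx4
  set L := Real.log x with hLd
  have hL0 : 0 < L := by linarith
  have hz : 1 ≤ z := by
    have : (1 : ℝ) ≤ z := (one_le_pow₀ (by linarith : (1 : ℝ) ≤ L)).trans hz1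
    exact_mod_cast this
  have hQ' : (Q : ℝ) ≤ x / L ^ (2 * k + 5 + (U + 2)) := by
    rw [Real.norm_of_nonneg (by positivity), Real.norm_of_nonneg (by positivity), Real.rpow_natCast, one_mul] at a4
    refine hQ.trans ?_
    rw [le_div_iff₀ (by positivity)]
    calc (x : ℝ) ^ (1 - ε) * L ^ (2 * k + 5 + (U + 2)) ≤ (x : ℝ) ^ (1 - ε) * (x : ℝ) ^ ε :=
          mul_le_mul_of_nonneg_left a4 (by positivity)
      _ = x := by
        rw [← Real.rpow_add hx0]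
        norm_num
  have hQx : Q ≤ x := by
    have : (Q : ℝ) ≤ x := hQ'.trans (div_le_self hx0.le (one_le_pow₀ (by linarith)))
    exact_mod_cast this
  have m1 := h1 x hx1 A hA z hz1 hz2 Q hQ'
  have hA0 : (0 : ℝ) ≤ ∏ i, (A i : ℝ) := prod_nonneg fun i _ => Nat.cast_nonneg _
  have m2 : ∑ a ∈ Fintype.piFinset (fun i => Icc 1 (A i)), ∑ q ∈ Icc 1 Q, ∑ r ∈ range q,
        (thZ F z a x q r - mt F z a x q r) ^ 2 ≤ (∏ i, (A i : ℝ)) * (x ^ 2 / L ^ (U + 2)) := by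
    have h5 : ∀ a ∈ Fintype.piFinset (fun i => Icc 1 (A i)), ∑ q ∈ Icc 1 Q, ∑ r ∈ range q,
        (thZ F z a x q r - mt F z a x q r) ^ 2 ≤ x ^ 2 / L ^ (U + 2) := by
      intro a ha
      have ha1 : ∀ i, 1 ≤ a i := fun i => (mem_Icc.1 (Fintype.mem_piFinset.1 ha i)).1
      have h6 : ∀ q ∈ Icc 1 Q, ∑ r ∈ range q, (thZ F z a x q r - mt F z a x q r) ^ 2 ≤
          (x ^ 2 / L ^ (2 * (U + 2))) * ((1 : ℝ) / q) := by
        intro q hq
        have hq1 := mem_Icc.1 hq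
        have hq0 : (0 : ℝ) < q := by exact_mod_cast hq1.1
        have hqx : (q : ℝ) ≤ (x : ℝ) ^ (1 - ε) := le_trans (by exact_mod_cast hq1.2) hQ
        calc ∑ r ∈ range q, (thZ F z a x q r - mt F z a x q r) ^ 2
            ≤ ∑ _r ∈ range q, ((x / q) / L ^ (U + 2)) ^ 2 := by
              apply sum_le_sum
              intro r hr
              rw [← sq_abs]
              exact pow_le_pow_left₀ (abs_nonneg _) (h2 x hx2 z hz hz2 a ha1 q r hq1.1 hqx (mem_range.1 hr)) 2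
          _ = (q : ℝ) * ((x / q) / L ^ (U + 2)) ^ 2 := by rw [sum_const, card_range, nsmul_eq_mul]
          _ = _ := by
            rw [mul_comm 2 (U + 2), pow_mul]
            field_simp
      calc ∑ q ∈ Icc 1 Q, ∑ r ∈ range q, (thZ F z a x q r - mt F z a x q r) ^ 2
          ≤ ∑ q ∈ Icc 1 Q, (x ^ 2 / L ^ (2 * (U + 2))) * ((1 : ℝ) / q) := sum_le_sum h6
        _ = (x ^ 2 / L ^ (2 * (U + 2))) * ∑ q ∈ Icc 1 Q, (1 : ℝ) / q := by rw [mul_sum]
        _ ≤ (x ^ 2 / L ^ (2 * (U + 2))) * (2 * L) := mul_le_mul_of_nonneg_left (harm_le Q x hx5 hQx) (by positivity)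
        _ ≤ x ^ 2 / L ^ (U + 2) := by
          have h7 : (x : ℝ) ^ 2 / L ^ (2 * (U + 2)) * (2 * L) = x ^ 2 / L ^ (U + 2) * (2 / L ^ (U + 1)) := by
            rw [show 2 * (U + 2) = (U + 2) + (U + 1) + 1 from by ring, pow_add L ((U + 2) + (U + 1)) 1,
              pow_add L (U + 2) (U + 1), pow_one]
            field_simp
          rw [h7]
          have h8 : 2 / L ^ (U + 1) ≤ 1 := by
            rw [div_le_one (by positivity)]
            calc (2 : ℝ) ≤ L := by linarith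
              _ = L ^ 1 := (pow_one L).symm
              _ ≤ L ^ (U + 1) := pow_le_pow_right₀ (by linarith) (by omega)
          exact mul_le_of_le_one_right (by positivity) h8
    calc _ ≤ ∑ _a ∈ Fintype.piFinset (fun i => Icc 1 (A i)), (x : ℝ) ^ 2 / L ^ (U + 2) := sum_le_sum h5
      _ = _ := by
        rw [sum_const, nsmul_eq_mul, Fintype.card_piFinset]
        simp
  have m3 : ∑ a ∈ Fintype.piFinset (fun i => Icc 1 (A i)), ∑ q ∈ Icc 1 Q, ∑ r ∈ range q,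
        (thP F a x q r - mt F z a x q r) ^ 2 ≤
      2 * ∑ a ∈ Fintype.piFinset (fun i => Icc 1 (A i)), ∑ q ∈ Icc 1 Q, ∑ r ∈ range q,
        (∑ n ∈ (Icc 1 x).filter (fun n : ℕ => n % q = r),
          (∏ i, lamP (vl F (s1 k) a i n) - ∏ i, lamzI z (vl F (s1 k) a i n))) ^ 2 +
      2 * ∑ a ∈ Fintype.piFinset (fun i => Icc 1 (A i)), ∑ q ∈ Icc 1 Q, ∑ r ∈ range q,
        (thZ F z a x q r - mt F z a x q r) ^ 2 := by
    rw [mul_sum, mul_sum, ← sum_add_distrib]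
    apply sum_le_sum
    intro a _
    rw [mul_sum, mul_sum, ← sum_add_distrib]
    apply sum_le_sum
    intro q _
    rw [mul_sum, mul_sum, ← sum_add_distrib]
    apply sum_le_sum
    intro r _
    rw [sum_sub_distrib]
    unfold thP
    have h9 : ∀ u v w : ℝ, (u - w) ^ 2 ≤ 2 * (u - v) ^ 2 + 2 * (v - w) ^ 2 := by
      intro u v w
      nlinarith [sq_nonneg ((u - v) - (v - w))]
    exact h9 _ _ _
  refine m3.trans ?_
  have hL2 : x ^ 2 / L ^ (U + 2) ≤ 1 / 4 * ((x : ℝ) ^ 2 / L ^ U) := by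
    have h10 : (x : ℝ) ^ 2 / L ^ (U + 2) = (x ^ 2 / L ^ U) * (1 / L ^ 2) := by
      rw [pow_add]; field_simp
    rw [h10, mul_comm]
    apply mul_le_mul_of_nonneg_right _ (by positivity)
    apply div_le_div_of_nonneg_left (by norm_num) (by norm_num)
    nlinarith
  have h11 := mul_le_mul_of_nonneg_left hL2 hA0
  linarith

open Classical in
/-- **BDH with explicit main terms for almost all shift vectors** -/
theorem bdh_aa {k : ℕ} (F : Fin k → ℤ[X]) (hd : ∀ i, 1 ≤ (F i).natDegree) (hl : ∀ i, 0 < (F i).leadingCoeff)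
    (B : ℕ) (hB : 1 ≤ B) (U : ℕ) (ε : ℝ) (hε : 0 < ε) (hε1 : ε ≤ 1) :
    ∃ B0 : ℕ, ∀ E : ℕ, ∃ N0 : ℕ, ∀ x : ℕ, N0 ≤ x →
    ∀ A : Fin k → ℕ, (∀ i, A i ≤ B * x ^ (F i).natDegree ∧ x ^ (F i).natDegree ≤ B * A i) →
    ∀ z : ℕ, Real.log x ^ B0 ≤ z → (z : ℝ) ≤ Real.log x ^ E → ∀ Q : ℕ, (Q : ℝ) ≤ (x : ℝ) ^ (1 - ε) →
      (((Fintype.piFinset (fun i => Icc 1 (A i))).filter (fun a => x ^ 2 / Real.log x ^ U <
        ∑ q ∈ Icc 1 Q, ∑ r ∈ range q, (thP F a x q r - mt F z a x q r) ^ 2)).card : ℝ) ≤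
        (∏ i, (A i : ℝ)) / Real.log x ^ U := by
  obtain ⟨B0, h0⟩ := bdh_main F hd hl B hB (2 * U) ε hε hε1
  refine ⟨B0, fun E => ?_⟩
  obtain ⟨N1, h1⟩ := h0 E
  obtain ⟨N2, h2⟩ := ev_L' 1
  refine ⟨max (max N1 N2) 1, fun x hx A hA z hz1 hz2 Q hQ => ?_⟩
  have hx1 : N1 ≤ x := (le_max_left _ _).trans ((le_max_left _ _).trans hx)
  have hx2 : N2 ≤ x := (le_max_right _ _).trans ((le_max_left _ _).trans hx)
  have hx3 : 1 ≤ x := (le_max_right _ _).trans hx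
  have hx0 : (0 : ℝ) < x := by exact_mod_cast hx3
  have hL := h2 x hx2
  have hL0 : 0 < Real.log (x : ℝ) := by linarith
  refine markov _ _ (fun a _ => sum_nonneg fun q _ => sum_nonneg fun r _ => sq_nonneg _) _ _ (by positivity) ?_
  refine (h1 x hx1 A hA z hz1 hz2 Q hQ).trans (le_of_eq ?_)
  rw [two_mul, pow_add]
  field_simp

open Classical in
/-- the full range of moduli, against the rough model -/
theorem bdh_full {k : ℕ} (F : Fin k → ℤ[X]) (hd : ∀ i, 1 ≤ (F i).natDegree) (hl : ∀ i, 0 < (F i).leadingCoeff)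
    (B : ℕ) (hB : 1 ≤ B) (U : ℕ) :
    ∃ B0 : ℕ, ∀ E : ℕ, ∃ N0 : ℕ, ∀ x : ℕ, N0 ≤ x →
    ∀ A : Fin k → ℕ, (∀ i, A i ≤ B * x ^ (F i).natDegree ∧ x ^ (F i).natDegree ≤ B * A i) →
    ∀ z : ℕ, Real.log x ^ B0 ≤ z → (z : ℝ) ≤ Real.log x ^ E → ∀ Q : ℕ, (Q : ℝ) ≤ x / Real.log x ^ (2 * k + 5 + 2 * U) →
      (((Fintype.piFinset (fun i => Icc 1 (A i))).filter (fun a => x ^ 2 / Real.log x ^ U <
        ∑ q ∈ Icc 1 Q, ∑ r ∈ range q, (thP F a x q r - thZ F z a x q r) ^ 2)).card : ℝ) ≤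
        (∏ i, (A i : ℝ)) / Real.log x ^ U := by
  obtain ⟨B0, h0⟩ := bdh_rough F hd hl (s1 k) (fun i => Or.inl rfl) B hB (2 * U)
  refine ⟨B0, fun E => ?_⟩
  obtain ⟨N1, h1⟩ := h0 E
  obtain ⟨N2, h2⟩ := ev_L' 1
  refine ⟨max (max N1 N2) 1, fun x hx A hA z hz1 hz2 Q hQ => ?_⟩
  have hx1 : N1 ≤ x := (le_max_left _ _).trans ((le_max_left _ _).trans hx)
  have hx2 : N2 ≤ x := (le_max_right _ _).trans ((le_max_left _ _).trans hx)
  have hx3 : 1 ≤ x := (le_max_right _ _).trans hx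
  have hx0 : (0 : ℝ) < x := by exact_mod_cast hx3
  have hL := h2 x hx2
  have hL0 : 0 < Real.log (x : ℝ) := by linarith
  refine markov _ _ (fun a _ => sum_nonneg fun q _ => sum_nonneg fun r _ => sq_nonneg _) _ _ (by positivity) ?_
  have h3 := h1 x hx1 A hA z hz1 hz2 Q hQ
  simp only [sum_sub_distrib] at h3
  refine h3.trans (le_of_eq ?_)
  rw [two_mul, pow_add]
  field_simp

end Pool.Agent.Y871.BD
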