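import Mathlib
import Pool.Agent.Y871.BD.Fin

/-! Conversions. -/

namespace Pool.Agent.Y871.BD
open Finset Polynomial
open Pool.Agent.H373R2.T7

/-- the values -/
def vv {r : ℕ} (F : Fin r → ℤ[X]) (k : Fin r → ℕ) (i : Fin r) (n : ℕ) : ℤ := (F i).eval (n : ℤ) + k i

lemma vl_eq {r : ℕ} (F : Fin r → ℤ[X]) (k : Fin r → ℕ) (i : Fin r) (n : ℕ) : vl F (s1 r) k i n = vv F k i n := by
  unfold vl vv s1
  ring

lemma sysQ_iff {r : ℕ} (F : Fin r → ℤ[X]) (k : Fin r → ℕ) (p n : ℕ) (hp : p.Prime) :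
    sysQ F (s1 r) k p n ↔ (p : ℤ) ∣ ∏ i, vv F k i n := by
  have h1 := (Nat.prime_iff_prime_int.1 hp).dvd_finsetProd_iff (S := (univ : Finset (Fin r))) (fun i => vv F k i n)
  rw [h1]
  unfold sysQ
  simp only [vl_eq, mem_univ, true_and]

lemma nuB_eq {r : ℕ} (F : Fin r → ℤ[X]) (k : Fin r → ℕ) (p : ℕ) (hp : p.Prime) :
    nuB (sysQ F (s1 r) k) p = ((range p).filter (fun n : ℕ => (p : ℤ) ∣ ∏ i, vv F k i n)).card := by
  classical
  unfold nuB
  apply congrArg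
  ext n
  simp only [mem_filter]
  rw [sysQ_iff F k p n hp]

lemma lamP_eq (v : ℤ) : lamP v = if v.toNat.Prime then Real.log (v : ℝ) else 0 := by
  unfold lamP
  by_cases h : v.toNat.Prime
  · rw [if_pos h, if_pos h]
    have h1 : 0 ≤ v := by
      by_contra hcon
      push Not at hcon
      rw [Int.toNat_of_nonpos hcon.le] at h
      exact absurd h (by norm_num)
    have h2 : ((v.toNat : ℕ) : ℤ) = v := Int.toNat_of_nonneg h1
    have h3 : ((v.toNat : ℕ) : ℝ) = (v : ℝ) := by exact_mod_cast h2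
    rw [h3]
  · rw [if_neg h, if_neg h]

lemma thP_eq {r : ℕ} (F : Fin r → ℤ[X]) (k : Fin r → ℕ) (x q b : ℕ) :
    thP F k x q b = ∑ n ∈ (Icc 1 x).filter (fun n : ℕ => n % q = b ∧ ∀ i, (vv F k i n).toNat.Prime),
      ∏ i, Real.log (vv F k i n : ℝ) := by
  classical
  unfold thP
  rw [← filter_filter, sum_filter (fun n : ℕ => ∀ i, (vv F k i n).toNat.Prime)]
  apply sum_congr rfl
  intro n _
  simp only [vl_eq, lamP_eq]
  by_cases h : ∀ i, (vv F k i n).toNat.Prime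
  · rw [if_pos h]
    apply prod_congr rfl
    intro i _
    rw [if_pos (h i)]
  · rw [if_neg h]
    push Not at h
    obtain ⟨i, hi⟩ := h
    apply prod_eq_zero (mem_univ i)
    rw [if_neg hi]

open Classical in
lemma mt_eq {r : ℕ} (F : Fin r → ℤ[X]) (k : Fin r → ℕ) (z x q b : ℕ) :
    mt F z k x q b = if ∀ p ∈ (Icc 1 z).filter Nat.Prime, p ∣ q → ¬ (p : ℤ) ∣ ∏ i, vv F k i b then
      (x : ℝ) / q * ∏ p ∈ (Icc 1 z).filter Nat.Prime,
        (if p ∣ q then 1 else 1 - (((range p).filter (fun n : ℕ => (p : ℤ) ∣ ∏ i, vv F k i n)).card : ℝ) / p) /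
          (1 - 1 / (p : ℝ)) ^ r else 0 := by
  unfold mt dns
  have h1 : (∀ p ∈ pz z, p ∣ q → ¬ sysQ F (s1 r) k p b) ↔
      ∀ p ∈ (Icc 1 z).filter Nat.Prime, p ∣ q → ¬ (p : ℤ) ∣ ∏ i, vv F k i b := by
    constructor
    · intro h p hp hpq
      rw [← sysQ_iff F k p b (mem_filter.1 hp).2]
      exact h p hp hpq
    · intro h p hp hpq
      rw [sysQ_iff F k p b (mem_pz.1 hp).2]
      exact h p hp hpq
  by_cases h : ∀ p ∈ (Icc 1 z).filter Nat.Prime, p ∣ q → ¬ (p : ℤ) ∣ ∏ i, vv F k i b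
  · rw [if_pos h, if_pos (h1.2 h), prod_filter, prod_div_distrib, prod_pow]
    have h2 : ∏ p ∈ pz z, (if ¬ p ∣ q then (1 - (nuB (sysQ F (s1 r) k) p : ℝ) / p) else 1) =
        ∏ p ∈ (Icc 1 z).filter Nat.Prime, (if p ∣ q then (1 : ℝ) else
          1 - (((range p).filter (fun n : ℕ => (p : ℤ) ∣ ∏ i, vv F k i n)).card : ℝ) / p) := by
      apply prod_congr rfl
      intro p hp
      by_cases hpq : p ∣ q
      · rw [if_neg (not_not.2 hpq), if_pos hpq]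
      · rw [if_pos hpq, if_neg hpq, nuB_eq F k p (mem_pz.1 hp).2]
    rw [h2]
    unfold Vz pz
    rw [inv_pow]
    ring
  · rw [if_neg h, if_neg (fun h' => h (h1.1 h')), mul_zero, mul_zero]

open Classical in
lemma thZ_eq' {r : ℕ} (F : Fin r → ℤ[X]) (k : Fin r → ℕ) (z x q b : ℕ) :
    thZ F z k x q b = (((Icc 1 x).filter (fun n : ℕ => n % q = b ∧ ∀ i, 1 ≤ vv F k i n ∧
      ∀ p ∈ (Icc 1 z).filter Nat.Prime, ¬ (p : ℤ) ∣ vv F k i n)).card : ℝ) /
        (∏ p ∈ (Icc 1 z).filter Nat.Prime, (1 - 1 / (p : ℝ))) ^ r := by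
  rw [thZ_eq]
  have h1 : ((Icc 1 x).filter (fun n : ℕ => n % q = b ∧
      ((∀ i, 1 ≤ vl F (s1 r) k i n) ∧ ∀ p ∈ pz z, ¬ sysQ F (s1 r) k p n))) =
      (Icc 1 x).filter (fun n : ℕ => n % q = b ∧ ∀ i, 1 ≤ vv F k i n ∧
      ∀ p ∈ (Icc 1 z).filter Nat.Prime, ¬ (p : ℤ) ∣ vv F k i n) := by
    ext n
    simp only [mem_filter (s := Icc 1 x)]
    apply and_congr_right
    intro _
    unfold sysQ
    simp only [vl_eq]
    apply and_congr_right
    intro _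
    constructor
    · rintro ⟨h3, h4⟩
      exact fun i => ⟨h3 i, fun p hp hd => h4 p hp ⟨i, hd⟩⟩
    · intro h3
      refine ⟨fun i => (h3 i).1, ?_⟩
      rintro p hp ⟨i, hd⟩
      exact (h3 i).2 p hp hd
  rw [h1]
  unfold Vz pz
  rw [inv_pow, div_eq_mul_inv, mul_comm]

end Pool.Agent.Y871.BD
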