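import Mathlib
import Pool.Agent.Y871.BD.Mod

/-! Mean square of sums of products of periodic functions of mean zero. -/

namespace Pool.Agent.Y871.BD
open Finset Polynomial
open Pool.Agent.H373R2.T7

/-- sums over complete residue systems -/
lemma sum_res (p : ℕ) (hp : 0 < p) (f : ℕ → ℝ) (hf : ∀ n, f n = f (n % p)) (s u : ℕ) (hu : Nat.Coprime p u) :
    ∑ m ∈ range p, f (s + u * m) = ∑ m ∈ range p, f m := by
  have hinj : Set.InjOn (fun m => (s + u * m) % p) (range p : Set ℕ) := by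
    intro m hm m' hm' heq
    have hm1 := mem_range.1 (mem_coe.1 hm)
    have hm2 := mem_range.1 (mem_coe.1 hm')
    have h1 : s + u * m ≡ s + u * m' [MOD p] := heq
    have h2 : u * m ≡ u * m' [MOD p] := Nat.ModEq.add_left_cancel' s h1
    have h3 : m ≡ m' [MOD p] := Nat.ModEq.cancel_left_of_coprime hu h2
    have h4 : m % p = m' % p := h3
    rwa [Nat.mod_eq_of_lt hm1, Nat.mod_eq_of_lt hm2] at h4
  have himg : (range p).image (fun m => (s + u * m) % p) = range p := by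
    apply eq_of_subset_of_card_le
    · intro m hm
      rw [mem_image] at hm
      obtain ⟨a, _, rfl⟩ := hm
      exact mem_range.2 (Nat.mod_lt _ hp)
    · rw [card_image_of_injOn hinj]
  calc ∑ m ∈ range p, f (s + u * m) = ∑ m ∈ range p, f ((s + u * m) % p) := sum_congr rfl fun m _ => hf _
    _ = ∑ m ∈ (range p).image (fun m => (s + u * m) % p), f m := by
        rw [sum_image hinj]
    _ = _ := by rw [himg]

/-- blocks -/
lemma sum_blocks (f : ℕ → ℝ) (d u : ℕ) : ∑ t ∈ range (d * u), f t = ∑ s ∈ range u, ∑ t ∈ range d, f (d * s + t) := by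
  induction u with
  | zero => simp
  | succ u ih =>
    rw [Nat.mul_succ, sum_range_add, ih, sum_range_succ]

/-- data: a set of primes not dividing `q`, periodic functions of mean zero -/
structure YD (D : Finset ℕ) (q : ℕ) (g : ℕ → ℕ → ℝ) (G : ℝ) : Prop where
  pr : ∀ p ∈ D, p.Prime
  nd : ∀ p ∈ D, ¬ p ∣ q
  per : ∀ p n, g p n = g p (n % p)
  mean : ∀ p ∈ D, ∑ m ∈ range p, g p m = 0
  l1 : ∀ p ∈ D, ∑ m ∈ range p, |g p m| ≤ G

lemma YD.mono {D D' : Finset ℕ} {q : ℕ} {g : ℕ → ℕ → ℝ} {G : ℝ} (h : YD D q g G) (hs : D' ⊆ D) : YD D' q g G :=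
  ⟨fun p hp => h.pr p (hs hp), fun p hp => h.nd p (hs hp), h.per, fun p hp => h.mean p (hs hp), fun p hp => h.l1 p (hs hp)⟩

/-- the product -/
noncomputable def hY (D : Finset ℕ) (q : ℕ) (g : ℕ → ℕ → ℝ) (m : ↥D → ℕ) (t : ℕ) : ℝ := ∏ p : ↥D, g p (m p + q * t)

lemma hY_per {D : Finset ℕ} {q : ℕ} {g : ℕ → ℕ → ℝ} {G : ℝ} (h : YD D q g G) (m : ↥D → ℕ) (s t : ℕ) :
    hY D q g m ((∏ p ∈ D, p) * s + t) = hY D q g m t := by
  unfold hY
  apply prod_congr rfl
  intro p _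
  rw [h.per p (m p + q * ((∏ p ∈ D, p) * s + t)), h.per p (m p + q * t)]
  obtain ⟨w, hw⟩ : (p : ℕ) ∣ ∏ p ∈ D, p := dvd_prod_of_mem (fun p => p) p.2
  congr 1
  rw [hw, show (m p : ℕ) + q * ((p : ℕ) * w * s + t) = (m p + q * t) + (p : ℕ) * (q * w * s) by ring, Nat.add_mul_mod_self_left]

/-- the sum over a period vanishes -/
lemma hY_zero {D : Finset ℕ} {q : ℕ} {g : ℕ → ℕ → ℝ} {G : ℝ} (h : YD D q g G) (hD : D.Nonempty) (m : ↥D → ℕ) :
    ∑ t ∈ range (∏ p ∈ D, p), hY D q g m t = 0 := by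
  obtain ⟨p0, hp0⟩ := hD
  have hsplit : ∏ p ∈ D, p = (∏ p ∈ D.erase p0, p) * p0 := by rw [prod_erase_mul D (fun p => p) hp0]
  set d' := ∏ p ∈ D.erase p0, p with hd'
  have hcop : Nat.Coprime p0 d' := by
    rw [hd']
    apply Nat.Coprime.prod_right
    intro p hp
    rw [mem_erase] at hp
    exact (Nat.coprime_primes (h.pr p0 hp0) (h.pr p hp.2)).2 (fun h' => hp.1 h'.symm)
  have hcq : Nat.Coprime p0 q := (Nat.Prime.coprime_iff_not_dvd (h.pr p0 hp0)).2 (h.nd p0 hp0)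
  rw [hsplit, sum_blocks, sum_comm]
  apply sum_eq_zero
  intro t _
  have key : ∀ s : ℕ, hY D q g m (d' * s + t) = (∏ p ∈ univ.erase (⟨p0, hp0⟩ : ↥D), g p (m p + q * t)) *
      g p0 ((m ⟨p0, hp0⟩ + q * t) + (q * d') * s) := by
    intro s
    unfold hY
    rw [← prod_erase_mul univ _ (mem_univ (⟨p0, hp0⟩ : ↥D))]
    congr 1
    · apply prod_congr rfl
      intro p hp
      rw [mem_erase] at hp
      have hpe : (p : ℕ) ∈ D.erase p0 := by
        rw [mem_erase]
        exact ⟨fun h' => hp.1 (Subtype.ext h'), p.2⟩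
      obtain ⟨w, hw⟩ : (p : ℕ) ∣ d' := dvd_prod_of_mem (fun p => p) hpe
      rw [h.per p (m p + q * (d' * s + t)), h.per p (m p + q * t)]
      congr 1
      rw [hw, show (m p : ℕ) + q * ((p : ℕ) * w * s + t) = (m p + q * t) + (p : ℕ) * (q * w * s) by ring,
        Nat.add_mul_mod_self_left]
    · congr 1
      ring
  rw [sum_congr rfl fun s _ => key s, ← mul_sum,
    sum_res p0 (h.pr p0 hp0).pos (g p0) (h.per p0) _ (q * d') (Nat.Coprime.mul_right hcq hcop), h.mean p0 hp0, mul_zero]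

/-- reduction to an incomplete period -/
lemma hY_red {D : Finset ℕ} {q : ℕ} {g : ℕ → ℕ → ℝ} {G : ℝ} (h : YD D q g G) (hD : D.Nonempty) (m : ↥D → ℕ) (K : ℕ) :
    ∑ t ∈ range K, hY D q g m t = ∑ t ∈ range (K % ∏ p ∈ D, p), hY D q g m t := by
  conv_lhs => rw [← Nat.div_add_mod K (∏ p ∈ D, p)]
  rw [sum_range_add, sum_blocks]
  have h1 : ∑ s ∈ range (K / ∏ p ∈ D, p), ∑ t ∈ range (∏ p ∈ D, p), hY D q g m ((∏ p ∈ D, p) * s + t) = 0 := by
    apply sum_eq_zero
    intro s _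
    rw [sum_congr rfl fun t _ => hY_per h m s t]
    exact hY_zero h hD m
  rw [h1, zero_add]
  exact sum_congr rfl fun t _ => hY_per h m _ t

/-- the absolute values over less than a period -/
lemma hY_inj {D : Finset ℕ} {q : ℕ} {g : ℕ → ℕ → ℝ} {G : ℝ} (h : YD D q g G) (m : ↥D → ℕ) (v : ℕ)
    (hv : v ≤ ∏ p ∈ D, p) : ∑ t ∈ range v, |hY D q g m t| ≤ G ^ D.card := by
  classical
  set φ : ℕ → (↥D → ℕ) := fun t p => (m p + q * t) % p with hφ
  have hinj : Set.InjOn φ (range v : Set ℕ) := by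
    intro t ht t' ht' heq
    have ht1 := mem_range.1 (mem_coe.1 ht)
    have ht2 := mem_range.1 (mem_coe.1 ht')
    have h1 : ∀ p ∈ D, t ≡ t' [MOD p] := by
      intro p hp
      have h2 : (m ⟨p, hp⟩ + q * t) % p = (m ⟨p, hp⟩ + q * t') % p := congrFun heq ⟨p, hp⟩
      have h3 : q * t ≡ q * t' [MOD p] := Nat.ModEq.add_left_cancel' _ h2
      exact Nat.ModEq.cancel_left_of_coprime ((Nat.Prime.coprime_iff_not_dvd (h.pr p hp)).2 (h.nd p hp)) h3
    have h2 : t ≡ t' [MOD ∏ p ∈ D, p] := by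
      rw [Nat.modEq_iff_dvd]
      push_cast
      apply prod_dvd_of_coprime
      · intro a ha b hb hab
        have := (Nat.coprime_primes (h.pr a ha) (h.pr b hb)).2 hab
        exact (Nat.isCoprime_iff_coprime.2 this)
      · intro p hp
        exact (Nat.modEq_iff_dvd.1 (h1 p hp))
    have h3 : t % (∏ p ∈ D, p) = t' % (∏ p ∈ D, p) := h2
    rwa [Nat.mod_eq_of_lt (ht1.trans_le hv), Nat.mod_eq_of_lt (ht2.trans_le hv)] at h3
  calc ∑ t ∈ range v, |hY D q g m t| = ∑ t ∈ range v, ∏ p : ↥D, |g p (φ t p)| := by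
        apply sum_congr rfl
        intro t _
        unfold hY
        rw [abs_prod]
        apply prod_congr rfl
        intro p _
        rw [h.per p (m p + q * t)]
    _ = ∑ f ∈ (range v).image φ, ∏ p : ↥D, |g p (f p)| := by rw [sum_image hinj]
    _ ≤ ∑ f ∈ Fintype.piFinset (fun p : ↥D => range (p : ℕ)), ∏ p : ↥D, |g p (f p)| := by
        apply sum_le_sum_of_subset_of_nonneg
        · intro f hf
          rw [mem_image] at hf
          obtain ⟨t, _, rfl⟩ := hf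
          rw [Fintype.mem_piFinset]
          intro p
          exact mem_range.2 (Nat.mod_lt _ (h.pr p p.2).pos)
        · intro f _ _
          exact prod_nonneg fun p _ => abs_nonneg _
    _ = ∏ p : ↥D, ∑ j ∈ range (p : ℕ), |g p j| := by rw [prod_univ_sum]
    _ ≤ ∏ _p : ↥D, G := prod_le_prod (fun p _ => sum_nonneg fun _ _ => abs_nonneg _) (fun p _ => h.l1 p p.2)
    _ = G ^ D.card := by rw [prod_const, card_univ, Fintype.card_coe]

lemma hY_avg {D : Finset ℕ} {q : ℕ} {g : ℕ → ℕ → ℝ} {G : ℝ} (h : YD D q g G) (t : ℕ) :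
    ∑ m ∈ Fintype.piFinset (fun p : ↥D => range (p : ℕ)), |hY D q g m t| ≤ G ^ D.card := by
  classical
  unfold hY
  simp only [abs_prod]
  rw [← prod_univ_sum (fun p : ↥D => range (p : ℕ)) (fun p j => |g p (j + q * t)|)]
  calc ∏ p : ↥D, ∑ j ∈ range (p : ℕ), |g p (j + q * t)| ≤ ∏ _p : ↥D, G := by
        apply prod_le_prod (fun p _ => sum_nonneg fun _ _ => abs_nonneg _)
        intro p _
        have h1 := sum_res (p : ℕ) (h.pr p p.2).pos (fun n => |g p n|) (fun n => by rw [h.per p n]) (q * t) 1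
          (Nat.coprime_one_right _)
        have h2 : ∑ j ∈ range (p : ℕ), |g p (j + q * t)| = ∑ m ∈ range (p : ℕ), |g p (q * t + 1 * m)| := by
          apply sum_congr rfl
          intro j _
          rw [one_mul, add_comm]
        rw [h2, h1]
        exact h.l1 p p.2
    _ = G ^ D.card := by rw [prod_const, card_univ, Fintype.card_coe]

/-- Young's inequality -/
theorem young {D : Finset ℕ} {q : ℕ} {g : ℕ → ℕ → ℝ} {G : ℝ} (h : YD D q g G) (hG : 0 ≤ G) (hD : D.Nonempty) (K : ℕ) :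
    ∑ m ∈ Fintype.piFinset (fun p : ↥D => range (p : ℕ)), (∑ t ∈ range K, hY D q g m t) ^ 2 ≤
      G ^ (2 * D.card) * K := by
  classical
  set v := K % ∏ p ∈ D, p with hv
  have hd0 : 0 < ∏ p ∈ D, p := prod_pos fun p hp => (h.pr p hp).pos
  have hv1 : v ≤ ∏ p ∈ D, p := (Nat.mod_lt _ hd0).le
  have hv2 : v ≤ K := Nat.mod_le _ _
  have h1 : ∀ m ∈ Fintype.piFinset (fun p : ↥D => range (p : ℕ)), (∑ t ∈ range K, hY D q g m t) ^ 2 ≤
      G ^ D.card * ∑ t ∈ range v, |hY D q g m t| := by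
    intro m _
    rw [hY_red h hD m K, ← sq_abs, sq]
    have h2 : |∑ t ∈ range v, hY D q g m t| ≤ ∑ t ∈ range v, |hY D q g m t| := abs_sum_le_sum_abs _ _
    exact mul_le_mul (h2.trans (hY_inj h m v hv1)) h2 (abs_nonneg _) (by positivity)
  calc _ ≤ ∑ m ∈ Fintype.piFinset (fun p : ↥D => range (p : ℕ)), G ^ D.card * ∑ t ∈ range v, |hY D q g m t| :=
        sum_le_sum h1
    _ = G ^ D.card * ∑ t ∈ range v, ∑ m ∈ Fintype.piFinset (fun p : ↥D => range (p : ℕ)), |hY D q g m t| := by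
        rw [← mul_sum, sum_comm]
    _ ≤ G ^ D.card * ∑ _t ∈ range v, G ^ D.card :=
        mul_le_mul_of_nonneg_left (sum_le_sum fun t _ => hY_avg h t) (by positivity)
    _ = G ^ (2 * D.card) * v := by
        rw [sum_const, card_range, nsmul_eq_mul, two_mul, pow_add]
        ring
    _ ≤ G ^ (2 * D.card) * K := mul_le_mul_of_nonneg_left (by exact_mod_cast hv2) (by positivity)

/-- the covariance -/
noncomputable def kap (q : ℕ) (g : ℕ → ℕ → ℝ) (p t t' : ℕ) : ℝ := (∑ m ∈ range p, g p (m + q * t) * g p (m + q * t')) / p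

theorem kap_sum {D : Finset ℕ} {q : ℕ} {g : ℕ → ℕ → ℝ} {G : ℝ} (h : YD D q g G) (hG : 0 ≤ G) (hD : D.Nonempty) (K : ℕ) :
    ∑ t ∈ range K, ∑ t' ∈ range K, ∏ p ∈ D, kap q g p t t' ≤ (∏ p ∈ D, (G ^ 2 / p)) * K := by
  classical
  have h1 : ∀ t t' : ℕ, ∏ p ∈ D, kap q g p t t' = (∏ p ∈ D, (p : ℝ))⁻¹ *
      ∑ m ∈ Fintype.piFinset (fun p : ↥D => range (p : ℕ)), hY D q g m t * hY D q g m t' := by
    intro t t'
    unfold kap
    rw [prod_div_distrib, div_eq_inv_mul]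
    congr 1
    rw [← prod_coe_sort D (fun p => ∑ m ∈ range p, g p (m + q * t) * g p (m + q * t')), prod_univ_sum]
    apply sum_congr rfl
    intro m _
    unfold hY
    rw [← prod_mul_distrib]
  simp only [h1]
  have h2 : ∑ t ∈ range K, ∑ t' ∈ range K, (∏ p ∈ D, (p : ℝ))⁻¹ *
      ∑ m ∈ Fintype.piFinset (fun p : ↥D => range (p : ℕ)), hY D q g m t * hY D q g m t' =
      (∏ p ∈ D, (p : ℝ))⁻¹ * ∑ m ∈ Fintype.piFinset (fun p : ↥D => range (p : ℕ)), (∑ t ∈ range K, hY D q g m t) ^ 2 := by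
    simp only [← mul_sum]
    congr 1
    rw [sum_comm_cycle]
    apply sum_congr rfl
    intro m _
    rw [sq, sum_mul_sum]
  rw [h2]
  have h3 := young h hG hD K
  have h4 : (0 : ℝ) < ∏ p ∈ D, (p : ℝ) := prod_pos fun p hp => by exact_mod_cast (h.pr p hp).pos
  calc (∏ p ∈ D, (p : ℝ))⁻¹ * _ ≤ (∏ p ∈ D, (p : ℝ))⁻¹ * (G ^ (2 * D.card) * K) :=
        mul_le_mul_of_nonneg_left h3 (inv_nonneg.2 h4.le)
    _ = (∏ p ∈ D, (G ^ 2 / p)) * K := by
        rw [prod_div_distrib, prod_const, pow_mul]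
        field_simp

end Pool.Agent.Y871.BD
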