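import Mathlib
import Pool.Agent.Y871.BD.Young

/-! Correlations of sifted sets, and complete sums. -/

namespace Pool.Agent.Y871.BD
open Finset Polynomial
open Pool.Agent.H373R2.T7

/-- complete sums of products of periodic functions -/
lemma crt_sum (f : ℕ → ℕ → ℝ) (hper : ∀ p n, f p n = f p (n % p)) (D : Finset ℕ) : (∀ p ∈ D, p.Prime) →
    ∀ q : ℕ, (∏ p ∈ D, p) ∣ q → ∑ b ∈ range q, ∏ p ∈ D, f p b = q * ∏ p ∈ D, ((∑ m ∈ range p, f p m) / p) := by
  classical
  induction D using Finset.induction_on with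
  | empty =>
    intro _ q _
    simp
  | insert p0 D' hp0 ih =>
    intro hD q hq
    have hpr : p0.Prime := hD p0 (mem_insert_self _ _)
    have hD' : ∀ p ∈ D', p.Prime := fun p hp => hD p (mem_insert_of_mem hp)
    rw [prod_insert hp0] at hq
    obtain ⟨w, rfl⟩ := hq
    set d' := ∏ p ∈ D', p with hd'
    have hcop : Nat.Coprime p0 d' := by
      rw [hd']
      apply Nat.Coprime.prod_right
      intro p hp
      exact (Nat.coprime_primes hpr (hD' p hp)).2 (fun h' => hp0 (h' ▸ hp))
    rw [show p0 * d' * w = d' * (p0 * w) by ring, sum_blocks, sum_comm]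
    have key : ∀ t s : ℕ, ∏ p ∈ insert p0 D', f p (d' * s + t) = (∏ p ∈ D', f p t) * f p0 (t + d' * s) := by
      intro t s
      rw [prod_insert hp0, mul_comm]
      congr 1
      · apply prod_congr rfl
        intro p hp
        obtain ⟨v, hv⟩ : (p : ℕ) ∣ d' := dvd_prod_of_mem (fun p => p) hp
        rw [hper p (d' * s + t), hper p t]
        congr 1
        rw [hv, show p * v * s + t = t + p * (v * s) by ring, Nat.add_mul_mod_self_left]
      · rw [add_comm]
    have h1 : ∀ t : ℕ, ∑ s ∈ range (p0 * w), ∏ p ∈ insert p0 D', f p (d' * s + t) =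
        (∏ p ∈ D', f p t) * (w * ∑ m ∈ range p0, f p0 m) := by
      intro t
      rw [sum_congr rfl fun s _ => key t s, ← mul_sum, sum_blocks]
      congr 1
      have h2 : ∀ s' : ℕ, ∑ s ∈ range p0, f p0 (t + d' * (p0 * s' + s)) = ∑ m ∈ range p0, f p0 m := by
        intro s'
        rw [← sum_res p0 hpr.pos (f p0) (hper p0) (t + d' * (p0 * s')) d' hcop]
        apply sum_congr rfl
        intro s _
        congr 1
        ring
      rw [sum_congr rfl fun s' _ => h2 s', sum_const, card_range, nsmul_eq_mul]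
    rw [sum_congr rfl fun t _ => h1 t, ← sum_mul, ih hD' d' (dvd_refl _), prod_insert hp0]
    have hp0r : (p0 : ℝ) ≠ 0 := by exact_mod_cast hpr.ne_zero
    push_cast
    field_simp

open Classical in
/-- the mean zero function of the condition -/
noncomputable def gR (R : ℕ → ℕ → Prop) (p n : ℕ) : ℝ := (nuB R p : ℝ) / p - if R p n then 1 else 0

lemma gR_per (R : ℕ → ℕ → Prop) (c : ℕ) (hR : PerB R c) (p n : ℕ) : gR R p n = gR R p (n % p) := by
  unfold gR
  have := hR.per p n
  by_cases h : R p n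
  · rw [if_pos h, if_pos (this.1 h)]
  · rw [if_neg h, if_neg (fun h' => h (this.2 h'))]

lemma nuB_sum (R : ℕ → ℕ → Prop) (p : ℕ) [DecidablePred (fun n => R p n)] :
    ∑ m ∈ range p, (if R p m then (1 : ℝ) else 0) = nuB R p := by
  classical
  unfold nuB
  rw [← sum_filter, sum_const, nsmul_eq_mul, mul_one]
  congr 1
  apply congrArg
  ext n
  simp only [mem_filter]

lemma gR_mean (R : ℕ → ℕ → Prop) (p : ℕ) (hp : p.Prime) : ∑ m ∈ range p, gR R p m = 0 := by
  classical
  unfold gR
  rw [sum_sub_distrib, nuB_sum R p, sum_const, card_range, nsmul_eq_mul]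
  have hp0 : (p : ℝ) ≠ 0 := by exact_mod_cast hp.ne_zero
  field_simp
  ring

lemma gR_l1 (R : ℕ → ℕ → Prop) (c : ℕ) (hR : PerB R c) (p : ℕ) (hp : p.Prime) : ∑ m ∈ range p, |gR R p m| ≤ 2 * c := by
  classical
  have hp0 : (0 : ℝ) < p := by exact_mod_cast hp.pos
  have h1 : ∀ m ∈ range p, |gR R p m| ≤ (nuB R p : ℝ) / p + if R p m then 1 else 0 := by
    intro m _
    unfold gR
    have h2 : 0 ≤ (nuB R p : ℝ) / p := by positivity
    split_ifs with h
    · rw [abs_le]; constructor <;> linarith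
    · rw [sub_zero, add_zero, abs_of_nonneg h2]
  refine (sum_le_sum h1).trans ?_
  rw [sum_add_distrib, nuB_sum R p, sum_const, card_range, nsmul_eq_mul, mul_div_cancel₀ _ hp0.ne']
  have := hR.few p hp
  have h3 : (nuB R p : ℝ) ≤ c := by exact_mod_cast this
  linarith

lemma gR_YD (R : ℕ → ℕ → Prop) (c : ℕ) (hR : PerB R c) (z q : ℕ) :
    YD ((pz z).filter (fun p => ¬ p ∣ q)) q (gR R) (2 * c) :=
  ⟨fun p hp => (mem_pz.1 (mem_filter.1 hp).1).2, fun p hp => (mem_filter.1 hp).2, gR_per R c hR,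
    fun p hp => gR_mean R p (mem_pz.1 (mem_filter.1 hp).1).2,
    fun p hp => gR_l1 R c hR p (mem_pz.1 (mem_filter.1 hp).1).2⟩

/-- the pair condition -/
def Rj (R : ℕ → ℕ → Prop) (q j p n : ℕ) : Prop := R p n ∨ R p (n + q * j)

lemma Rj_perB (R : ℕ → ℕ → Prop) (c : ℕ) (hR : PerB R c) (q j : ℕ) : PerB (Rj R q j) (2 * c) := by
  classical
  refine ⟨fun p n => ?_, fun p hp => ?_⟩
  · unfold Rj
    rw [hR.per p n, hR.per p (n + q * j), hR.per p (n % p + q * j), Nat.mod_add_mod]
  · have h1 : (nuB (Rj R q j) p : ℝ) ≤ nuB R p + nuB R p := by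
      rw [← nuB_sum (Rj R q j) p, ← nuB_sum R p]
      have h2 := sum_res p hp.pos (fun n => if R p n then (1 : ℝ) else 0) (fun n => by
        simp only [hR.per p n]) (q * j) 1 (Nat.coprime_one_right _)
      have h3 : ∑ m ∈ range p, (if R p (m + q * j) then (1 : ℝ) else 0) = ∑ m ∈ range p, (if R p m then (1 : ℝ) else 0) := by
        rw [← h2]
        apply sum_congr rfl
        intro m _
        rw [one_mul, add_comm]
      calc ∑ m ∈ range p, (if Rj R q j p m then (1 : ℝ) else 0)
          ≤ ∑ m ∈ range p, ((if R p m then (1 : ℝ) else 0) + (if R p (m + q * j) then (1 : ℝ) else 0)) := by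
            apply sum_le_sum
            intro m _
            unfold Rj
            by_cases h4 : R p m <;> by_cases h5 : R p (m + q * j) <;> simp [h4, h5]
        _ = _ := by rw [sum_add_distrib, h3]
    have h2 : nuB (Rj R q j) p ≤ nuB R p + nuB R p := by exact_mod_cast h1
    have := hR.few p hp
    omega

/-- the pair density -/
lemma pair_dens (R : ℕ → ℕ → Prop) (c : ℕ) (hR : PerB R c) (q t j p : ℕ) (hp : p.Prime) :
    1 - (nuB (Rj R q j) p : ℝ) / p = kap q (gR R) p t (t + j) + (1 - (nuB R p : ℝ) / p) ^ 2 := by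
  classical
  have hp0 : (0 : ℝ) < p := by exact_mod_cast hp.pos
  set α := 1 - (nuB R p : ℝ) / p with hα
  have hg : ∀ n, (if R p n then (0 : ℝ) else 1) = α + gR R p n := by
    intro n
    unfold gR
    split_ifs <;> rw [hα] <;> ring
  have h1 : ∑ m ∈ range p, (if Rj R q j p m then (0 : ℝ) else 1) = p - nuB (Rj R q j) p := by
    rw [← nuB_sum (Rj R q j) p, eq_sub_iff_add_eq, ← sum_add_distrib]
    have : ∀ m ∈ range p, ((if Rj R q j p m then (0 : ℝ) else 1) + if Rj R q j p m then (1 : ℝ) else 0) = 1 := by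
      intro m _
      split_ifs <;> ring
    rw [sum_congr rfl this, sum_const, card_range, nsmul_eq_mul, mul_one]
  have h2 : ∀ m, (if Rj R q j p m then (0 : ℝ) else 1) = (α + gR R p m) * (α + gR R p (m + q * j)) := by
    intro m
    rw [← hg, ← hg]
    unfold Rj
    by_cases h4 : R p m <;> by_cases h5 : R p (m + q * j) <;> simp [h4, h5]
  have hgp := gR_per R c hR p
  have h3 := sum_res p hp.pos (fun n => (α + gR R p n) * (α + gR R p (n + q * j))) (fun n => by
    rw [hgp n, hgp (n + q * j), hgp (n % p + q * j), Nat.mod_add_mod, ← hgp n]) (q * t) 1 (Nat.coprime_one_right _)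
  have h4 : ∑ m ∈ range p, (α + gR R p m) * (α + gR R p (m + q * j)) =
      ∑ m ∈ range p, (α + gR R p (m + q * t)) * (α + gR R p (m + q * (t + j))) := by
    rw [← h3]
    apply sum_congr rfl
    intro m _
    rw [one_mul, show q * t + m = m + q * t from add_comm _ _, show m + q * t + q * j = m + q * (t + j) by ring]
  have h5 : ∀ s, ∑ m ∈ range p, gR R p (m + q * s) = 0 := by
    intro s
    rw [← gR_mean R p hp, ← sum_res p hp.pos (gR R p) hgp (q * s) 1 (Nat.coprime_one_right _)]
    apply sum_congr rfl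
    intro m _
    rw [one_mul, add_comm]
  have h6 : ∑ m ∈ range p, (α + gR R p (m + q * t)) * (α + gR R p (m + q * (t + j))) =
      p * α ^ 2 + ∑ m ∈ range p, gR R p (m + q * t) * gR R p (m + q * (t + j)) := by
    have h7 : ∀ m ∈ range p, (α + gR R p (m + q * t)) * (α + gR R p (m + q * (t + j))) =
        α ^ 2 + α * gR R p (m + q * t) + α * gR R p (m + q * (t + j)) + gR R p (m + q * t) * gR R p (m + q * (t + j)) := by
      intro m _
      ring
    rw [sum_congr rfl h7, sum_add_distrib, sum_add_distrib, sum_add_distrib, ← mul_sum, ← mul_sum, h5, h5, sum_const,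
      card_range, nsmul_eq_mul]
    ring
  unfold kap
  have h8 : (p : ℝ) - nuB (Rj R q j) p = p * α ^ 2 + ∑ m ∈ range p, gR R p (m + q * t) * gR R p (m + q * (t + j)) := by
    rw [← h1, sum_congr rfl fun m _ => h2 m, h4, h6]
  have h9 : 1 - (nuB (Rj R q j) p : ℝ) / p = ((p : ℝ) - nuB (Rj R q j) p) / p := by
    field_simp
  rw [h9, h8]
  field_simp
  ring

end Pool.Agent.Y871.BD
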