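import Mathlib
import Pool.Agent.Y871.BD.Cov

/-! The mean value of the pair densities. -/

namespace Pool.Agent.Y871.BD
open Finset Polynomial
open Pool.Agent.H373R2.T7

lemma kap_symm (q : ℕ) (g : ℕ → ℕ → ℝ) (p t t' : ℕ) : kap q g p t t' = kap q g p t' t := by
  unfold kap
  congr 1
  exact sum_congr rfl fun m _ => mul_comm _ _

/-- the double sum -/
theorem dbl (P : Finset ℕ) (q : ℕ) (g : ℕ → ℕ → ℝ) (G : ℝ) (h : YD P q g G) (hG : 0 ≤ G) (α : ℕ → ℝ)
    (hα0 : ∀ p ∈ P, 0 ≤ α p) (hα1 : ∀ p ∈ P, α p ≤ 1) (K : ℕ) :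
    ∑ t ∈ range K, ∑ t' ∈ range K, ∏ p ∈ P, (kap q g p t t' + α p ^ 2) ≤
      (K : ℝ) ^ 2 * (∏ p ∈ P, α p) ^ 2 + K * ∏ p ∈ P, (1 + G ^ 2 / p) := by
  classical
  have h1 : ∑ t ∈ range K, ∑ t' ∈ range K, ∏ p ∈ P, (kap q g p t t' + α p ^ 2) =
      ∑ D ∈ P.powerset, (∏ p ∈ P \ D, α p ^ 2) * ∑ t ∈ range K, ∑ t' ∈ range K, ∏ p ∈ D, kap q g p t t' := by
    simp only [prod_add, mul_sum]
    rw [sum_comm_cycle]
    apply sum_congr rfl
    intro D _
    apply sum_congr rfl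
    intro t _
    apply sum_congr rfl
    intro t' _
    ring
  have h2 : ∀ D ∈ P.powerset, (∏ p ∈ P \ D, α p ^ 2) * ∑ t ∈ range K, ∑ t' ∈ range K, ∏ p ∈ D, kap q g p t t' ≤
      (if D = ∅ then (K : ℝ) ^ 2 * (∏ p ∈ P, α p) ^ 2 else 0) + K * ∏ p ∈ D, (G ^ 2 / p) := by
    intro D hD
    rw [mem_powerset] at hD
    have h3 : 0 ≤ ∏ p ∈ D, (G ^ 2 / (p : ℝ)) := prod_nonneg fun p _ => by positivity
    have h3' : 0 ≤ (K : ℝ) * ∏ p ∈ D, (G ^ 2 / (p : ℝ)) := by positivity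
    by_cases hD0 : D = ∅
    · rw [if_pos hD0, hD0]
      simp only [prod_empty, sum_const, card_range, nsmul_eq_mul, mul_one, sdiff_empty, prod_pow]
      have h9 : (0 : ℝ) ≤ K := Nat.cast_nonneg _
      nlinarith
    · rw [if_neg hD0, zero_add]
      have h4 : 0 ≤ ∏ p ∈ P \ D, α p ^ 2 := prod_nonneg fun p _ => sq_nonneg _
      have h5 : ∏ p ∈ P \ D, α p ^ 2 ≤ 1 := prod_le_one (fun p _ => sq_nonneg _) (fun p hp => by
        have hp' := (mem_sdiff.1 hp).1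
        exact pow_le_one₀ (hα0 p hp') (hα1 p hp'))
      have h6 := kap_sum (h.mono hD) hG (nonempty_iff_ne_empty.2 hD0) K
      calc (∏ p ∈ P \ D, α p ^ 2) * ∑ t ∈ range K, ∑ t' ∈ range K, ∏ p ∈ D, kap q g p t t'
          ≤ (∏ p ∈ P \ D, α p ^ 2) * ((∏ p ∈ D, (G ^ 2 / p)) * K) := mul_le_mul_of_nonneg_left h6 h4
        _ ≤ 1 * ((∏ p ∈ D, (G ^ 2 / p)) * K) := mul_le_mul_of_nonneg_right h5 (by positivity)
        _ = _ := by ring
  rw [h1]
  refine (sum_le_sum h2).trans (le_of_eq ?_)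
  rw [sum_add_distrib, sum_ite_eq' P.powerset ∅ (fun _ => (K : ℝ) ^ 2 * (∏ p ∈ P, α p) ^ 2),
    if_pos (empty_mem_powerset _), ← mul_sum]
  congr 2
  have h7 := prod_add (fun p : ℕ => G ^ 2 / (p : ℝ)) (fun _ => (1 : ℝ)) P
  simp only [prod_const_one, mul_one] at h7
  rw [← h7]
  exact prod_congr rfl fun p _ => add_comm _ _

/-- triangular sums -/
lemma tri (f : ℕ → ℕ → ℝ) (S : ℕ → ℝ) (hs : ∀ t t', f t t' = f t' t) (hS : ∀ t j, f t (t + (j + 1)) = S (j + 1))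
    (hd : ∀ t, 0 ≤ f t t) (K : ℕ) :
    2 * ∑ j ∈ range K, ((K : ℝ) - 1 - j) * S (j + 1) ≤ ∑ t ∈ range K, ∑ t' ∈ range K, f t t' := by
  induction K with
  | zero => simp
  | succ K ih =>
    have h1 : ∑ t ∈ range K, f t K = ∑ j ∈ range K, S (j + 1) := by
      rw [← sum_range_reflect]
      apply sum_congr rfl
      intro j hj
      rw [mem_range] at hj
      have h2 := hS (K - 1 - j) j
      rw [show K - 1 - j + (j + 1) = K by omega] at h2
      exact h2
    have h2 : ∑ t ∈ range (K + 1), ∑ t' ∈ range (K + 1), f t t' =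
        ∑ t ∈ range K, ∑ t' ∈ range K, f t t' + 2 * ∑ t ∈ range K, f t K + f K K := by
      simp only [sum_range_succ, sum_add_distrib]
      have : ∑ t' ∈ range K, f K t' = ∑ t ∈ range K, f t K := sum_congr rfl fun t _ => hs _ _
      rw [this]
      ring
    have h3 : ∑ j ∈ range (K + 1), (((K + 1 : ℕ) : ℝ) - 1 - j) * S (j + 1) =
        ∑ j ∈ range K, ((K : ℝ) - 1 - j) * S (j + 1) + ∑ j ∈ range K, S (j + 1) := by
      rw [sum_range_succ, ← sum_add_distrib]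
      push_cast
      have : ((K : ℝ) + 1 - 1 - K) * S (K + 1) = 0 := by ring
      rw [this, add_zero]
      apply sum_congr rfl
      intro j _
      ring
    rw [h2, h3, h1]
    have := hd K
    linarith

/-- the density of a pair, away from the modulus -/
noncomputable def Sj (R : ℕ → ℕ → Prop) (z q j : ℕ) : ℝ :=
  ∏ p ∈ (pz z).filter (fun p => ¬ p ∣ q), (1 - (nuB (Rj R q j) p : ℝ) / p)

/-- the density, away from the modulus -/
noncomputable def Dq (R : ℕ → ℕ → Prop) (z q : ℕ) : ℝ :=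
  ∏ p ∈ (pz z).filter (fun p => ¬ p ∣ q), (1 - (nuB R p : ℝ) / p)

/-- the density, in the modulus -/
noncomputable def Wq (R : ℕ → ℕ → Prop) (z q : ℕ) : ℝ :=
  ∏ p ∈ (pz z).filter (fun p => p ∣ q), (1 - (nuB R p : ℝ) / p)

lemma al_bd (R : ℕ → ℕ → Prop) (p : ℕ) (hp : p.Prime) : 0 ≤ 1 - (nuB R p : ℝ) / p ∧ 1 - (nuB R p : ℝ) / p ≤ 1 := by
  have hp0 : (0 : ℝ) < p := by exact_mod_cast hp.pos
  have h1 : (nuB R p : ℝ) / p ≤ 1 := by rw [div_le_one hp0]; exact_mod_cast nuB_le R p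
  have h2 : 0 ≤ (nuB R p : ℝ) / p := by positivity
  constructor <;> linarith

lemma Dq_bd (R : ℕ → ℕ → Prop) (z q : ℕ) : 0 ≤ Dq R z q ∧ Dq R z q ≤ 1 := by
  unfold Dq
  constructor
  · exact prod_nonneg fun p hp => (al_bd R p (mem_pz.1 (mem_filter.1 hp).1).2).1
  · exact prod_le_one (fun p hp => (al_bd R p (mem_pz.1 (mem_filter.1 hp).1).2).1)
      (fun p hp => (al_bd R p (mem_pz.1 (mem_filter.1 hp).1).2).2)

lemma Wq_bd (R : ℕ → ℕ → Prop) (z q : ℕ) : 0 ≤ Wq R z q ∧ Wq R z q ≤ 1 := by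
  unfold Wq
  constructor
  · exact prod_nonneg fun p hp => (al_bd R p (mem_pz.1 (mem_filter.1 hp).1).2).1
  · exact prod_le_one (fun p hp => (al_bd R p (mem_pz.1 (mem_filter.1 hp).1).2).1)
      (fun p hp => (al_bd R p (mem_pz.1 (mem_filter.1 hp).1).2).2)

lemma WD_eq (R : ℕ → ℕ → Prop) (z q : ℕ) : ∏ p ∈ pz z, (1 - (nuB R p : ℝ) / p) = Wq R z q * Dq R z q := by
  unfold Wq Dq
  exact (prod_filter_mul_prod_filter_not _ _ _).symm

lemma one_le_prd (s : Finset ℕ) (f : ℕ → ℝ) (h : ∀ p ∈ s, 1 ≤ f p) : 1 ≤ ∏ p ∈ s, f p := by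
  calc (1 : ℝ) = ∏ _p ∈ s, (1 : ℝ) := by rw [prod_const_one]
    _ ≤ _ := prod_le_prod (fun _ _ => zero_le_one) h

/-- the product `Π` -/
noncomputable def Pi4 (c z : ℕ) : ℝ := ∏ p ∈ pz z, (1 + (2 * (c : ℝ)) ^ 2 / p)

lemma Pi4_ge (c z q : ℕ) : ∏ p ∈ (pz z).filter (fun p => ¬ p ∣ q), (1 + (2 * (c : ℝ)) ^ 2 / p) ≤ Pi4 c z := by
  unfold Pi4
  rw [← prod_filter_mul_prod_filter_not (pz z) (fun p => p ∣ q)]
  apply le_mul_of_one_le_left
  · exact prod_nonneg fun p _ => by positivity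
  · exact one_le_prd _ _ fun p _ => by
      have : 0 ≤ (2 * (c : ℝ)) ^ 2 / p := by positivity
      linarith

lemma Pi4_one (c z : ℕ) : 1 ≤ Pi4 c z := one_le_prd _ _ fun p _ => by
      have : 0 ≤ (2 * (c : ℝ)) ^ 2 / p := by positivity
      linarith

theorem Sj_sum (R : ℕ → ℕ → Prop) (c : ℕ) (hR : PerB R c) (z q K : ℕ) :
    2 * ∑ j ∈ range K, ((K : ℝ) - 1 - j) * Sj R z q (j + 1) ≤ (K : ℝ) ^ 2 * Dq R z q ^ 2 + K * Pi4 c z := by
  classical
  set P := (pz z).filter (fun p => ¬ p ∣ q) with hP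
  have hPp : ∀ p ∈ P, p.Prime := fun p hp => (mem_pz.1 (mem_filter.1 hp).1).2
  set f : ℕ → ℕ → ℝ := fun t t' => ∏ p ∈ P, (kap q (gR R) p t t' + (1 - (nuB R p : ℝ) / p) ^ 2) with hf
  have h1 := tri f (Sj R z q) (fun t t' => by
      rw [hf]
      exact prod_congr rfl fun p _ => by rw [kap_symm]) (fun t j => by
      rw [hf]
      unfold Sj
      exact prod_congr rfl fun p hp => (pair_dens R c hR q t (j + 1) p (hPp p hp)).symm) (fun t => by
      rw [hf]
      apply prod_nonneg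
      intro p hp
      have := pair_dens R c hR q t 0 p (hPp p hp)
      rw [Nat.add_zero] at this
      rw [← this]
      exact (al_bd _ p (hPp p hp)).1) K
  have h2 := dbl P q (gR R) (2 * c) (gR_YD R c hR z q) (by positivity) (fun p => 1 - (nuB R p : ℝ) / p)
    (fun p hp => (al_bd R p (hPp p hp)).1) (fun p hp => (al_bd R p (hPp p hp)).2) K
  refine h1.trans (h2.trans ?_)
  apply add_le_add
  · exact le_rfl
  · exact mul_le_mul_of_nonneg_left (Pi4_ge c z q) (Nat.cast_nonneg _)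

/-- the pair density factorizes -/
lemma Sj_full (R : ℕ → ℕ → Prop) (c : ℕ) (hR : PerB R c) (z q j : ℕ) :
    ∏ p ∈ pz z, (1 - (nuB (Rj R q j) p : ℝ) / p) = Wq R z q * Sj R z q j := by
  classical
  unfold Wq Sj
  rw [← prod_filter_mul_prod_filter_not (pz z) (fun p => p ∣ q)]
  congr 1
  apply prod_congr rfl
  intro p hp
  rw [mem_filter] at hp
  have h1 : nuB (Rj R q j) p = nuB R p := by
    unfold nuB
    apply congrArg
    ext n
    simp only [mem_filter]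
    apply and_congr_right
    intro _
    unfold Rj
    have h2 : R p (n + q * j) ↔ R p n := by
      rw [hR.per p (n + q * j), hR.per p n]
      obtain ⟨w, hw⟩ := hp.2
      rw [hw, mul_assoc, Nat.add_mul_mod_self_left]
    rw [h2, or_self]
  rw [h1]

open Classical in
/-- the number of good classes -/
lemma good_count (R : ℕ → ℕ → Prop) (c : ℕ) (hR : PerB R c) (z q : ℕ) :
    (((range q).filter (fun b => ∀ p ∈ pz z, p ∣ q → ¬ R p b)).card : ℝ) = q * Wq R z q := by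
  set P := (pz z).filter (fun p => p ∣ q) with hP
  have hPp : ∀ p ∈ P, p.Prime := fun p hp => (mem_pz.1 (mem_filter.1 hp).1).2
  rcases Nat.eq_zero_or_pos q with hq | hq
  · subst hq; simp
  have hdvd : (∏ p ∈ P, p) ∣ q := by
    apply prod_primes_dvd
    · intro p hp
      exact (hPp p hp).prime
    · intro p hp
      exact (mem_filter.1 hp).2
  have h1 := crt_sum (fun p n => if R p n then (0 : ℝ) else 1) (fun p n => by simp only [hR.per p n]) P hPp q hdvd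
  have h2 : ∀ b, ∏ p ∈ P, (if R p b then (0 : ℝ) else 1) = if ∀ p ∈ pz z, p ∣ q → ¬ R p b then 1 else 0 := by
    intro b
    by_cases h : ∀ p ∈ pz z, p ∣ q → ¬ R p b
    · rw [if_pos h]
      apply prod_eq_one
      intro p hp
      rw [hP, mem_filter] at hp
      rw [if_neg (h p hp.1 hp.2)]
    · rw [if_neg h]
      push Not at h
      obtain ⟨p, hp1, hp2, hp3⟩ := h
      apply prod_eq_zero (mem_filter.2 ⟨hp1, hp2⟩)
      rw [if_pos hp3]
  rw [card_filter]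
  push_cast
  simp only [h2] at h1
  rw [h1]
  congr 1
  unfold Wq
  apply prod_congr rfl
  intro p hp
  have hp0 : (0 : ℝ) < p := by exact_mod_cast (hPp p hp).pos
  have h3 : ∑ m ∈ range p, (if R p m then (0 : ℝ) else 1) = p - nuB R p := by
    rw [← nuB_sum R p, eq_sub_iff_add_eq, ← sum_add_distrib]
    have : ∀ m ∈ range p, ((if R p m then (0 : ℝ) else 1) + if R p m then (1 : ℝ) else 0) = 1 := by
      intro m _
      split_ifs <;> ring
    rw [sum_congr rfl this, sum_const, card_range, nsmul_eq_mul, mul_one]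
  rw [h3]
  field_simp

end Pool.Agent.Y871.BD
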