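import Mathlib
import Pool.Agent.Y871.BD.Dbl

/-! The variance of a sifted set over the classes of a modulus. -/

namespace Pool.Agent.Y871.BD
open Finset Polynomial
open Pool.Agent.H373R2.T7

open Classical in
/-- upper bounds for all shorter intervals -/
theorem cnt_up (c E U : ℕ) (hc : 1 ≤ c) : ∃ N0 : ℕ, ∀ x : ℕ, N0 ≤ x → ∀ z : ℕ, 1 ≤ z → (z : ℝ) ≤ Real.log x ^ E →
    ∀ R : ℕ → ℕ → Prop, PerB R c → ∀ y : ℕ, y ≤ x →
      (((Icc 1 y).filter (fun n : ℕ => ∀ p ∈ pz z, ¬ R p n)).card : ℝ) ≤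
        y * ∏ p ∈ pz z, (1 - (nuB R p : ℝ) / p) + x / Real.log x ^ U := by
  obtain ⟨N1, h1⟩ := sys_count c (E + 1) (U + 1) hc
  have hlog : Filter.Tendsto (fun x : ℕ => Real.log (x : ℝ)) Filter.atTop Filter.atTop :=
    Real.tendsto_log_atTop.comp tendsto_natCast_atTop_atTop
  have hev := (hlog.eventually_ge_atTop (2 + 2 * 2 ^ E + 2 ^ (U + 1))).and
    ((isLittleO_log_rpow_rpow_atTop (U : ℝ) (show (0 : ℝ) < 1 / 2 by norm_num)).bound (show (0 : ℝ) < 1 by norm_num) |>
      (tendsto_natCast_atTop_atTop (R := ℝ)).eventually)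
  obtain ⟨N2, h2⟩ := Filter.eventually_atTop.1 hev
  refine ⟨max (max (N1 ^ 2) N2) 3, fun x hx z hz hzE R hR y hy => ?_⟩
  have hx1 : N1 ^ 2 ≤ x := (le_max_left _ _).trans ((le_max_left _ _).trans hx)
  have hx2 : N2 ≤ x := (le_max_right _ _).trans ((le_max_left _ _).trans hx)
  have hx3 : 3 ≤ x := (le_max_right _ _).trans hx
  have hx0 : (0 : ℝ) < x := by
    have : (3 : ℝ) ≤ x := by exact_mod_cast hx3
    linarith
  obtain ⟨a1, a2⟩ := h2 x hx2
  set L := Real.log x with hLd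
  have p1 : (0 : ℝ) < 2 * 2 ^ E := by positivity
  have p2 : (0 : ℝ) < 2 ^ (U + 1) := by positivity
  have hL0 : 0 < L := by linarith
  have hLU : 0 < L ^ U := by positivity
  rw [Real.norm_of_nonneg (by positivity), Real.norm_of_nonneg (by positivity), Real.rpow_natCast, one_mul,
    ← Real.sqrt_eq_rpow] at a2
  have hprod : 0 ≤ ∏ p ∈ pz z, (1 - (nuB R p : ℝ) / p) := prod_nonneg fun p hp => (al_bd R p (mem_pz.1 hp).2).1
  have hss : √(x : ℝ) * √(x : ℝ) = x := Real.mul_self_sqrt hx0.le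
  have hs0 : 0 < √(x : ℝ) := Real.sqrt_pos.2 hx0
  by_cases h : (y : ℝ) ≤ √x
  · have h3 : (((Icc 1 y).filter (fun n : ℕ => ∀ p ∈ pz z, ¬ R p n)).card : ℝ) ≤ y := by
      have : ((Icc 1 y).filter (fun n : ℕ => ∀ p ∈ pz z, ¬ R p n)).card ≤ y := (card_filter_le _ _).trans (by simp)
      exact_mod_cast this
    have h4 : √(x : ℝ) ≤ x / L ^ U := by
      rw [le_div_iff₀ hLU]
      calc √(x : ℝ) * L ^ U ≤ √(x : ℝ) * √(x : ℝ) := mul_le_mul_of_nonneg_left a2 hs0.le
        _ = x := hss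
    have h5 : 0 ≤ (y : ℝ) * ∏ p ∈ pz z, (1 - (nuB R p : ℝ) / p) := mul_nonneg (Nat.cast_nonneg _) hprod
    linarith
  · push Not at h
    have hy0 : (0 : ℝ) < y := lt_trans hs0 h
    have hN1y : N1 ≤ y := by
      have h3 : (N1 : ℝ) ≤ √x := by
        apply Real.le_sqrt_of_sq_le
        exact_mod_cast hx1
      have h4 : (N1 : ℝ) ≤ y := h3.trans h.le
      exact_mod_cast h4
    have hly : L / 2 ≤ Real.log y := by
      have := Real.log_le_log hs0 h.le
      rwa [Real.log_sqrt hx0.le] at this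
    have hly0 : 0 < Real.log (y : ℝ) := by linarith
    have hz2 : (z : ℝ) ≤ Real.log y ^ (E + 1) := by
      refine hzE.trans ?_
      calc L ^ E ≤ (2 * Real.log y) ^ E := pow_le_pow_left₀ hL0.le (by linarith) _
        _ = 2 ^ E * Real.log y ^ E := mul_pow _ _ _
        _ ≤ Real.log y * Real.log y ^ E := mul_le_mul_of_nonneg_right (by linarith) (by positivity)
        _ = Real.log y ^ (E + 1) := by rw [pow_succ]; ring
    have h3 := (abs_le.1 (h1 y hN1y z hz hz2 R hR)).2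
    have h4 : (y : ℝ) / Real.log y ^ (U + 1) ≤ x / L ^ U := by
      have h5 : L ^ U ≤ Real.log y ^ (U + 1) := by
        have h6 : L ^ (U + 1) ≤ 2 ^ (U + 1) * Real.log y ^ (U + 1) := by
          rw [← mul_pow]
          exact pow_le_pow_left₀ hL0.le (by linarith) _
        have h7 : L ^ (U + 1) ≤ L * Real.log y ^ (U + 1) :=
          h6.trans (mul_le_mul_of_nonneg_right (by linarith) (by positivity))
        rw [pow_succ, mul_comm] at h7
        exact le_of_mul_le_mul_left h7 hL0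
      exact div_le_div₀ hx0.le (by exact_mod_cast hy) hLU h5
    linarith

open Classical in
/-- pairs in the same class -/
lemma pairs_le (R : ℕ → ℕ → Prop) (z q x K : ℕ) (hK : x ≤ q * K) :
    ∑ b ∈ range q, (((Icc 1 x).filter (fun n : ℕ => n % q = b ∧ ∀ p ∈ pz z, ¬ R p n)).card : ℝ) ^ 2 ≤
      (((Icc 1 x).filter (fun n : ℕ => ∀ p ∈ pz z, ¬ R p n)).card : ℝ) +
      2 * ∑ j ∈ range K, (((Icc 1 (x - q * (j + 1))).filter (fun n : ℕ => ∀ p ∈ pz z, ¬ Rj R q (j + 1) p n)).card : ℝ) := by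
  set S := (Icc 1 x).filter (fun n : ℕ => ∀ p ∈ pz z, ¬ R p n) with hS
  set Pr := (S ×ˢ S).filter (fun u : ℕ × ℕ => u.1 % q = u.2 % q) with hPr
  set T : Finset (ℕ × ℕ) := (range K ×ˢ Icc 1 x).filter (fun u => u.2 ∈ (Icc 1 (x - q * (u.1 + 1))).filter
    (fun n : ℕ => ∀ p ∈ pz z, ¬ Rj R q (u.1 + 1) p n)) with hT
  have hTc : T.card = ∑ j ∈ range K, ((Icc 1 (x - q * (j + 1))).filter (fun n : ℕ => ∀ p ∈ pz z, ¬ Rj R q (j + 1) p n)).card := by
    rw [hT, card_filter, sum_product]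
    apply sum_congr rfl
    intro j _
    rw [← card_filter]
    apply congrArg
    ext n
    simp only [mem_filter, mem_Icc]
    constructor
    · rintro ⟨_, h⟩
      exact h
    · rintro h
      exact ⟨⟨h.1.1, h.1.2.trans (Nat.sub_le _ _)⟩, h⟩
  have h1 : ∑ b ∈ range q, (((Icc 1 x).filter (fun n : ℕ => n % q = b ∧ ∀ p ∈ pz z, ¬ R p n)).card) ^ 2 ≤ Pr.card := by
    have h2 : ∀ b ∈ range q, (((Icc 1 x).filter (fun n : ℕ => n % q = b ∧ ∀ p ∈ pz z, ¬ R p n)).card) ^ 2 =
        (Pr.filter (fun u => u.1 % q = b)).card := by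
      intro b _
      rw [sq, ← card_product]
      apply congrArg
      ext u
      simp only [hPr, hS, mem_filter, mem_product, mem_Icc]
      constructor
      · rintro ⟨⟨a1, a2, a3⟩, ⟨b1, b2, b3⟩⟩
        exact ⟨⟨⟨⟨a1, a3⟩, ⟨b1, b3⟩⟩, a2.trans b2.symm⟩, a2⟩
      · rintro ⟨⟨⟨⟨a1, a3⟩, ⟨b1, b3⟩⟩, h3⟩, h4⟩
        exact ⟨⟨a1, h4, a3⟩, ⟨b1, h3.symm.trans h4, b3⟩⟩
    rw [sum_congr rfl h2]
    have h3 : ∑ b ∈ range q, (Pr.filter (fun u => u.1 % q = b)).card = ∑ b ∈ range q, ∑ u ∈ Pr, if u.1 % q = b then 1 else 0 := by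
      apply sum_congr rfl
      intro b _
      rw [card_filter]
    rw [h3, sum_comm, card_eq_sum_ones]
    apply sum_le_sum
    intro u _
    rw [sum_ite_eq]
    split_ifs <;> omega
  have hcov : Pr ⊆ S.image (fun n => (n, n)) ∪ (T.image (fun u => (u.2, u.2 + q * (u.1 + 1))) ∪
      T.image (fun u => (u.2 + q * (u.1 + 1), u.2))) := by
    rintro ⟨n, m⟩ hu
    rw [hPr, mem_filter, mem_product] at hu
    obtain ⟨⟨hn, hm⟩, hnm⟩ := hu
    simp only at hn hm hnm
    have key : ∀ n m : ℕ, n ∈ S → m ∈ S → n % q = m % q → n < m → ∃ j, (j, n) ∈ T ∧ m = n + q * (j + 1) := by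
      intro n m hn hm hnm hlt
      rw [hS, mem_filter, mem_Icc] at hn hm
      obtain ⟨w, hw⟩ := (Nat.modEq_iff_dvd' hlt.le).1 hnm
      have hw0 : w ≠ 0 := by
        rintro rfl
        omega
      obtain ⟨j, rfl⟩ := Nat.exists_eq_succ_of_ne_zero hw0
      have hmn : m = n + q * (j + 1) := by
        have : m - n = q * (j + 1) := hw
        omega
      refine ⟨j, ?_, hmn⟩
      rw [hT, mem_filter, mem_product, mem_range, mem_filter, mem_Icc, mem_Icc]
      have h5 : q * (j + 1) < q * K := by omega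
      have h6 : j + 1 < K := lt_of_mul_lt_mul_left h5 (Nat.zero_le _)
      refine ⟨⟨by omega, hn.1⟩, ⟨hn.1.1, ?_⟩, ?_⟩
      · show n ≤ x - q * (j + 1)
        omega
      · intro p hp hcon
        rcases hcon with hcon | hcon
        · exact hn.2 p hp hcon
        · have hcon' : R p (n + q * (j + 1)) := hcon
          rw [← hmn] at hcon'
          exact hm.2 p hp hcon'
    rcases lt_trichotomy n m with h | h | h
    · obtain ⟨j, hj, hm'⟩ := key n m hn hm hnm h
      apply mem_union_right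
      apply mem_union_left
      rw [mem_image]
      exact ⟨(j, n), hj, by rw [← hm']⟩
    · subst h
      apply mem_union_left
      rw [mem_image]
      exact ⟨n, hn, rfl⟩
    · obtain ⟨j, hj, hm'⟩ := key m n hm hn hnm.symm h
      apply mem_union_right
      apply mem_union_right
      rw [mem_image]
      exact ⟨(j, m), hj, by rw [← hm']⟩
  have h4 : Pr.card ≤ S.card + 2 * T.card := by
    refine (card_le_card hcov).trans ((card_union_le _ _).trans ?_)
    have h5 := card_union_le (T.image (fun u : ℕ × ℕ => (u.2, u.2 + q * (u.1 + 1)))) (T.image (fun u => (u.2 + q * (u.1 + 1), u.2)))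
    have h6 := card_image_le (s := T) (f := fun u : ℕ × ℕ => (u.2, u.2 + q * (u.1 + 1)))
    have h7 := card_image_le (s := T) (f := fun u : ℕ × ℕ => (u.2 + q * (u.1 + 1), u.2))
    have h8 := card_image_le (s := S) (f := fun n : ℕ => (n, n))
    omega
  have h5 := h1.trans h4
  rw [hTc] at h5
  exact_mod_cast h5

end Pool.Agent.Y871.BD
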