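import Mathlib
import Pool.Agent.Y871.BD.Var

/-! The variance over the classes, one modulus. -/

namespace Pool.Agent.Y871.BD
open Finset Polynomial
open Pool.Agent.H373R2.T7

/-- the arithmetic of the variance -/
lemma var_num (x q K T D W P N M2 Cs Er : ℝ) (hx : 0 < x) (hq : 0 < q) (hT : q * T = x) (hT1 : 1 ≤ T) (hK : K ≤ T + 1)
    (hK0 : 0 ≤ K) (hD0 : 0 ≤ D) (hD1 : D ≤ 1) (hW0 : 0 ≤ W) (hW1 : W ≤ 1) (hP : 1 ≤ P) (hN : N ≤ x) (hEr : 0 ≤ Er)
    (hNlow : x * (W * D) - Er ≤ N) (hM2 : M2 ≤ N + 2 * Cs)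
    (hCs : 2 * Cs ≤ q * W * (K ^ 2 * D ^ 2 + K * P) + 2 * K * Er) :
    M2 - 2 * T * (D * N) + T ^ 2 * (D ^ 2 * (q * W)) ≤ 6 * (x * P) + 6 * (T * Er) := by
  have hT0 : 0 < T := by linarith
  have hD2 : D ^ 2 ≤ 1 := pow_le_one₀ hD0 hD1
  have hWD : W * D ^ 2 ≤ 1 := mul_le_one₀ hW1 (by positivity) hD2
  have hWD0 : 0 ≤ W * D ^ 2 := by positivity
  have h1 : K ^ 2 ≤ T ^ 2 + 3 * T := by nlinarith
  have h2 : K ≤ 2 * T := by linarith
  have h3 : q * W * (K ^ 2 * D ^ 2) ≤ q * T ^ 2 * (W * D ^ 2) + 3 * x := by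
    calc q * W * (K ^ 2 * D ^ 2) = q * (W * D ^ 2) * K ^ 2 := by ring
      _ ≤ q * (W * D ^ 2) * (T ^ 2 + 3 * T) := mul_le_mul_of_nonneg_left h1 (by positivity)
      _ = q * T ^ 2 * (W * D ^ 2) + 3 * (q * T) * (W * D ^ 2) := by ring
      _ ≤ q * T ^ 2 * (W * D ^ 2) + 3 * (q * T) * 1 := by
          have : 0 ≤ 3 * (q * T) := by positivity
          nlinarith
      _ = _ := by rw [hT]; ring
  have h4 : q * W * (K * P) ≤ 2 * (x * P) := by
    calc q * W * (K * P) = (q * K * P) * W := by ring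
      _ ≤ (q * K * P) * 1 := mul_le_mul_of_nonneg_left hW1 (by positivity)
      _ ≤ q * (2 * T) * P := by
          rw [mul_one]
          exact mul_le_mul_of_nonneg_right (mul_le_mul_of_nonneg_left h2 hq.le) (by linarith)
      _ = 2 * ((q * T) * P) := by ring
      _ = _ := by rw [hT]
  have h5 : 2 * K * Er ≤ 4 * (T * Er) := by nlinarith
  have h6 : 2 * T * (D * (x * (W * D) - Er)) ≤ 2 * T * (D * N) :=
    mul_le_mul_of_nonneg_left (mul_le_mul_of_nonneg_left hNlow hD0) (by positivity)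
  have h7 : 2 * T * (D * (x * (W * D) - Er)) = 2 * (q * T ^ 2 * (W * D ^ 2)) - 2 * (T * Er) * D := by
    rw [← hT]; ring
  have h8 : 2 * (T * Er) * D ≤ 2 * (T * Er) := by
    have : 0 ≤ 2 * (T * Er) := by positivity
    nlinarith
  have h9 : T ^ 2 * (D ^ 2 * (q * W)) = q * T ^ 2 * (W * D ^ 2) := by ring
  have h10 : x ≤ x * P := by nlinarith
  rw [h9]
  nlinarith

open Classical in
/-- the variance -/
theorem var_q (c E U : ℕ) (hc : 1 ≤ c) : ∃ N0 : ℕ, ∀ x : ℕ, N0 ≤ x → ∀ z : ℕ, 1 ≤ z → (z : ℝ) ≤ Real.log x ^ E →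
    ∀ R : ℕ → ℕ → Prop, PerB R c → ∀ q : ℕ, 1 ≤ q → q ≤ x →
      ∑ b ∈ range q, ((((Icc 1 x).filter (fun n : ℕ => n % q = b ∧ ∀ p ∈ pz z, ¬ R p n)).card : ℝ) -
        (x : ℝ) / q * dns R z q b) ^ 2 ≤ 6 * (x * Pi4 c z) + 6 * ((x : ℝ) / q * (x / Real.log x ^ U)) := by
  obtain ⟨N1, h1⟩ := cnt_up (2 * c) E U (by omega)
  obtain ⟨N2, h2⟩ := sys_count c E U hc
  obtain ⟨N3, h3⟩ := ev_L' 1
  refine ⟨max (max N1 N2) (max N3 1), fun x hx z hz hzE R hR q hq hqx => ?_⟩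
  have hx1 : N1 ≤ x := (le_max_left _ _).trans ((le_max_left _ _).trans hx)
  have hx2 : N2 ≤ x := (le_max_right _ _).trans ((le_max_left _ _).trans hx)
  have hx3 : N3 ≤ x := (le_max_left _ _).trans ((le_max_right _ _).trans hx)
  have hx4 : 1 ≤ x := (le_max_right _ _).trans ((le_max_right _ _).trans hx)
  have hL := h3 x hx3
  have hx0 : (0 : ℝ) < x := by exact_mod_cast hx4
  have hq0 : (0 : ℝ) < q := by exact_mod_cast hq
  set cn : ℕ → ℝ := fun b => (((Icc 1 x).filter (fun n : ℕ => n % q = b ∧ ∀ p ∈ pz z, ¬ R p n)).card : ℝ) with hcn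
  set N : ℝ := (((Icc 1 x).filter (fun n : ℕ => ∀ p ∈ pz z, ¬ R p n)).card : ℝ) with hN
  set D := Dq R z q with hD
  set W := Wq R z q with hW
  set T : ℝ := (x : ℝ) / q with hT
  set K : ℕ := x / q + 1 with hK
  have hxK : x ≤ q * K := (Nat.lt_mul_div_succ x hq).le
  -- the sums
  have hdns : ∀ b, dns R z q b = if (∀ p ∈ pz z, p ∣ q → ¬ R p b) then D else 0 := fun b => rfl
  have hcnz : ∀ b, ¬ (∀ p ∈ pz z, p ∣ q → ¬ R p b) → cn b = 0 := by
    intro b hb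
    push Not at hb
    obtain ⟨p, hp, hpq, hRp⟩ := hb
    rw [hcn]
    simp only [Nat.cast_eq_zero, card_eq_zero]
    rw [filter_eq_empty_iff]
    intro n _ hn
    apply hn.2 p hp
    rw [hR.per p n]
    have h5 : n % p = b % p := by rw [← hn.1, Nat.mod_mod_of_dvd _ hpq]
    rw [h5, ← hR.per p b]
    exact hRp
  have hsum1 : ∑ b ∈ range q, cn b = N := by
    rw [hcn, hN]
    have h5 := card_eq_sum_card_fiberwise (s := (Icc 1 x).filter (fun n : ℕ => ∀ p ∈ pz z, ¬ R p n)) (t := range q)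
      (f := fun n => n % q) (fun n _ => mem_coe.2 (mem_range.2 (Nat.mod_lt _ hq)))
    rw [h5]
    push_cast
    apply sum_congr rfl
    intro b _
    congr 1
    apply congrArg
    ext n
    simp only [mem_filter]
    tauto
  have hsum2 : ∑ b ∈ range q, cn b * dns R z q b = D * N := by
    rw [← hsum1, mul_sum]
    apply sum_congr rfl
    intro b _
    rw [hdns b]
    by_cases h : ∀ p ∈ pz z, p ∣ q → ¬ R p b
    · rw [if_pos h]; ring
    · rw [if_neg h, hcnz b h]; ring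
  have hsum3 : ∑ b ∈ range q, dns R z q b ^ 2 = D ^ 2 * (q * W) := by
    rw [hW, ← good_count R c hR z q, card_filter]
    push_cast
    rw [mul_sum]
    apply sum_congr rfl
    intro b _
    rw [hdns b]
    by_cases h : ∀ p ∈ pz z, p ∣ q → ¬ R p b
    · rw [if_pos h, if_pos h]; ring
    · rw [if_neg h, if_neg h]; ring
  have hexp : ∑ b ∈ range q, (cn b - T * dns R z q b) ^ 2 = ∑ b ∈ range q, cn b ^ 2 - 2 * T * (D * N) +
      T ^ 2 * (D ^ 2 * (q * W)) := by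
    rw [← hsum2, ← hsum3, mul_sum, mul_sum, ← sum_sub_distrib, ← sum_add_distrib]
    apply sum_congr rfl
    intro b _
    ring
  -- pairs
  have hpairs := pairs_le R z q x K hxK
  set Er : ℝ := x / Real.log x ^ U with hEr
  have hEr0 : 0 ≤ Er := by positivity
  set Cs : ℝ := ∑ j ∈ range K, (((Icc 1 (x - q * (j + 1))).filter (fun n : ℕ => ∀ p ∈ pz z, ¬ Rj R q (j + 1) p n)).card : ℝ) with hCs
  have hCs1 : Cs ≤ ∑ j ∈ range K, (q * (((K : ℝ) - 1 - j)) * (W * Sj R z q (j + 1)) + Er) := by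
    apply sum_le_sum
    intro j hj
    rw [mem_range] at hj
    have h5 := h1 x hx1 z hz hzE (Rj R q (j + 1)) (Rj_perB R c hR q (j + 1)) (x - q * (j + 1)) (Nat.sub_le _ _)
    rw [Sj_full R c hR] at h5
    refine h5.trans ?_
    have h6 : ((x - q * (j + 1) : ℕ) : ℝ) ≤ q * ((K : ℝ) - 1 - j) := by
      have h7 : x - q * (j + 1) ≤ q * (K - (j + 1)) := by
        rw [Nat.mul_sub]
        omega
      have h8 : ((x - q * (j + 1) : ℕ) : ℝ) ≤ ((q * (K - (j + 1)) : ℕ) : ℝ) := by exact_mod_cast h7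
      refine h8.trans (le_of_eq ?_)
      rw [Nat.cast_mul, Nat.cast_sub (by omega)]
      push_cast
      ring
    have h7 : 0 ≤ W * Sj R z q (j + 1) := by
      apply mul_nonneg (Wq_bd R z q).1
      unfold Sj
      exact prod_nonneg fun p hp => (al_bd _ p (mem_pz.1 (mem_filter.1 hp).1).2).1
    have h8 := mul_le_mul_of_nonneg_right h6 h7
    linarith
  have hCs2 : 2 * Cs ≤ q * W * ((K : ℝ) ^ 2 * D ^ 2 + K * Pi4 c z) + 2 * K * Er := by
    have h5 : ∑ j ∈ range K, (q * (((K : ℝ) - 1 - j)) * (W * Sj R z q (j + 1)) + Er) =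
        q * W * ∑ j ∈ range K, ((K : ℝ) - 1 - j) * Sj R z q (j + 1) + K * Er := by
      rw [sum_add_distrib, sum_const, card_range, nsmul_eq_mul, mul_sum]
      congr 1
      apply sum_congr rfl
      intro j _
      ring
    have h6 := Sj_sum R c hR z q K
    have h7 : 0 ≤ (q : ℝ) * W := mul_nonneg hq0.le (Wq_bd R z q).1
    have h8 := mul_le_mul_of_nonneg_left h6 h7
    rw [h5] at hCs1
    have h9 : (q : ℝ) * W * (2 * ∑ j ∈ range K, ((K : ℝ) - 1 - j) * Sj R z q (j + 1)) =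
        2 * (q * W * ∑ j ∈ range K, ((K : ℝ) - 1 - j) * Sj R z q (j + 1)) := by ring
    rw [h9] at h8
    linarith
  have hT1 : 1 ≤ T := by
    rw [hT, le_div_iff₀ hq0, one_mul]
    exact_mod_cast hqx
  have hqT : (q : ℝ) * T = x := by rw [hT]; field_simp
  have hK1 : (K : ℝ) ≤ T + 1 := by
    rw [hK, hT]
    push_cast
    have : ((x / q : ℕ) : ℝ) ≤ (x : ℝ) / q := Nat.cast_div_le
    linarith
  have hNx : N ≤ x := by
    rw [hN]
    have : ((Icc 1 x).filter (fun n : ℕ => ∀ p ∈ pz z, ¬ R p n)).card ≤ x := (card_filter_le _ _).trans (by simp)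
    exact_mod_cast this
  have hNlow : (x : ℝ) * (W * D) - Er ≤ N := by
    have h5 := (abs_le.1 (h2 x hx2 z hz hzE R hR)).1
    rw [WD_eq R z q] at h5
    linarith
  have hfin := var_num x q K T D W (Pi4 c z) N (∑ b ∈ range q, cn b ^ 2) Cs Er hx0 hq0 hqT hT1 hK1 (Nat.cast_nonneg _)
    (Dq_bd R z q).1 (Dq_bd R z q).2 (Wq_bd R z q).1 (Wq_bd R z q).2 (Pi4_one c z) hNx hEr0 hNlow hpairs hCs2
  rw [← hexp] at hfin
  exact hfin

end Pool.Agent.Y871.BD
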