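import Mathlib
import Pool.Agent.Y871.BD.VarQ
import Pool.Agent.Y871.BD.Conv

/-! The full range of moduli with the explicit main terms. -/

namespace Pool.Agent.Y871.BD
open Finset Polynomial
open Pool.Agent.H373R2.T7

lemma Pi4_le (c z : ℕ) : Pi4 c z ≤ ((Vz z)⁻¹) ^ (4 * c ^ 2) := by
  unfold Pi4 Vz
  rw [← prod_inv_distrib, ← prod_pow]
  apply prod_le_prod
  · intro p _
    positivity
  · intro p hp
    have hpr := (mem_pz.1 hp).2
    have hp2 : (2 : ℝ) ≤ p := by exact_mod_cast hpr.two_le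
    have hp0 : (0 : ℝ) < p := by linarith
    have h1 : (1 : ℝ) + ((4 * c ^ 2 : ℕ) : ℝ) * (1 / p) ≤ (1 + 1 / p) ^ (4 * c ^ 2) :=
      one_add_mul_le_pow (by have : (0 : ℝ) ≤ 1 / p := by positivity
                             linarith) _
    have h2 : (1 : ℝ) + (2 * (c : ℝ)) ^ 2 / p = 1 + ((4 * c ^ 2 : ℕ) : ℝ) * (1 / p) := by
      push_cast; ring
    rw [h2]
    refine h1.trans (pow_le_pow_left₀ (by positivity) ?_ _)
    have h3 : 0 < 1 - 1 / (p : ℝ) := by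
      rw [sub_pos, div_lt_one hp0]; linarith
    rw [le_inv_comm₀ (by positivity) h3, inv_eq_one_div, le_div_iff₀ (by positivity)]
    have h4 : (1 - 1 / (p : ℝ)) * (1 + 1 / p) = 1 - (1 / p) ^ 2 := by ring
    rw [h4]
    nlinarith [sq_nonneg (1 / (p : ℝ))]

/-- the exponent -/
noncomputable def Cmod {k : ℕ} (F : Fin k → ℤ[X]) (U : ℕ) : ℕ := 2 * k + 4 * sysC F ^ 2 + U + 1

lemma full_num (x L Q n0 S1 V2 H P : ℝ) (k m U : ℕ) (hL : 2 * n0 ^ 2 + 36 ≤ L) (hx : 0 < x)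
    (hQ0 : 0 ≤ Q) (hQ : Q ≤ x / L ^ (2 * k + m + U + 1)) (hV : V2 ≤ L ^ (2 * k)) (hV0 : 0 ≤ V2)
    (hP : P ≤ L ^ m) (hH : H ≤ 2 * L)
    (hS : S1 ≤ 2 * (Q ^ 2 * n0 ^ 2) + 12 * (Q * (x * P)) + 12 * (H * (x * (x / L ^ (2 * k + 2 + U))))) :
    V2 * S1 ≤ x ^ 2 / L ^ U := by
  have hL1 : 1 ≤ L := by nlinarith [sq_nonneg n0]
  have hL0 : 0 < L := by linarith
  have e1 : Q ^ 2 * n0 ^ 2 * L ^ (2 * k) ≤ n0 ^ 2 * (x ^ 2 / L ^ (U + 1)) := by
    have h1 : Q ^ 2 ≤ (x / L ^ (2 * k + m + U + 1)) ^ 2 := pow_le_pow_left₀ hQ0 hQ 2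
    have h2 : (x / L ^ (2 * k + m + U + 1)) ^ 2 * L ^ (2 * k) ≤ x ^ 2 / L ^ (U + 1) := by
      rw [div_pow, div_mul_eq_mul_div, div_le_div_iff₀ (by positivity) (by positivity), ← pow_mul, mul_assoc, ← pow_add]
      apply mul_le_mul_of_nonneg_left _ (by positivity)
      exact pow_le_pow_right₀ hL1 (by omega)
    calc Q ^ 2 * n0 ^ 2 * L ^ (2 * k) = n0 ^ 2 * (Q ^ 2 * L ^ (2 * k)) := by ring
      _ ≤ n0 ^ 2 * ((x / L ^ (2 * k + m + U + 1)) ^ 2 * L ^ (2 * k)) :=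
          mul_le_mul_of_nonneg_left (mul_le_mul_of_nonneg_right h1 (by positivity)) (by positivity)
      _ ≤ _ := mul_le_mul_of_nonneg_left h2 (by positivity)
  have e2 : Q * (x * P) * L ^ (2 * k) ≤ x ^ 2 / L ^ (U + 1) := by
    calc Q * (x * P) * L ^ (2 * k) ≤ Q * (x * L ^ m) * L ^ (2 * k) := by
          apply mul_le_mul_of_nonneg_right _ (by positivity)
          exact mul_le_mul_of_nonneg_left (mul_le_mul_of_nonneg_left hP hx.le) hQ0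
      _ ≤ (x / L ^ (2 * k + m + U + 1)) * (x * L ^ m) * L ^ (2 * k) := by
          apply mul_le_mul_of_nonneg_right _ (by positivity)
          exact mul_le_mul_of_nonneg_right hQ (by positivity)
      _ = x ^ 2 / L ^ (U + 1) := by
          rw [show 2 * k + m + U + 1 = (2 * k + m) + (U + 1) by ring, pow_add, pow_add L (2 * k) m]
          field_simp
  have e3 : H * (x * (x / L ^ (2 * k + 2 + U))) * L ^ (2 * k) ≤ 2 * (x ^ 2 / L ^ (U + 1)) := by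
    calc H * (x * (x / L ^ (2 * k + 2 + U))) * L ^ (2 * k) ≤ (2 * L) * (x * (x / L ^ (2 * k + 2 + U))) * L ^ (2 * k) := by
          apply mul_le_mul_of_nonneg_right _ (by positivity)
          exact mul_le_mul_of_nonneg_right hH (by positivity)
      _ = _ := by
          rw [show 2 * k + 2 + U = 2 * k + (U + 1) + 1 by ring, pow_add, pow_add L (2 * k), pow_one]
          field_simp
  by_cases hS1 : S1 ≤ 0
  · exact (mul_nonpos_of_nonneg_of_nonpos hV0 hS1).trans (by positivity)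
  · push Not at hS1
    calc V2 * S1 ≤ L ^ (2 * k) * S1 := mul_le_mul_of_nonneg_right hV hS1.le
      _ ≤ L ^ (2 * k) * (2 * (Q ^ 2 * n0 ^ 2) + 12 * (Q * (x * P)) + 12 * (H * (x * (x / L ^ (2 * k + 2 + U))))) :=
          mul_le_mul_of_nonneg_left hS (by positivity)
      _ = 2 * (Q ^ 2 * n0 ^ 2 * L ^ (2 * k)) + 12 * (Q * (x * P) * L ^ (2 * k)) +
          12 * (H * (x * (x / L ^ (2 * k + 2 + U))) * L ^ (2 * k)) := by ring
      _ ≤ 2 * (n0 ^ 2 * (x ^ 2 / L ^ (U + 1))) + 12 * (x ^ 2 / L ^ (U + 1)) + 12 * (2 * (x ^ 2 / L ^ (U + 1))) := by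
          linarith
      _ = (2 * n0 ^ 2 + 36) * (x ^ 2 / L ^ (U + 1)) := by ring
      _ ≤ L * (x ^ 2 / L ^ (U + 1)) := mul_le_mul_of_nonneg_right hL (by positivity)
      _ = x ^ 2 / L ^ U := by rw [pow_succ L U]; field_simp

/-- the model agrees with the main terms, in mean square over all moduli -/
theorem model_full {k : ℕ} (F : Fin k → ℤ[X]) (hd : ∀ i, 1 ≤ (F i).natDegree) (hl : ∀ i, 0 < (F i).leadingCoeff)
    (E U : ℕ) : ∃ N0 : ℕ, ∀ x : ℕ, N0 ≤ x → ∀ z : ℕ, 1 ≤ z → (z : ℝ) ≤ Real.log x ^ E →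
    ∀ a : Fin k → ℕ, (∀ i, 1 ≤ a i) → ∀ Q : ℕ, (Q : ℝ) ≤ x / Real.log x ^ (Cmod F U) →
      ∑ q ∈ Icc 1 Q, ∑ r ∈ range q, (thZ F z a x q r - mt F z a x q r) ^ 2 ≤ x ^ 2 / Real.log x ^ U := by
  classical
  have hsg : ∀ i, s1 k i = 1 ∨ s1 k i = -1 := fun i => Or.inl rfl
  obtain ⟨n0, hn0⟩ := cnt_close F hd hl
  obtain ⟨N1, h1⟩ := var_q (sysC F) E (2 * k + 2 + U) (by unfold sysC; omega)
  obtain ⟨N2, h2⟩ := Vz_inv_small E
  obtain ⟨N3, h3⟩ := ev_L' (2 * (n0 : ℝ) ^ 2 + 36)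
  refine ⟨max (max N1 N2) (max N3 3), fun x hx z hz hzE a ha Q hQ => ?_⟩
  have hx1 : N1 ≤ x := (le_max_left _ _).trans ((le_max_left _ _).trans hx)
  have hx2 : N2 ≤ x := (le_max_right _ _).trans ((le_max_left _ _).trans hx)
  have hx3 : N3 ≤ x := (le_max_left _ _).trans ((le_max_right _ _).trans hx)
  have hx4 : 3 ≤ x := (le_max_right _ _).trans ((le_max_right _ _).trans hx)
  have hxr : (3 : ℝ) ≤ x := by exact_mod_cast hx4
  have hx0 : (0 : ℝ) < x := by linarith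
  have hV := h2 x hx2 z hz hzE
  have hL := h3 x hx3
  have hR := sysQ_per F hd hl (s1 k) hsg a
  set L := Real.log x with hLd
  set R := sysQ F (s1 k) a with hRd
  have hL1 : 1 ≤ L := by nlinarith [sq_nonneg (n0 : ℝ)]
  have hL0 : 0 < L := by linarith
  have hV0 : 0 ≤ (Vz z)⁻¹ := inv_nonneg.2 (Vz_pos z).le
  have hV2 : ((Vz z)⁻¹ ^ k) ^ 2 ≤ L ^ (2 * k) := by
    rw [← pow_mul, mul_comm k 2]
    exact pow_le_pow_left₀ hV0 hV _
  have hP : Pi4 (sysC F) z ≤ L ^ (4 * sysC F ^ 2) := (Pi4_le _ _).trans (pow_le_pow_left₀ hV0 hV _)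
  have hQx : Q ≤ x := by
    have : (Q : ℝ) ≤ x := hQ.trans (div_le_self hx0.le (one_le_pow₀ hL1))
    exact_mod_cast this
  set c1 : ℕ → ℕ → ℝ := fun q b => (((Icc 1 x).filter (fun n : ℕ => n % q = b ∧
        ((∀ i, 1 ≤ vl F (s1 k) a i n) ∧ ∀ p ∈ pz z, ¬ sysQ F (s1 k) a p n))).card : ℝ) with hc1
  set c2 : ℕ → ℕ → ℝ := fun q b => (((Icc 1 x).filter (fun n : ℕ => n % q = b ∧ ∀ p ∈ pz z, ¬ R p n)).card : ℝ) with hc2
  have hq : ∀ q ∈ Icc 1 Q, ∑ b ∈ range q, (c1 q b - (x : ℝ) / q * dns R z q b) ^ 2 ≤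
      2 * (Q * (n0 : ℝ) ^ 2) + 12 * (x * Pi4 (sysC F) z) + 12 * ((1 : ℝ) / q * (x * (x / L ^ (2 * k + 2 + U)))) := by
    intro q hq
    rw [mem_Icc] at hq
    have hqQ : (q : ℝ) ≤ Q := by exact_mod_cast hq.2
    have h4 := h1 x hx1 z hz hzE R hR q hq.1 (hq.2.trans hQx)
    calc ∑ b ∈ range q, (c1 q b - (x : ℝ) / q * dns R z q b) ^ 2
        ≤ ∑ b ∈ range q, (2 * (n0 : ℝ) ^ 2 + 2 * (c2 q b - (x : ℝ) / q * dns R z q b) ^ 2) := by
          apply sum_le_sum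
          intro b _
          have h5 : |c1 q b - c2 q b| ≤ n0 := hn0 z a ha x q b
          have h6 : (c1 q b - c2 q b) ^ 2 ≤ (n0 : ℝ) ^ 2 := by
            rw [← sq_abs]
            exact pow_le_pow_left₀ (abs_nonneg _) h5 2
          nlinarith [sq_nonneg ((c1 q b - c2 q b) - (c2 q b - (x : ℝ) / q * dns R z q b))]
      _ = q * (2 * (n0 : ℝ) ^ 2) + 2 * ∑ b ∈ range q, (c2 q b - (x : ℝ) / q * dns R z q b) ^ 2 := by
          rw [sum_add_distrib, sum_const, card_range, nsmul_eq_mul, mul_sum]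
      _ ≤ Q * (2 * (n0 : ℝ) ^ 2) + 2 * (6 * (x * Pi4 (sysC F) z) + 6 * ((x : ℝ) / q * (x / L ^ (2 * k + 2 + U)))) := by
          apply add_le_add
          · exact mul_le_mul_of_nonneg_right hqQ (by positivity)
          · exact mul_le_mul_of_nonneg_left h4 (by norm_num)
      _ = _ := by ring
  have hS : ∑ q ∈ Icc 1 Q, ∑ b ∈ range q, (c1 q b - (x : ℝ) / q * dns R z q b) ^ 2 ≤
      2 * ((Q : ℝ) ^ 2 * (n0 : ℝ) ^ 2) + 12 * (Q * (x * Pi4 (sysC F) z)) +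
        12 * ((∑ q ∈ Icc 1 Q, (1 : ℝ) / q) * (x * (x / L ^ (2 * k + 2 + U)))) := by
    refine (sum_le_sum hq).trans (le_of_eq ?_)
    rw [sum_add_distrib, sum_add_distrib, sum_const, sum_const, Nat.card_Icc, Nat.add_sub_cancel, nsmul_eq_mul,
      nsmul_eq_mul, ← mul_sum, ← sum_mul]
    ring
  have hfin := full_num x L Q n0 _ (((Vz z)⁻¹ ^ k) ^ 2) (∑ q ∈ Icc 1 Q, (1 : ℝ) / q) (Pi4 (sysC F) z) k (4 * sysC F ^ 2) U
    hL hx0 (Nat.cast_nonneg _) hQ hV2 (by positivity) hP (harm_le Q x hx4 hQx) hS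
  refine le_trans (le_of_eq ?_) hfin
  rw [mul_sum]
  apply sum_congr rfl
  intro q _
  rw [mul_sum]
  apply sum_congr rfl
  intro b _
  rw [thZ_eq]
  unfold mt
  ring

/-- BDH in mean square over the shift vectors, all moduli up to `x / log ^ C x` -/
theorem bdh_main' {k : ℕ} (F : Fin k → ℤ[X]) (hd : ∀ i, 1 ≤ (F i).natDegree) (hl : ∀ i, 0 < (F i).leadingCoeff)
    (B : ℕ) (hB : 1 ≤ B) (U : ℕ) :
    ∃ B0 C : ℕ, ∀ E : ℕ, ∃ N0 : ℕ, ∀ x : ℕ, N0 ≤ x →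
    ∀ A : Fin k → ℕ, (∀ i, A i ≤ B * x ^ (F i).natDegree ∧ x ^ (F i).natDegree ≤ B * A i) →
    ∀ z : ℕ, Real.log x ^ B0 ≤ z → (z : ℝ) ≤ Real.log x ^ E → ∀ Q : ℕ, (Q : ℝ) ≤ x / Real.log x ^ C →
      ∑ a ∈ Fintype.piFinset (fun i => Icc 1 (A i)), ∑ q ∈ Icc 1 Q, ∑ r ∈ range q,
        (thP F a x q r - mt F z a x q r) ^ 2 ≤ (∏ i, (A i : ℝ)) * (x ^ 2 / Real.log x ^ U) := by
  obtain ⟨B0, h0⟩ := bdh_rough F hd hl (s1 k) (fun i => Or.inl rfl) B hB (U + 2)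
  refine ⟨B0, max (2 * k + 5 + (U + 2)) (Cmod F (U + 2)), fun E => ?_⟩
  obtain ⟨N1, h1⟩ := h0 E
  obtain ⟨N2, h2⟩ := model_full F hd hl E (U + 2)
  obtain ⟨N3, h3⟩ := ev_L' 4
  refine ⟨max (max N1 N2) (max N3 3), fun x hx A hA z hz1 hz2 Q hQ => ?_⟩
  have hx1 : N1 ≤ x := (le_max_left _ _).trans ((le_max_left _ _).trans hx)
  have hx2 : N2 ≤ x := (le_max_right _ _).trans ((le_max_left _ _).trans hx)
  have hx3 : N3 ≤ x := (le_max_left _ _).trans ((le_max_right _ _).trans hx)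
  have hx5 : 3 ≤ x := (le_max_right _ _).trans ((le_max_right _ _).trans hx)
  have hxr : (3 : ℝ) ≤ x := by exact_mod_cast hx5
  have hx0 : (0 : ℝ) < x := by linarith
  have a3 := h3 x hx3
  set L := Real.log x with hLd
  have hL0 : 0 < L := by linarith
  have hL1 : 1 ≤ L := by linarith
  have hz : 1 ≤ z := by
    have : (1 : ℝ) ≤ z := (one_le_pow₀ hL1).trans hz1
    exact_mod_cast this
  have hQ1 : (Q : ℝ) ≤ x / L ^ (2 * k + 5 + (U + 2)) := hQ.trans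
    (div_le_div_of_nonneg_left hx0.le (by positivity) (pow_le_pow_right₀ hL1 (le_max_left _ _)))
  have hQ2 : (Q : ℝ) ≤ x / L ^ (Cmod F (U + 2)) := hQ.trans
    (div_le_div_of_nonneg_left hx0.le (by positivity) (pow_le_pow_right₀ hL1 (le_max_right _ _)))
  have m1 := h1 x hx1 A hA z hz1 hz2 Q hQ1
  have hA0 : (0 : ℝ) ≤ ∏ i, (A i : ℝ) := prod_nonneg fun i _ => Nat.cast_nonneg _
  have m2 : ∑ a ∈ Fintype.piFinset (fun i => Icc 1 (A i)), ∑ q ∈ Icc 1 Q, ∑ r ∈ range q,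
        (thZ F z a x q r - mt F z a x q r) ^ 2 ≤ (∏ i, (A i : ℝ)) * (x ^ 2 / L ^ (U + 2)) := by
    calc _ ≤ ∑ _a ∈ Fintype.piFinset (fun i => Icc 1 (A i)), (x : ℝ) ^ 2 / L ^ (U + 2) := by
          apply sum_le_sum
          intro a ha
          exact h2 x hx2 z hz hz2 a (fun i => (mem_Icc.1 (Fintype.mem_piFinset.1 ha i)).1) Q hQ2
      _ = _ := by
        rw [sum_const, nsmul_eq_mul, Fintype.card_piFinset]
        simp
  have m3 : ∑ a ∈ Fintype.piFinset (fun i => Icc 1 (A i)), ∑ q ∈ Icc 1 Q, ∑ r ∈ range q,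
        (thP F a x q r - mt F z a x q r) ^ 2 ≤
      2 * ∑ a ∈ Fintype.piFinset (fun i => Icc 1 (A i)), ∑ q ∈ Icc 1 Q, ∑ r ∈ range q,
        (∑ n ∈ (Icc 1 x).filter (fun n : ℕ => n % q = r),
          (∏ i, lamP (vl F (s1 k) a i n) - ∏ i, lamzI z (vl F (s1 k) a i n))) ^ 2 +
      2 * ∑ a ∈ Fintype.piFinset (fun i => Icc 1 (A i)), ∑ q ∈ Icc 1 Q, ∑ r ∈ range q,
        (thZ F z a x q r - mt F z a x q r) ^ 2 := by
    rw [mul_sum, mul_sum, ← sum_add_distrib]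
    apply sum_le_sum
    intro a _
    rw [mul_sum, mul_sum, ← sum_add_distrib]
    apply sum_le_sum
    intro q _
    rw [mul_sum, mul_sum, ← sum_add_distrib]
    apply sum_le_sum
    intro r _
    rw [sum_sub_distrib]
    unfold thP
    have h9 : ∀ u v w : ℝ, (u - w) ^ 2 ≤ 2 * (u - v) ^ 2 + 2 * (v - w) ^ 2 := by
      intro u v w
      nlinarith [sq_nonneg ((u - v) - (v - w))]
    exact h9 _ _ _
  refine m3.trans ?_
  have hL2 : x ^ 2 / L ^ (U + 2) ≤ 1 / 4 * ((x : ℝ) ^ 2 / L ^ U) := by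
    have h10 : (x : ℝ) ^ 2 / L ^ (U + 2) = (x ^ 2 / L ^ U) * (1 / L ^ 2) := by
      rw [pow_add]; field_simp
    rw [h10, mul_comm]
    apply mul_le_mul_of_nonneg_right _ (by positivity)
    apply div_le_div_of_nonneg_left (by norm_num) (by norm_num)
    nlinarith
  have h11 := mul_le_mul_of_nonneg_left hL2 hA0
  linarith

open Classical in
/-- **BDH for almost all shift vectors, all moduli up to `x / log ^ C x`** -/
theorem bdh_aa' {k : ℕ} (F : Fin k → ℤ[X]) (hd : ∀ i, 1 ≤ (F i).natDegree) (hl : ∀ i, 0 < (F i).leadingCoeff)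
    (B : ℕ) (hB : 1 ≤ B) (U : ℕ) :
    ∃ B0 C : ℕ, ∀ E : ℕ, ∃ N0 : ℕ, ∀ x : ℕ, N0 ≤ x →
    ∀ A : Fin k → ℕ, (∀ i, A i ≤ B * x ^ (F i).natDegree ∧ x ^ (F i).natDegree ≤ B * A i) →
    ∀ z : ℕ, Real.log x ^ B0 ≤ z → (z : ℝ) ≤ Real.log x ^ E → ∀ Q : ℕ, (Q : ℝ) ≤ x / Real.log x ^ C →
      (((Fintype.piFinset (fun i => Icc 1 (A i))).filter (fun a => x ^ 2 / Real.log x ^ U <
        ∑ q ∈ Icc 1 Q, ∑ r ∈ range q, (thP F a x q r - mt F z a x q r) ^ 2)).card : ℝ) ≤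
        (∏ i, (A i : ℝ)) / Real.log x ^ U := by
  obtain ⟨B0, C, h0⟩ := bdh_main' F hd hl B hB (2 * U)
  refine ⟨B0, C, fun E => ?_⟩
  obtain ⟨N1, h1⟩ := h0 E
  obtain ⟨N2, h2⟩ := ev_L' 1
  refine ⟨max (max N1 N2) 1, fun x hx A hA z hz1 hz2 Q hQ => ?_⟩
  have hx1 : N1 ≤ x := (le_max_left _ _).trans ((le_max_left _ _).trans hx)
  have hx2 : N2 ≤ x := (le_max_right _ _).trans ((le_max_left _ _).trans hx)
  have hx3 : 1 ≤ x := (le_max_right _ _).trans hx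
  have hx0 : (0 : ℝ) < x := by exact_mod_cast hx3
  have hL := h2 x hx2
  have hL0 : 0 < Real.log (x : ℝ) := by linarith
  refine markov _ _ (fun a _ => sum_nonneg fun q _ => sum_nonneg fun r _ => sq_nonneg _) _ _ (by positivity) ?_
  refine (h1 x hx1 A hA z hz1 hz2 Q hQ).trans (le_of_eq ?_)
  rw [two_mul, pow_add]
  field_simp

end Pool.Agent.Y871.BD
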